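import Mathlib

/-!
Linear algebra of matrices: trace pairing, rank factorisation.
-/

set_option autoImplicit false

open Matrix

namespace H563R4

variable {F : Type*} [Field F]

/-- nondegeneracy of the trace pairing -/
theorem eq_zero_of_trace {m n : Type*} [Fintype m] [Fintype n] [DecidableEq m] [DecidableEq n]
    {A : Matrix m n F} (h : ∀ B : Matrix m n F, trace (Aᵀ * B) = 0) : A = 0 := by
  ext i j
  have := h (Matrix.single i j 1)
  rw [trace_mul_comm] at this
  simpa [Matrix.trace_single_mul] using this

/-- every linear functional on matrices is given by the trace pairing -/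
theorem exists_trace {m n : Type*} [Fintype m] [Fintype n] [DecidableEq m] [DecidableEq n]
    (f : Matrix m n F →ₗ[F] F) : ∃ A : Matrix m n F, ∀ B, f B = trace (Aᵀ * B) := by
  refine ⟨fun i j => f (Matrix.single i j 1), fun B => ?_⟩
  conv_lhs => rw [matrix_eq_sum_single B]
  simp only [map_sum]
  rw [trace, Finset.sum_comm]
  simp only [diag_apply, mul_apply]
  refine Finset.sum_congr rfl fun j _ => Finset.sum_congr rfl fun i _ => ?_
  have : (Matrix.single i j (B i j) : Matrix m n F) = B i j • Matrix.single i j 1 := by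
    rw [Matrix.smul_single]; simp
  rw [this, map_smul, smul_eq_mul, mul_comm]
  rfl

/-- a proper subspace of matrices is killed by some nonzero matrix -/
theorem exists_ne_zero_trace {m n : Type*} [Fintype m] [Fintype n] [DecidableEq m] [DecidableEq n]
    {S : Submodule F (Matrix m n F)} (hS : S ≠ ⊤) :
    ∃ A : Matrix m n F, A ≠ 0 ∧ ∀ B ∈ S, trace (Aᵀ * B) = 0 := by
  obtain ⟨f, hf0, hf⟩ := Submodule.exists_le_ker_of_lt_top S (lt_top_iff_ne_top.2 hS)
  obtain ⟨A, hA⟩ := exists_trace f
  refine ⟨A, ?_, fun B hB => ?_⟩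
  · rintro rfl
    apply hf0
    ext B
    simp [hA]
  · rw [← hA]
    exact hf hB

/-- left inverse of an injective matrix -/
theorem exists_leftInv {m n : Type*} [Fintype m] [Fintype n] [DecidableEq m] [DecidableEq n]
    {X : Matrix m n F} (hX : Function.Injective X.mulVec) : ∃ Y : Matrix n m F, Y * X = 1 := by
  obtain ⟨g, hg⟩ := X.mulVecLin.exists_leftInverse_of_injective (LinearMap.ker_eq_bot.2 hX)
  refine ⟨LinearMap.toMatrix' g, ?_⟩
  have h1 : X = LinearMap.toMatrix' X.mulVecLin := by
    rw [← Matrix.toLin'_apply', LinearMap.toMatrix'_toLin']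
  rw [h1, ← LinearMap.toMatrix'_comp, hg, LinearMap.toMatrix'_id]

/-- rank factorisation -/
theorem exists_rank_factorization {m n : Type*} [Fintype m] [Fintype n] [DecidableEq m]
    [DecidableEq n] {A : Matrix m n F} (hA : A ≠ 0) :
    ∃ (r : ℕ) (X : Matrix m (Fin r) F) (Q : Matrix n (Fin r) F), 1 ≤ r ∧
      Function.Injective X.mulVec ∧ Function.Injective Q.mulVec ∧ A = X * Qᵀ := by
  let V := LinearMap.range A.mulVecLin
  let r := Module.finrank F V
  let b : Module.Basis (Fin r) F V := Module.finBasis F V
  let X : Matrix m (Fin r) F := Matrix.of fun i j => (b j : m → F) i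
  let Q : Matrix n (Fin r) F := Matrix.of fun j k =>
    b.repr ⟨A.mulVecLin (Pi.single j 1), LinearMap.mem_range_self _ _⟩ k
  have hXv : ∀ c : Fin r → F, X.mulVec c = ((∑ k, c k • b k : V) : m → F) := by
    intro c
    ext i
    simp [X, Matrix.mulVec, dotProduct, mul_comm]
  have hXinj : Function.Injective X.mulVec := by
    intro c d h
    rw [hXv, hXv] at h
    have h' : (∑ k, c k • b k : V) = ∑ k, d k • b k := Subtype.ext h
    have := congrArg b.repr h'
    ext k
    have := congrArg (fun f => f k) this
    simpa [Finsupp.single_apply] using this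
  have hA' : A = X * Qᵀ := by
    ext i j
    have h1 : (A.mulVecLin (Pi.single j 1)) i = A i j := by
      simp
    have h2 : ((∑ k, Q j k • b k : V) : m → F) = A.mulVecLin (Pi.single j 1) := by
      simp only [Q, Matrix.of_apply]
      rw [b.sum_repr]
    rw [← h1, ← h2, ← hXv]
    simp [Matrix.mul_apply, Matrix.mulVec, dotProduct]
  have hr : 1 ≤ r := by
    by_contra hr
    have hr0 : r = 0 := by omega
    apply hA
    have : V = ⊥ := Submodule.finrank_eq_zero.1 hr0
    have h3 : A.mulVecLin = 0 := LinearMap.range_eq_bot.1 this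
    ext i j
    have := congrArg (fun f => f (Pi.single j 1) i) h3
    simpa using this
  refine ⟨r, X, Q, hr, hXinj, ?_, hA'⟩
  -- the map `c ↦ Qᵀ c` is surjective
  have hsurj : Function.Surjective (Qᵀ).mulVec := by
    intro c
    obtain ⟨v, hv⟩ : (∑ k, c k • b k : V).1 ∈ LinearMap.range A.mulVecLin :=
      (∑ k, c k • b k : V).2
    refine ⟨v, ?_⟩
    apply hXinj
    rw [hXv c, ← hv, Matrix.mulVec_mulVec, ← hA']
    rfl
  intro c d h
  have h0 : Q.mulVec (c - d) = 0 := by
    rw [Matrix.mulVec_sub, sub_eq_zero]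
    exact h
  have h1 : ∀ v : Fin r → F, v ⬝ᵥ (c - d) = 0 := by
    intro v
    obtain ⟨w, rfl⟩ := hsurj v
    rw [Matrix.mulVec_transpose, ← Matrix.dotProduct_mulVec, h0, dotProduct_zero]
  have h2 : c - d = 0 := by
    ext k
    have := h1 (Pi.single k 1)
    simpa using this
  exact sub_eq_zero.1 h2

end H563R4
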