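import Mathlib
import Pool.Agent.H563R4.Basic

/-!
Counting lemmas over a finite field.
-/

set_option autoImplicit false

open Matrix

namespace H563R4

variable {F : Type*} [Field F]

/-- geometric series estimate -/
theorem geom_bound (Z : ℕ) (c : ℕ → ℕ) (m : ℕ) (h : ∀ r, 1 ≤ r → r ≤ m → c r * 4 ^ r ≤ Z) :
    3 * ∑ r ∈ Finset.Icc 1 m, c r ≤ Z := by
  have key : ∀ m : ℕ, (∀ r, 1 ≤ r → r ≤ m → c r * 4 ^ r ≤ Z) →
      (3 * ∑ r ∈ Finset.Icc 1 m, c r) * 4 ^ m + Z ≤ Z * 4 ^ m := by
    intro m
    induction m with
    | zero => intro _; simp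
    | succ m ih =>
      intro hm
      have h1 := ih (fun r h1 h2 => hm r h1 (by omega))
      have h2 := hm (m + 1) (by omega) le_rfl
      rw [Finset.sum_Icc_succ_top (by omega)]
      have h3 : (3 * (∑ k ∈ Finset.Icc 1 m, c k + c (m + 1))) * 4 ^ (m + 1) =
        4 * ((3 * ∑ k ∈ Finset.Icc 1 m, c k) * 4 ^ m) + 3 * (c (m + 1) * 4 ^ (m + 1)) := by ring
      have h4 : Z * 4 ^ (m + 1) = 4 * (Z * 4 ^ m) := by ring
      rw [h3, h4]
      omega
  have h1 := key m h
  have h4 : 0 < 4 ^ m := by positivity
  have : (3 * ∑ r ∈ Finset.Icc 1 m, c r) * 4 ^ m ≤ Z * 4 ^ m := by omega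
  exact Nat.le_of_mul_le_mul_right this h4

section kernel

variable {g n : Type*} [Fintype g] [Fintype n] [DecidableEq g] [DecidableEq n] {r : ℕ}

/-- matrices `G` with `tr (Xᵀ G B) = 0` for all `B` in `S` -/
def kerG (X : Matrix g (Fin r) F) (S : Submodule F (Matrix n (Fin r) F)) :
    Submodule F (Matrix g n F) where
  carrier := {G | ∀ B ∈ S, trace (Xᵀ * (G * B)) = 0}
  add_mem' := by
    intro a b ha hb B hB
    rw [Matrix.add_mul, Matrix.mul_add, trace_add, ha B hB, hb B hB, add_zero]
  zero_mem' := by
    intro B _
    simp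
  smul_mem' := by
    intro c a ha B hB
    rw [Matrix.smul_mul, Matrix.mul_smul, trace_smul, ha B hB, smul_zero]

theorem finrank_kerG {X : Matrix g (Fin r) F} (hX : Function.Injective X.mulVec)
    (S : Submodule F (Matrix n (Fin r) F)) :
    Module.finrank F (kerG X S) + Module.finrank F S = Fintype.card g * Fintype.card n := by
  obtain ⟨Y, hY⟩ := exists_leftInv hX
  let θ : Matrix g n F →ₗ[F] Module.Dual F S :=
    { toFun := fun G =>
        { toFun := fun B => trace (Xᵀ * (G * (B : Matrix n (Fin r) F)))
          map_add' := by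
            intro a b
            simp [Matrix.mul_add]
          map_smul' := by
            intro c a
            simp }
      map_add' := by
        intro a b
        ext B
        simp [Matrix.add_mul, Matrix.mul_add]
      map_smul' := by
        intro c a
        ext B
        simp }
  have hsurj : Function.Surjective θ := by
    intro φ
    obtain ⟨φ', hφ'⟩ := φ.exists_extend
    obtain ⟨H, hH⟩ := exists_trace φ'
    refine ⟨Yᵀ * Hᵀ, ?_⟩
    ext B
    have h1 : φ B = φ' (B : Matrix n (Fin r) F) := by
      rw [← hφ']; rfl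
    rw [h1, hH]
    change trace (Xᵀ * (Yᵀ * Hᵀ * (B : Matrix n (Fin r) F))) = _
    rw [← Matrix.mul_assoc, ← Matrix.mul_assoc, ← Matrix.transpose_mul, hY,
      Matrix.transpose_one, Matrix.one_mul]
  have hker : LinearMap.ker θ = kerG X S := by
    ext G
    constructor
    · intro h B hB
      have := congrArg (fun f => f ⟨B, hB⟩) (LinearMap.mem_ker.1 h)
      exact this
    · intro h
      rw [LinearMap.mem_ker]
      ext B
      exact h B.1 B.2
  have h1 := θ.finrank_range_add_finrank_ker
  rw [hker, LinearMap.range_eq_top.2 hsurj, finrank_top, Subspace.dual_finrank_eq,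
    Module.finrank_matrix, Module.finrank_self, mul_one] at h1
  omega

end kernel

section finite

variable [Fintype F]

theorem card_pow (S : Type*) [AddCommGroup S] [Module F S] [Module.Finite F S] :
    Nat.card S = Fintype.card F ^ Module.finrank F S := by
  have : Finite S := Module.finite_of_finite F
  rw [Module.natCard_eq_pow_finrank (K := F), Nat.card_eq_fintype_card]

variable {g n y D : Type*} [Fintype g] [Fintype n] [Fintype y] [Fintype D] [DecidableEq g]
  [DecidableEq n] [DecidableEq y] [DecidableEq D]

open Classical in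
/-- **First counting lemma.**  `G : D → Matrix g n F` is bad if `∑ a, G a * B a`, `B a ∈ U`, does
not give all of `Matrix g y F`. -/
theorem count_one (U : Submodule F (Matrix n y F)) (t : ℕ) (ht : 2 ≤ t)
    (hU : ∀ r : ℕ, 1 ≤ r → ∀ Q : Matrix y (Fin r) F, Function.Injective Q.mulVec →
      (Fintype.card g + Fintype.card y + t) * r ≤
        Fintype.card D * Module.finrank F (U.map (mulRightLinearMap n F Q))) :
    3 * (Finset.univ.filter fun G : D → Matrix g n F => ¬ ∀ A : Matrix g y F,
      ∃ B : D → Matrix n y F, (∀ a, B a ∈ U) ∧ ∑ a, G a * B a = A).card ≤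
      Fintype.card F ^ (Fintype.card D * (Fintype.card g * Fintype.card n)) := by
  set q := Fintype.card F with hq
  have hq2 : 2 ≤ q := Fintype.one_lt_card
  let bad : Finset (D → Matrix g n F) := Finset.univ.filter fun G => ¬ ∀ A : Matrix g y F,
      ∃ B : D → Matrix n y F, (∀ a, B a ∈ U) ∧ ∑ a, G a * B a = A
  let c : ℕ → ℕ := fun r => (Finset.univ.filter fun G : D → Matrix g n F =>
    ∃ (X : Matrix g (Fin r) F) (Q : Matrix y (Fin r) F), Function.Injective X.mulVec ∧
      Function.Injective Q.mulVec ∧ ∀ a, G a ∈ kerG X (U.map (mulRightLinearMap n F Q))).card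
  -- every bad `G` is counted
  have h1 : bad.card ≤ ∑ r ∈ Finset.Icc 1 (Fintype.card y), c r := by
    refine le_trans (Finset.card_le_card (t := (Finset.Icc 1 (Fintype.card y)).biUnion fun r =>
      Finset.univ.filter fun G : D → Matrix g n F =>
    ∃ (X : Matrix g (Fin r) F) (Q : Matrix y (Fin r) F), Function.Injective X.mulVec ∧
      Function.Injective Q.mulVec ∧ ∀ a, G a ∈ kerG X (U.map (mulRightLinearMap n F Q))) ?_)
      Finset.card_biUnion_le
    intro G hG
    simp only [bad, Finset.mem_filter, Finset.mem_univ, true_and] at hG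
    let S : Submodule F (Matrix g y F) :=
      { carrier := {A | ∃ B : D → Matrix n y F, (∀ a, B a ∈ U) ∧ ∑ a, G a * B a = A}
        add_mem' := by
          rintro _ _ ⟨B, hB, rfl⟩ ⟨B', hB', rfl⟩
          refine ⟨fun a => B a + B' a, fun a => U.add_mem (hB a) (hB' a), ?_⟩
          simp [Matrix.mul_add, Finset.sum_add_distrib]
        zero_mem' := ⟨fun _ => 0, fun _ => U.zero_mem, by simp⟩
        smul_mem' := by
          rintro c _ ⟨B, hB, rfl⟩
          refine ⟨fun a => c • B a, fun a => U.smul_mem c (hB a), ?_⟩
          simp [Finset.smul_sum] }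
    have hS : S ≠ ⊤ := by
      intro h
      apply hG
      intro A
      have : A ∈ S := by rw [h]; trivial
      exact this
    obtain ⟨ψ, hψ0, hψ⟩ := exists_ne_zero_trace hS
    obtain ⟨r, X, Q, hr, hX, hQ, rfl⟩ := exists_rank_factorization hψ0
    have hry : r ≤ Fintype.card y := by
      have := LinearMap.finrank_le_finrank_of_injective (f := Q.mulVecLin) hQ
      simpa using this
    rw [Finset.mem_biUnion]
    refine ⟨r, Finset.mem_Icc.2 ⟨hr, hry⟩, ?_⟩
    simp only [Finset.mem_filter, Finset.mem_univ, true_and]
    refine ⟨X, Q, hX, hQ, fun a => ?_⟩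
    rintro _ ⟨B, hB, rfl⟩
    have h := hψ (G a * B) ⟨Pi.single a B, fun a' => ?_, ?_⟩
    · rw [Matrix.transpose_mul, Matrix.transpose_transpose, Matrix.mul_assoc,
        Matrix.trace_mul_comm] at h
      change trace (Xᵀ * (G a * (B * Q))) = 0
      rw [← h]
      simp only [Matrix.mul_assoc]
    · by_cases h : a' = a
      · subst h; simpa using hB
      · simp [Pi.single_eq_of_ne h]
    · rw [Finset.sum_eq_single a]
      · simp
      · intro b _ hb
        simp [Pi.single_eq_of_ne hb]
      · simp
  -- the number of `G` counted for a given `r`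
  have h2 : ∀ r, 1 ≤ r → r ≤ Fintype.card y →
      c r * 4 ^ r ≤ q ^ (Fintype.card D * (Fintype.card g * Fintype.card n)) := by
    intro r hr _
    set Z := q ^ (Fintype.card D * (Fintype.card g * Fintype.card n)) with hZ
    have h3 : ∀ XQ ∈ (Finset.univ.filter fun XQ : Matrix g (Fin r) F × Matrix y (Fin r) F =>
        Function.Injective XQ.1.mulVec ∧ Function.Injective XQ.2.mulVec),
        (Finset.univ.filter fun G : D → Matrix g n F => ∀ a, G a ∈ kerG XQ.1
        (U.map (mulRightLinearMap n F XQ.2))).card * q ^ ((Fintype.card g + Fintype.card y + t) * r)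
          ≤ Z := by
      rintro ⟨X, Q⟩ hXQ
      simp only [Finset.mem_filter, Finset.mem_univ, true_and] at hXQ
      obtain ⟨hX, hQ⟩ := hXQ
      have h4 : (Finset.univ.filter fun G : D → Matrix g n F => ∀ a, G a ∈ kerG X
        (U.map (mulRightLinearMap n F Q))).card =
        q ^ (Fintype.card D * Module.finrank F (kerG X (U.map (mulRightLinearMap n F Q)))) := by
        have h5 : (Finset.univ.filter fun G : D → Matrix g n F => ∀ a, G a ∈ kerG X
          (U.map (mulRightLinearMap n F Q))).card =
          Nat.card (D → kerG X (U.map (mulRightLinearMap n F Q))) := by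
          rw [← Fintype.card_subtype, ← Nat.card_eq_fintype_card]
          refine Nat.card_congr ⟨fun G a => ⟨G.1 a, G.2 a⟩, fun G => ⟨fun a => (G a).1,
            fun a => (G a).2⟩, fun G => rfl, fun G => rfl⟩
        rw [h5, Nat.card_fun, card_pow (F := F), ← pow_mul, Nat.card_eq_fintype_card, mul_comm]
      simp only
      rw [h4, ← pow_add, hZ]
      refine Nat.pow_le_pow_right (by omega) ?_
      have h6 := finrank_kerG hX (U.map (mulRightLinearMap n F Q))
      have h7 := hU r hr Q hQ
      have h8 : Fintype.card D * (Fintype.card g * Fintype.card n) =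
        Fintype.card D * Module.finrank F (kerG X (U.map (mulRightLinearMap n F Q))) +
        Fintype.card D * Module.finrank F (U.map (mulRightLinearMap n F Q)) := by
        rw [← h6, Nat.mul_add]
      omega
    have h9 : c r ≤ ∑ XQ ∈ (Finset.univ.filter fun XQ : Matrix g (Fin r) F × Matrix y (Fin r) F =>
        Function.Injective XQ.1.mulVec ∧ Function.Injective XQ.2.mulVec),
        (Finset.univ.filter fun G : D → Matrix g n F => ∀ a, G a ∈ kerG XQ.1
        (U.map (mulRightLinearMap n F XQ.2))).card := by
      refine le_trans (Finset.card_le_card (t := (Finset.univ.filter fun XQ :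
        Matrix g (Fin r) F × Matrix y (Fin r) F =>
        Function.Injective XQ.1.mulVec ∧ Function.Injective XQ.2.mulVec).biUnion fun XQ =>
        Finset.univ.filter fun G : D → Matrix g n F => ∀ a, G a ∈ kerG XQ.1
        (U.map (mulRightLinearMap n F XQ.2))) ?_) Finset.card_biUnion_le
      intro G hG
      simp only [Finset.mem_filter, Finset.mem_univ, true_and] at hG
      obtain ⟨X, Q, hX, hQ, h⟩ := hG
      rw [Finset.mem_biUnion]
      exact ⟨(X, Q), by simp [hX, hQ], by simpa using h⟩
    have h10 : c r * q ^ ((Fintype.card g + Fintype.card y + t) * r) ≤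
        q ^ ((Fintype.card g + Fintype.card y) * r) * Z := by
      refine le_trans (Nat.mul_le_mul_right _ h9) ?_
      rw [Finset.sum_mul]
      refine le_trans (Finset.sum_le_card_nsmul _ _ Z h3) ?_
      rw [smul_eq_mul]
      refine Nat.mul_le_mul_right _ ?_
      refine le_trans (Finset.card_le_univ _) ?_
      rw [Fintype.card_prod, ← Nat.card_eq_fintype_card, ← Nat.card_eq_fintype_card,
        card_pow (F := F), card_pow (F := F), ← pow_add]
      refine Nat.pow_le_pow_right (by omega) ?_
      rw [Module.finrank_matrix, Module.finrank_matrix, Module.finrank_self]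
      simp only [Fintype.card_fin]
      nlinarith
    have h11 : c r * q ^ (t * r) ≤ Z := by
      have h12 : (Fintype.card g + Fintype.card y + t) * r =
        (Fintype.card g + Fintype.card y) * r + t * r := by ring
      rw [h12, pow_add, ← mul_assoc, mul_right_comm, mul_comm (q ^ _) Z] at h10
      exact Nat.le_of_mul_le_mul_right h10 (by positivity)
    refine le_trans (Nat.mul_le_mul_left _ ?_) h11
    rw [mul_comm t r, pow_mul']
    calc 4 ^ r = (2 ^ 2) ^ r := by norm_num
      _ ≤ (q ^ 2) ^ r := Nat.pow_le_pow_left (Nat.pow_le_pow_left hq2 2) r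
      _ ≤ (q ^ t) ^ r := Nat.pow_le_pow_left (Nat.pow_le_pow_right (by omega) ht) r
  exact le_trans (Nat.mul_le_mul_left 3 h1) (geom_bound _ c _ h2)

/-- the block `a` of a matrix with columns indexed by `D × n` -/
def blk {z D n : Type*} (C : Matrix z (D × n) F) (a : D) : Matrix z n F :=
  fun i j => C i (a, j)

/-- the inverse of `blk` -/
def unblk {z D n : Type*} (C : D → Matrix z n F) : Matrix z (D × n) F :=
  fun i p => C p.1 i p.2

/-- blocks of a matrix with rows indexed by `D × n` -/
def rowBlk {D n k : Type*} (Q : Matrix (D × n) k F) (a : D) : Matrix n k F :=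
  fun i j => Q (a, i) j

omit [Fintype F] [DecidableEq n] [DecidableEq D] in
theorem trace_blk {z : Type*} [Fintype z] [DecidableEq z] (A C : Matrix z (D × n) F) :
    trace (Aᵀ * C) = ∑ a, trace ((blk A a)ᵀ * blk C a) := by
  simp only [trace, diag_apply, mul_apply, transpose_apply, blk]
  rw [Fintype.sum_prod_type]

/-- the matrices orthogonal to a subspace -/
def orth {m k : Type*} [Fintype m] [Fintype k] (S : Submodule F (Matrix m k F)) :
    Submodule F (Matrix k m F) where
  carrier := {Q | ∀ B ∈ S, trace (Q * B) = 0}
  add_mem' := by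
    intro a b ha hb B hB
    rw [Matrix.add_mul, trace_add, ha B hB, hb B hB, add_zero]
  zero_mem' := by
    intro B _
    simp
  smul_mem' := by
    intro c a ha B hB
    rw [Matrix.smul_mul, trace_smul, ha B hB, smul_zero]

omit [Fintype F] in
theorem finrank_orth {m k : Type*} [Fintype m] [Fintype k] [DecidableEq m] [DecidableEq k]
    (S : Submodule F (Matrix m k F)) :
    Module.finrank F (orth S) + Module.finrank F S = Fintype.card m * Fintype.card k := by
  let θ : Matrix k m F →ₗ[F] Module.Dual F S :=
    { toFun := fun Q =>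
        { toFun := fun B => trace (Q * (B : Matrix m k F))
          map_add' := by
            intro a b
            simp [Matrix.mul_add]
          map_smul' := by
            intro c a
            simp }
      map_add' := by
        intro a b
        ext B
        simp [Matrix.add_mul]
      map_smul' := by
        intro c a
        ext B
        simp }
  have hsurj : Function.Surjective θ := by
    intro φ
    obtain ⟨φ', hφ'⟩ := φ.exists_extend
    obtain ⟨H, hH⟩ := exists_trace φ'
    refine ⟨Hᵀ, ?_⟩
    ext B
    have h1 : φ B = φ' (B : Matrix m k F) := by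
      rw [← hφ']; rfl
    rw [h1, hH]
    rfl
  have hker : LinearMap.ker θ = orth S := by
    ext G
    constructor
    · intro h B hB
      have := congrArg (fun f => f ⟨B, hB⟩) (LinearMap.mem_ker.1 h)
      exact this
    · intro h
      rw [LinearMap.mem_ker]
      ext B
      exact h B.1 B.2
  have h1 := θ.finrank_range_add_finrank_ker
  rw [hker, LinearMap.range_eq_top.2 hsurj, finrank_top, Subspace.dual_finrank_eq,
    Module.finrank_matrix, Module.finrank_self, mul_one] at h1
  rw [mul_comm (Fintype.card m)]
  omega

open Classical in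
theorem card_annihilate {c : Type*} [Fintype c] [DecidableEq c] {r : ℕ}
    {Q : Matrix (D × n) (Fin r) F} (hQ : Function.Injective Q.mulVec) :
    (Finset.univ.filter fun G : D → Matrix c n F => ∑ a, G a * rowBlk Q a = 0).card *
      Fintype.card F ^ (Fintype.card c * r) =
      Fintype.card F ^ (Fintype.card D * (Fintype.card c * Fintype.card n)) := by
  let θ : (D → Matrix c n F) →ₗ[F] Matrix c (Fin r) F :=
    { toFun := fun G => ∑ a, G a * rowBlk Q a
      map_add' := by
        intro G G'
        simp [Matrix.add_mul, Finset.sum_add_distrib]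
      map_smul' := by
        intro k G
        simp [Finset.smul_sum] }
  obtain ⟨Y, hY⟩ := exists_leftInv hQ
  have hsurj : Function.Surjective θ := by
    intro M
    refine ⟨fun a => blk (M * Y) a, ?_⟩
    change ∑ a, blk (M * Y) a * rowBlk Q a = M
    have : ∑ a, blk (M * Y) a * rowBlk Q a = M * Y * Q := by
      ext i j
      rw [Matrix.sum_apply, Matrix.mul_apply, Fintype.sum_prod_type]
      rfl
    rw [this, Matrix.mul_assoc, hY, Matrix.mul_one]
  have h1 := θ.finrank_range_add_finrank_ker
  rw [LinearMap.range_eq_top.2 hsurj, finrank_top, Module.finrank_pi_fintype,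
    Module.finrank_matrix, Module.finrank_self, Finset.sum_const, Module.finrank_matrix,
    Module.finrank_self, Finset.card_univ, smul_eq_mul, Fintype.card_fin] at h1
  have h2 : (Finset.univ.filter fun G : D → Matrix c n F => ∑ a, G a * rowBlk Q a = 0).card =
      Fintype.card F ^ Module.finrank F (LinearMap.ker θ) := by
    rw [← card_pow, ← Fintype.card_subtype, ← Nat.card_eq_fintype_card]
    rfl
  rw [h2, ← pow_add]
  congr 1
  simp only [mul_one] at h1
  omega

open Classical in
/-- **Second counting lemma.**  `G : D → Matrix c n F` is bad if not every family `C a` of matrices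
is of the form `C₀ a + X * G a` with `C₀ a ∈ W`. -/
theorem count_two {z c : Type*} [Fintype z] [DecidableEq z] [Fintype c] [DecidableEq c]
    (W : Submodule F (Matrix z n F)) (t : ℕ) (ht : 2 ≤ t)
    (hW : ∀ r : ℕ, 1 ≤ r → ∀ X : Matrix z (Fin r) F, Function.Injective X.mulVec →
      (Fintype.card z + Fintype.card D * Fintype.card n + t) * r ≤
        Fintype.card D * Module.finrank F (W.map (mulLeftLinearMap n F Xᵀ)) +
          Fintype.card c * r) :
    3 * (Finset.univ.filter fun G : D → Matrix c n F => ¬ ∀ C : D → Matrix z n F,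
      ∃ (C₀ : D → Matrix z n F) (X : Matrix z c F), (∀ a, C₀ a ∈ W) ∧
        ∀ a, C a = C₀ a + X * G a).card ≤
      Fintype.card F ^ (Fintype.card D * (Fintype.card c * Fintype.card n)) := by
  set q := Fintype.card F with hq
  have hq2 : 2 ≤ q := Fintype.one_lt_card
  let bad : Finset (D → Matrix c n F) := Finset.univ.filter fun G => ¬ ∀ C : D → Matrix z n F,
      ∃ (C₀ : D → Matrix z n F) (X : Matrix z c F), (∀ a, C₀ a ∈ W) ∧
        ∀ a, C a = C₀ a + X * G a
  -- the admissible pairs for `r`
  let P : (r : ℕ) → Finset (Matrix z (Fin r) F × (D → Matrix n (Fin r) F)) := fun r =>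
    Finset.univ.filter fun XQ => Function.Injective XQ.1.mulVec ∧
      Function.Injective (Matrix.mulVec (fun (p : D × n) k => XQ.2 p.1 p.2 k)) ∧
      ∀ a, ∀ B ∈ W.map (mulLeftLinearMap n F XQ.1ᵀ), trace (XQ.2 a * B) = 0
  let N : (r : ℕ) → (D → Matrix n (Fin r) F) → Finset (D → Matrix c n F) := fun r Q =>
    Finset.univ.filter fun G => ∑ a, G a * Q a = 0
  let d : ℕ → ℕ := fun r => ((P r).biUnion fun XQ => N r XQ.2).card
  have h1 : bad.card ≤ ∑ r ∈ Finset.Icc 1 (Fintype.card z), d r := by
    refine le_trans (Finset.card_le_card (t := (Finset.Icc 1 (Fintype.card z)).biUnion fun r =>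
      (P r).biUnion fun XQ => N r XQ.2) ?_) Finset.card_biUnion_le
    intro G hG
    simp only [bad, Finset.mem_filter, Finset.mem_univ, true_and] at hG
    let S : Submodule F (Matrix z (D × n) F) :=
      { carrier := {C | ∃ (C₀ : D → Matrix z n F) (X : Matrix z c F), (∀ a, C₀ a ∈ W) ∧
          ∀ a, blk C a = C₀ a + X * G a}
        add_mem' := by
          rintro C C' ⟨C₀, X, hC, h⟩ ⟨C₀', X', hC', h'⟩
          refine ⟨fun a => C₀ a + C₀' a, X + X', fun a => W.add_mem (hC a) (hC' a), fun a => ?_⟩
          have : blk (C + C') a = blk C a + blk C' a := rfl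
          rw [this, h, h', Matrix.add_mul]
          exact add_add_add_comm _ _ _ _
        zero_mem' := ⟨fun _ => 0, 0, fun _ => W.zero_mem, fun a => by
          rw [Matrix.zero_mul, add_zero]; rfl⟩
        smul_mem' := by
          rintro k C ⟨C₀, X, hC, h⟩
          refine ⟨fun a => k • C₀ a, k • X, fun a => W.smul_mem k (hC a), fun a => ?_⟩
          have : blk (k • C) a = k • blk C a := rfl
          rw [this, h, smul_add, Matrix.smul_mul] }
    have hS : S ≠ ⊤ := by
      intro h
      apply hG
      intro C
      have : unblk C ∈ S := by rw [h]; trivial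
      obtain ⟨C₀, X, h1, h2⟩ := this
      exact ⟨C₀, X, h1, h2⟩
    obtain ⟨ψ, hψ0, hψ⟩ := exists_ne_zero_trace hS
    obtain ⟨r, X, Q, hr, hX, hQ, rfl⟩ := exists_rank_factorization hψ0
    have hrz : r ≤ Fintype.card z := by
      have := LinearMap.finrank_le_finrank_of_injective (f := X.mulVecLin) hX
      simpa using this
    have hblk : ∀ a, blk (X * Qᵀ) a = X * (rowBlk Q a)ᵀ := fun a => rfl
    rw [Finset.mem_biUnion]
    refine ⟨r, Finset.mem_Icc.2 ⟨hr, hrz⟩, ?_⟩
    rw [Finset.mem_biUnion]
    refine ⟨(X, fun a => rowBlk Q a), ?_, ?_⟩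
    · simp only [P, Finset.mem_filter, Finset.mem_univ, true_and]
      refine ⟨hX, hQ, fun a => ?_⟩
      rintro _ ⟨B, hB, rfl⟩
      have h := hψ (unblk fun a' => if a' = a then B else 0)
        ⟨fun a' => if a' = a then B else 0, 0, fun a' => ?_, fun a' => ?_⟩
      · rw [trace_blk, Finset.sum_eq_single a] at h
        · have h2 : blk (unblk fun a' => if a' = a then B else 0) a = B := by
            ext i j; simp [blk, unblk]
          rw [h2, hblk, Matrix.transpose_mul, Matrix.transpose_transpose, Matrix.mul_assoc] at h
          exact h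
        · intro b _ hb
          have h2 : blk (unblk fun a' => if a' = a then B else 0) b = 0 := by
            ext i j; simp [blk, unblk, hb]
          rw [h2, Matrix.mul_zero, trace_zero]
        · simp
      · by_cases h : a' = a
        · simp only [h, if_true]
          exact hB
        · simp [h]
      · rw [Matrix.zero_mul, add_zero]
        rfl
    · simp only [N, Finset.mem_filter, Finset.mem_univ, true_and]
      -- for all `Y`, `tr (...) = 0`
      have h3 : ∀ Y : Matrix z c F, trace (Yᵀ * (X * (∑ a, G a * rowBlk Q a)ᵀ)) = 0 := by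
        intro Y
        have h := hψ (unblk fun a => Y * G a) ⟨fun _ => 0, Y, fun _ => W.zero_mem, fun a => by
          rw [zero_add]; rfl⟩
        rw [trace_blk] at h
        rw [← h, Matrix.transpose_sum, Matrix.mul_sum, Matrix.mul_sum, trace_sum]
        refine Finset.sum_congr rfl fun a _ => ?_
        rw [hblk]
        have h2 : blk (unblk fun a => Y * G a) a = Y * G a := rfl
        rw [h2, ← trace_transpose]
        simp only [Matrix.transpose_mul, Matrix.transpose_transpose, Matrix.mul_assoc]
        rw [trace_mul_comm]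
        simp only [Matrix.mul_assoc]
      have h4 : X * (∑ a, G a * rowBlk Q a)ᵀ = 0 := by
        refine eq_zero_of_trace fun Y => ?_
        rw [← trace_transpose, Matrix.transpose_mul, Matrix.transpose_transpose]
        exact h3 Y
      obtain ⟨Y, hY⟩ := exists_leftInv hX
      have h5 := congrArg (fun M => Y * M) h4
      simp only [← Matrix.mul_assoc, hY, Matrix.one_mul, Matrix.mul_zero] at h5
      rw [← Matrix.transpose_eq_zero]
      exact h5
  have h2 : ∀ r, 1 ≤ r → r ≤ Fintype.card z →
      d r * 4 ^ r ≤ q ^ (Fintype.card D * (Fintype.card c * Fintype.card n)) := by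
    intro r hr _
    set Z := q ^ (Fintype.card D * (Fintype.card c * Fintype.card n)) with hZ
    have h3 : d r * q ^ (Fintype.card c * r) ≤ (P r).card * Z := by
      refine le_trans (Nat.mul_le_mul_right _ Finset.card_biUnion_le) ?_
      rw [Finset.sum_mul]
      refine le_trans (Finset.sum_le_card_nsmul _ _ Z ?_) (by rw [smul_eq_mul])
      rintro ⟨X, Q⟩ hXQ
      simp only [P, Finset.mem_filter, Finset.mem_univ, true_and] at hXQ
      have := card_annihilate (c := c) (Q := fun p k => Q p.1 p.2 k) hXQ.2.1
      exact this.le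
    have h4 : (P r).card * q ^ ((Fintype.card z + t) * r) ≤
        q ^ (Fintype.card z * r) * q ^ (Fintype.card c * r) := by
      have h5 : P r ⊆ (Finset.univ.filter fun X : Matrix z (Fin r) F =>
          Function.Injective X.mulVec).biUnion fun X =>
          (Finset.univ.filter fun Q : D → Matrix n (Fin r) F =>
            ∀ a, Q a ∈ orth (W.map (mulLeftLinearMap n F Xᵀ))).image fun Q => (X, Q) := by
        rintro ⟨X, Q⟩ hXQ
        simp only [P, Finset.mem_filter, Finset.mem_univ, true_and] at hXQ
        rw [Finset.mem_biUnion]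
        refine ⟨X, by simpa using hXQ.1, ?_⟩
        rw [Finset.mem_image]
        refine ⟨Q, ?_, rfl⟩
        simp only [Finset.mem_filter, Finset.mem_univ, true_and]
        exact hXQ.2.2
      have h6 : (P r).card ≤ ∑ X ∈ (Finset.univ.filter fun X : Matrix z (Fin r) F =>
          Function.Injective X.mulVec), (Finset.univ.filter fun Q : D → Matrix n (Fin r) F =>
            ∀ a, Q a ∈ orth (W.map (mulLeftLinearMap n F Xᵀ))).card :=
        le_trans (Finset.card_le_card h5) (le_trans Finset.card_biUnion_le
          (Finset.sum_le_sum fun X _ => Finset.card_image_le))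
      refine le_trans (Nat.mul_le_mul_right _ h6) ?_
      rw [Finset.sum_mul]
      refine le_trans (Finset.sum_le_card_nsmul _ _ (q ^ (Fintype.card c * r)) ?_) ?_
      · intro X hX
        simp only [Finset.mem_filter, Finset.mem_univ, true_and] at hX
        have h7 : (Finset.univ.filter fun Q : D → Matrix n (Fin r) F =>
            ∀ a, Q a ∈ orth (W.map (mulLeftLinearMap n F Xᵀ))).card =
            q ^ (Fintype.card D * Module.finrank F
              (orth (W.map (mulLeftLinearMap n F Xᵀ)))) := by
          have h5 : (Finset.univ.filter fun Q : D → Matrix n (Fin r) F =>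
            ∀ a, Q a ∈ orth (W.map (mulLeftLinearMap n F Xᵀ))).card =
            Nat.card (D → orth (W.map (mulLeftLinearMap n F Xᵀ))) := by
            rw [← Fintype.card_subtype, ← Nat.card_eq_fintype_card]
            refine Nat.card_congr ⟨fun G a => ⟨G.1 a, G.2 a⟩, fun G => ⟨fun a => (G a).1,
              fun a => (G a).2⟩, fun G => rfl, fun G => rfl⟩
          rw [h5, Nat.card_fun, card_pow (F := F), ← pow_mul, Nat.card_eq_fintype_card, mul_comm]
        rw [h7, ← pow_add]
        refine Nat.pow_le_pow_right (by omega) ?_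
        have h8 := finrank_orth (W.map (mulLeftLinearMap n F Xᵀ))
        have h9 := hW r hr X hX
        have h10 : Fintype.card D * (Fintype.card (Fin r) * Fintype.card n) =
          Fintype.card D * Module.finrank F (orth (W.map (mulLeftLinearMap n F Xᵀ))) +
          Fintype.card D * Module.finrank F (W.map (mulLeftLinearMap n F Xᵀ)) := by
          rw [← h8, Nat.mul_add]
        rw [Fintype.card_fin] at h10
        have h11 : (Fintype.card z + Fintype.card D * Fintype.card n + t) * r =
          (Fintype.card z + t) * r + Fintype.card D * (r * Fintype.card n) := by ring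
        omega
      · rw [smul_eq_mul]
        refine Nat.mul_le_mul_right _ ?_
        refine le_trans (Finset.card_le_univ _) ?_
        rw [← Nat.card_eq_fintype_card, card_pow (F := F), Module.finrank_matrix,
          Module.finrank_self, Fintype.card_fin, mul_one]
    have h12 : (P r).card * q ^ (t * r) ≤ q ^ (Fintype.card c * r) := by
      have h13 : (Fintype.card z + t) * r = Fintype.card z * r + t * r := by ring
      rw [h13, pow_add, mul_left_comm] at h4
      exact Nat.le_of_mul_le_mul_left h4 (by positivity)
    have h14 : d r * q ^ (t * r) ≤ Z := by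
      have h15 : q ^ (Fintype.card c * r) * (d r * q ^ (t * r)) ≤ q ^ (Fintype.card c * r) * Z :=
        calc q ^ (Fintype.card c * r) * (d r * q ^ (t * r)) =
            (d r * q ^ (Fintype.card c * r)) * q ^ (t * r) := by ring
          _ ≤ ((P r).card * Z) * q ^ (t * r) := Nat.mul_le_mul_right _ h3
          _ = ((P r).card * q ^ (t * r)) * Z := by ring
          _ ≤ q ^ (Fintype.card c * r) * Z := Nat.mul_le_mul_right _ h12
      exact Nat.le_of_mul_le_mul_left h15 (by positivity)
    refine le_trans (Nat.mul_le_mul_left _ ?_) h14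
    rw [mul_comm t r, pow_mul']
    calc 4 ^ r = (2 ^ 2) ^ r := by norm_num
      _ ≤ (q ^ 2) ^ r := Nat.pow_le_pow_left (Nat.pow_le_pow_left hq2 2) r
      _ ≤ (q ^ t) ^ r := Nat.pow_le_pow_left (Nat.pow_le_pow_right (by omega) ht) r
  exact le_trans (Nat.mul_le_mul_left 3 h1) (geom_bound _ d _ h2)

end finite

end H563R4
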