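import Mathlib
import Pool.Agent.H563R4.Count

/-!
Selection of a good pair of subspaces.
-/

set_option autoImplicit false

open Matrix Module

namespace H563R4

variable {F : Type*} [Field F]

/-- matrices all of whose rows lie in `Y` -/
def rowsIn (m : ℕ) {n : ℕ} (Y : Submodule F (Fin n → F)) : Submodule F (Matrix (Fin m) (Fin n) F) where
  carrier := {A | ∀ i, A i ∈ Y}
  add_mem' := fun ha hb i => Y.add_mem (ha i) (hb i)
  zero_mem' := fun _ => Y.zero_mem
  smul_mem' := fun c _ ha i => Y.smul_mem c (ha i)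

/-- the dimension of the space of matrices in `U` with rows in `Y` -/
noncomputable def dimIn {m n : ℕ} (U : Submodule F (Matrix (Fin m) (Fin n) F))
    (Y : Submodule F (Fin n → F)) : ℕ := finrank F (U ⊓ rowsIn m Y : Submodule F _)

theorem rowsIn_inf {m n : ℕ} (Y Y' : Submodule F (Fin n → F)) :
    rowsIn m (Y ⊓ Y') = rowsIn m Y ⊓ rowsIn m Y' := by
  ext A
  constructor
  · intro h
    exact ⟨fun i => (h i).1, fun i => (h i).2⟩
  · intro h i
    exact ⟨h.1 i, h.2 i⟩

theorem rowsIn_mono {m n : ℕ} {Y Y' : Submodule F (Fin n → F)} (h : Y ≤ Y') :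
    rowsIn m Y ≤ rowsIn m Y' := fun _ hA i => h (hA i)

theorem dimIn_super {m n : ℕ} (U : Submodule F (Matrix (Fin m) (Fin n) F))
    (Y Y' : Submodule F (Fin n → F)) :
    dimIn U Y + dimIn U Y' ≤ dimIn U (Y ⊔ Y') + dimIn U (Y ⊓ Y') := by
  unfold dimIn
  rw [← Submodule.finrank_sup_add_finrank_inf_eq]
  refine add_le_add (Submodule.finrank_mono ?_) (Submodule.finrank_mono ?_)
  · exact sup_le (inf_le_inf_left _ (rowsIn_mono le_sup_left))
      (inf_le_inf_left _ (rowsIn_mono le_sup_right))
  · rw [rowsIn_inf]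
    exact le_inf (inf_le_left.trans inf_le_left)
      (le_inf (inf_le_left.trans inf_le_right) (inf_le_right.trans inf_le_right))

/-- a matrix whose rows form a basis of `Y` -/
noncomputable def bm {n : ℕ} (Y : Submodule F (Fin n → F)) :
    Matrix (Fin (finrank F Y)) (Fin n) F := fun i j => (finBasis F Y i : Fin n → F) j

theorem vecMul_bm {n : ℕ} (Y : Submodule F (Fin n → F)) (x : Fin (finrank F Y) → F) :
    x ᵥ* bm Y = ((∑ k, x k • finBasis F Y k : Y) : Fin n → F) := by
  ext j
  simp [Matrix.vecMul, dotProduct, bm]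

theorem vecMul_bm_mem {n : ℕ} (Y : Submodule F (Fin n → F)) (x : Fin (finrank F Y) → F) :
    x ᵥ* bm Y ∈ Y := by
  rw [vecMul_bm]
  exact (∑ k, x k • finBasis F Y k : Y).2

theorem exists_vecMul_bm {n : ℕ} {Y : Submodule F (Fin n → F)} {v : Fin n → F} (hv : v ∈ Y) :
    ∃ x, x ᵥ* bm Y = v := by
  refine ⟨fun k => (finBasis F Y).repr ⟨v, hv⟩ k, ?_⟩
  rw [vecMul_bm, (finBasis F Y).sum_repr]

theorem bm_injective {n : ℕ} (Y : Submodule F (Fin n → F)) :
    Function.Injective ((bm Y)ᵀ).mulVec := by
  intro x x' h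
  rw [Matrix.mulVec_transpose, Matrix.mulVec_transpose, vecMul_bm, vecMul_bm] at h
  have h' : (∑ k, x k • finBasis F Y k : Y) = ∑ k, x' k • finBasis F Y k := Subtype.ext h
  have := congrArg (finBasis F Y).repr h'
  ext k
  have := congrArg (fun f => f k) this
  simpa [Finsupp.single_apply] using this

theorem exists_bm_inv {n : ℕ} (Y : Submodule F (Fin n → F)) :
    ∃ R : Matrix (Fin n) (Fin (finrank F Y)) F, bm Y * R = 1 := by
  obtain ⟨R, hR⟩ := exists_leftInv (bm_injective Y)
  refine ⟨Rᵀ, ?_⟩
  rw [← Matrix.transpose_transpose (bm Y), ← Matrix.transpose_mul, hR, Matrix.transpose_one]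

theorem mem_rowsIn_iff {m n : ℕ} {Y : Submodule F (Fin n → F)} {A : Matrix (Fin m) (Fin n) F} :
    A ∈ rowsIn m Y ↔ ∃ A' : Matrix (Fin m) (Fin (finrank F Y)) F, A' * bm Y = A := by
  constructor
  · intro h
    choose x hx using fun i => exists_vecMul_bm (h i)
    refine ⟨fun i => x i, ?_⟩
    ext i j
    have := congrFun (hx i) j
    exact this
  · rintro ⟨A', rfl⟩ i
    exact vecMul_bm_mem Y (A' i)

/-- the space of coefficient matrices -/
noncomputable def coef {m n : ℕ} (U : Submodule F (Matrix (Fin m) (Fin n) F))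
    (Y : Submodule F (Fin n → F)) : Submodule F (Matrix (Fin m) (Fin (finrank F Y)) F) :=
  U.comap (mulRightLinearMap (Fin m) F (bm Y))

theorem mulRight_bm_injective {m n : ℕ} (Y : Submodule F (Fin n → F)) :
    Function.Injective (mulRightLinearMap (Fin m) F (bm Y)) := by
  obtain ⟨R, hR⟩ := exists_bm_inv Y
  intro A B h
  have h' : A * bm Y = B * bm Y := h
  calc A = A * (bm Y * R) := by rw [hR, Matrix.mul_one]
    _ = B * (bm Y * R) := by rw [← Matrix.mul_assoc, h', Matrix.mul_assoc]
    _ = B := by rw [hR, Matrix.mul_one]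

theorem finrank_coef {m n : ℕ} (U : Submodule F (Matrix (Fin m) (Fin n) F))
    (Y : Submodule F (Fin n → F)) : finrank F (coef U Y) = dimIn U Y := by
  have h : (coef U Y).map (mulRightLinearMap (Fin m) F (bm Y)) = U ⊓ rowsIn m Y := by
    ext A
    constructor
    · rintro ⟨A', hA', rfl⟩
      exact ⟨hA', mem_rowsIn_iff.2 ⟨A', rfl⟩⟩
    · rintro ⟨h1, h2⟩
      obtain ⟨A', rfl⟩ := mem_rowsIn_iff.1 h2
      exact ⟨A', h1, rfl⟩
  unfold dimIn
  rw [← h]
  exact (Submodule.equivMapOfInjective _ (mulRight_bm_injective Y) _).finrank_eq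

/-- the slope inequality gives lower bounds for the dimension of quotients -/
theorem slope {m n : ℕ} (U : Submodule F (Matrix (Fin m) (Fin n) F))
    (Y : Submodule F (Fin n → F)) (N a : ℕ)
    (hY : ∀ Y' : Submodule F (Fin n → F), N * dimIn U Y' + a * finrank F Y ≤
      N * dimIn U Y + a * finrank F Y') (r : ℕ)
    (Q : Matrix (Fin (finrank F Y)) (Fin r) F) (hQ : Function.Injective Q.mulVec) :
    a * r ≤ N * finrank F ((coef U Y).map (mulRightLinearMap (Fin m) F Q)) := by
  -- the subspace of `Y`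
  let K : Submodule F (Fin (finrank F Y) → F) := LinearMap.ker (Matrix.vecMulLinear Q)
  let Y' : Submodule F (Fin n → F) := K.map (Matrix.vecMulLinear (bm Y))
  have hK : finrank F K + r = finrank F Y := by
    have h1 := (Matrix.vecMulLinear Q).finrank_range_add_finrank_ker
    obtain ⟨R, hR⟩ := exists_leftInv hQ
    have h2 : LinearMap.range (Matrix.vecMulLinear Q) = ⊤ := by
      rw [LinearMap.range_eq_top]
      intro v
      refine ⟨v ᵥ* R, ?_⟩
      rw [Matrix.vecMulLinear_apply, Matrix.vecMul_vecMul, hR, Matrix.vecMul_one]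
    rw [h2, finrank_top] at h1
    simp only [Module.finrank_fin_fun] at h1
    have h3 : finrank F K = finrank F (LinearMap.ker (Matrix.vecMulLinear Q)) := rfl
    omega
  have hY' : finrank F Y' ≤ finrank F K := Submodule.finrank_map_le _ _
  have h1 := hY Y'
  -- rank nullity
  let f : coef U Y →ₗ[F] Matrix (Fin m) (Fin r) F :=
    (mulRightLinearMap (Fin m) F Q).domRestrict (coef U Y)
  have h2 := f.finrank_range_add_finrank_ker
  have h3 : LinearMap.range f = (coef U Y).map (mulRightLinearMap (Fin m) F Q) := by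
    rw [LinearMap.range_domRestrict]
  have h4 : finrank F (LinearMap.ker f) ≤ dimIn U Y' := by
    let ι : LinearMap.ker f →ₗ[F] (U ⊓ rowsIn m Y' : Submodule F _) :=
      ((mulRightLinearMap (Fin m) F (bm Y)) ∘ₗ (coef U Y).subtype ∘ₗ
        (LinearMap.ker f).subtype).codRestrict _ (by
          rintro ⟨⟨A, hA⟩, hAf⟩
          refine ⟨hA, fun i => ?_⟩
          refine ⟨A i, ?_, rfl⟩
          have h5 : A * Q = 0 := hAf
          have h6 : A i ᵥ* Q = 0 := by
            ext j
            exact congrFun (congrFun h5 i) j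
          exact h6)
    refine LinearMap.finrank_le_finrank_of_injective (f := ι) ?_
    intro A B h
    have h5 := congrArg Subtype.val h
    apply Subtype.ext
    apply Subtype.ext
    exact mulRight_bm_injective Y h5
  rw [h3, finrank_coef] at h2
  have h5 : N * dimIn U Y = N * finrank F ((coef U Y).map (mulRightLinearMap (Fin m) F Q)) +
      N * finrank F (LinearMap.ker f) := by rw [← h2, Nat.mul_add]
  have h6 : N * finrank F (LinearMap.ker f) ≤ N * dimIn U Y' := Nat.mul_le_mul_left _ h4
  have h7 : a * finrank F Y' + a * r ≤ a * finrank F Y := by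
    rw [← Nat.mul_add]
    exact Nat.mul_le_mul_left _ (by omega)
  omega

/-- existence of a maximiser of the slope function -/
theorem exists_max {m n : ℕ} (U : Submodule F (Matrix (Fin m) (Fin n) F)) (N a : ℕ) :
    ∃ Y : Submodule F (Fin n → F), ∀ Y' : Submodule F (Fin n → F),
      N * dimIn U Y' + a * finrank F Y ≤ N * dimIn U Y + a * finrank F Y' := by
  have hb : ∀ Y, N * dimIn U Y ≤ N * (m * n) := by
    intro Y
    refine Nat.mul_le_mul_left _ ?_
    refine (Submodule.finrank_le _).trans ?_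
    rw [Module.finrank_matrix, Module.finrank_self]
    simp
  let g : Submodule F (Fin n → F) → ℕ := fun Y => N * (m * n) + a * finrank F Y - N * dimIn U Y
  obtain ⟨Y, hY⟩ : ∃ Y, ∀ Y', g Y ≤ g Y' := ⟨Function.argmin g, fun Y' => Function.argmin_le g Y'⟩
  refine ⟨Y, fun Y' => ?_⟩
  have h1 := hY Y'
  simp only [g] at h1
  have h2 := hb Y'
  have h3 := hb Y
  omega

/-- maximisers are nested -/
theorem max_nested {m n : ℕ} {U : Submodule F (Matrix (Fin m) (Fin n) F)} {N a a' : ℕ}
    (haa : a < a') {Y Y' : Submodule F (Fin n → F)}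
    (hY : ∀ L : Submodule F (Fin n → F),
      N * dimIn U L + a * finrank F Y ≤ N * dimIn U Y + a * finrank F L)
    (hY' : ∀ L : Submodule F (Fin n → F),
      N * dimIn U L + a' * finrank F Y' ≤ N * dimIn U Y' + a' * finrank F L) : Y' ≤ Y := by
  by_contra hne
  have h1 := hY (Y ⊔ Y')
  have h2 := hY' (Y ⊓ Y')
  have h3 := dimIn_super U Y Y'
  have h4 := Submodule.finrank_sup_add_finrank_inf_eq Y Y'
  have h5 : finrank F (Y ⊓ Y' : Submodule F _) < finrank F Y' := by
    refine Submodule.finrank_lt_finrank_of_lt ?_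
    refine lt_of_le_of_ne inf_le_right fun h => hne ?_
    rw [← h]
    exact inf_le_left
  have h6 : N * (dimIn U Y + dimIn U Y') ≤ N * (dimIn U (Y ⊔ Y') + dimIn U (Y ⊓ Y')) :=
    Nat.mul_le_mul_left _ h3
  have h7 : a * (finrank F (Y ⊔ Y' : Submodule F _) + finrank F (Y ⊓ Y' : Submodule F _)) =
    a * (finrank F Y + finrank F Y') := by rw [h4]
  have h8 : a * (finrank F Y' - finrank F (Y ⊓ Y' : Submodule F _)) <
      a' * (finrank F Y' - finrank F (Y ⊓ Y' : Submodule F _)) := by
    refine Nat.mul_lt_mul_of_pos_right haa (by omega)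
  rw [Nat.mul_sub, Nat.mul_sub] at h8
  have h9 : a * finrank F (Y ⊓ Y' : Submodule F _) ≤ a * finrank F Y' :=
    Nat.mul_le_mul_left _ h5.le
  have h10 : a' * finrank F (Y ⊓ Y' : Submodule F _) ≤ a' * finrank F Y' :=
    Nat.mul_le_mul_left _ h5.le
  simp only [Nat.mul_add] at h6 h7
  omega

theorem dimIn_le {m n : ℕ} (U : Submodule F (Matrix (Fin m) (Fin n) F))
    (Y : Submodule F (Fin n → F)) : dimIn U Y ≤ m * finrank F Y := by
  rw [← finrank_coef]
  refine (Submodule.finrank_le _).trans ?_
  rw [Module.finrank_matrix, Module.finrank_self]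
  simp

theorem dimIn_top {m n : ℕ} (U : Submodule F (Matrix (Fin m) (Fin n) F)) :
    dimIn U ⊤ = finrank F U := by
  unfold dimIn
  have : (rowsIn m (⊤ : Submodule F (Fin n → F))) = ⊤ := by
    ext A
    exact ⟨fun _ => trivial, fun _ i => trivial⟩
  rw [this, inf_top_eq]

/-- the chain of maximisers, with thresholds `(N + 1 - i) n` -/
noncomputable def chain {n : ℕ} (U : Submodule F (Matrix (Fin n) (Fin n) F)) (N i : ℕ) :
    Submodule F (Fin n → F) := (exists_max U N ((N + 1 - i) * n)).choose

theorem chain_spec {n : ℕ} (U : Submodule F (Matrix (Fin n) (Fin n) F)) (N i : ℕ)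
    (Y' : Submodule F (Fin n → F)) :
    N * dimIn U Y' + (N + 1 - i) * n * finrank F (chain U N i) ≤
      N * dimIn U (chain U N i) + (N + 1 - i) * n * finrank F Y' :=
  (exists_max U N ((N + 1 - i) * n)).choose_spec Y'

theorem chain_mono {n : ℕ} (hn : 0 < n) (U : Submodule F (Matrix (Fin n) (Fin n) F)) (N : ℕ)
    {i j : ℕ} (hij : i < j) (hj : j ≤ N) : chain U N i ≤ chain U N j := by
  refine max_nested (a := (N + 1 - j) * n) (a' := (N + 1 - i) * n) ?_ (chain_spec U N j)
    (chain_spec U N i)
  exact Nat.mul_lt_mul_of_pos_right (by omega) hn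

/-- upper bound for the dimension in terms of the chain -/
theorem dim_le_chain {n : ℕ} (U : Submodule F (Matrix (Fin n) (Fin n) F)) (N : ℕ)
    (hN : 2 ≤ N) :
    N * finrank F U ≤ 2 * n * n + n * ∑ i ∈ Finset.Ico 1 N, finrank F (chain U N i) := by
  have key : ∀ m, 1 ≤ m → m ≤ N - 1 → N * dimIn U (chain U N m) ≤
      n * ((N + 2 - m) * finrank F (chain U N m) +
        ∑ i ∈ Finset.Ico 1 m, finrank F (chain U N i)) := by
    intro m hm
    induction m, hm using Nat.le_induction with
    | base =>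
      intro _
      have := dimIn_le U (chain U N 1)
      simp only [Finset.Ico_self, Finset.sum_empty, add_zero]
      calc N * dimIn U (chain U N 1) ≤ N * (n * finrank F (chain U N 1)) :=
            Nat.mul_le_mul_left _ this
        _ ≤ (N + 2 - 1) * (n * finrank F (chain U N 1)) := Nat.mul_le_mul_right _ (by omega)
        _ = _ := by ring
    | succ m hm ih =>
      intro hmN
      have ih' := ih (by omega)
      have h1 := chain_spec U N m (chain U N (m + 1))
      rw [Finset.sum_Ico_succ_top hm]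
      have h2 : N + 2 - m = (N + 1 - m) + 1 := by omega
      have h3 : N + 2 - (m + 1) = N + 1 - m := by omega
      rw [h2] at ih'
      rw [h3]
      nlinarith
  have h1 := key (N - 1) (by omega) le_rfl
  have h2 := chain_spec U N (N - 1) ⊤
  rw [dimIn_top, finrank_top, Module.finrank_fin_fun] at h2
  have h3 : N + 1 - (N - 1) = 2 := by omega
  have h4 : N + 2 - (N - 1) = 3 := by omega
  rw [h4] at h1
  rw [h3] at h2
  have h5 : ∑ i ∈ Finset.Ico 1 N, finrank F (chain U N i) =
      ∑ i ∈ Finset.Ico 1 (N - 1), finrank F (chain U N i) + finrank F (chain U N (N - 1)) := by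
    have : N = (N - 1) + 1 := by omega
    conv_lhs => rw [this]
    rw [Finset.sum_Ico_succ_top (by omega)]
    have h6 : N - 1 + 1 = N := by omega
    rw [h6]
  rw [h5]
  nlinarith

end H563R4
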