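import Mathlib
import Pool.Agent.H563R4.Select

/-!
The middle factor, and the selection theorem.
-/

set_option autoImplicit false

open Matrix Module

namespace H563R4

variable {F : Type*} [Field F]

/-- matrices which vanish as bilinear forms on `Y × Z` -/
noncomputable def ann {n : ℕ} (Y Z : Submodule F (Fin n → F)) :
    Submodule F (Matrix (Fin n) (Fin n) F) :=
  LinearMap.ker ((mulLeftLinearMap _ F (bm Y)) ∘ₗ (mulRightLinearMap (Fin n) F (bm Z)ᵀ))

theorem mem_ann {n : ℕ} {Y Z : Submodule F (Fin n → F)} {B : Matrix (Fin n) (Fin n) F} :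
    B ∈ ann Y Z ↔ bm Y * (B * (bm Z)ᵀ) = 0 := Iff.rfl

/-- matrices with columns in `Y` and rows in `Z` -/
noncomputable def tens {n : ℕ} (Y Z : Submodule F (Fin n → F)) :
    Submodule F (Matrix (Fin n) (Fin n) F) where
  carrier := {M | (∀ i, Mᵀ i ∈ Y) ∧ ∀ i, M i ∈ Z}
  add_mem' := fun ha hb => ⟨fun i => Y.add_mem (ha.1 i) (hb.1 i), fun i => Z.add_mem (ha.2 i) (hb.2 i)⟩
  zero_mem' := ⟨fun _ => Y.zero_mem, fun _ => Z.zero_mem⟩
  smul_mem' := fun c _ ha => ⟨fun i => Y.smul_mem c (ha.1 i), fun i => Z.smul_mem c (ha.2 i)⟩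

theorem mem_tens_iff {n : ℕ} {Y Z : Submodule F (Fin n → F)} {M : Matrix (Fin n) (Fin n) F} :
    M ∈ tens Y Z ↔ ∃ M' : Matrix (Fin (finrank F Y)) (Fin (finrank F Z)) F,
      (bm Y)ᵀ * M' * bm Z = M := by
  constructor
  · rintro ⟨h1, h2⟩
    obtain ⟨A, hA⟩ := (mem_rowsIn_iff (m := n) (A := Mᵀ)).1 h1
    obtain ⟨B, hB⟩ := (mem_rowsIn_iff (m := n) (A := M)).1 h2
    obtain ⟨R, hR⟩ := exists_bm_inv Y
    -- `M = (bm Y)ᵀ Aᵀ = B * bm Z`
    have h3 : M = (bm Y)ᵀ * Aᵀ := by
      rw [← Matrix.transpose_mul, hA, Matrix.transpose_transpose]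
    have h4 : Rᵀ * (bm Y)ᵀ = 1 := by
      rw [← Matrix.transpose_mul, hR, Matrix.transpose_one]
    refine ⟨Rᵀ * B, ?_⟩
    rw [Matrix.mul_assoc, Matrix.mul_assoc, hB]
    conv_lhs => rw [h3]
    rw [← Matrix.mul_assoc Rᵀ, h4, Matrix.one_mul, ← h3]
  · rintro ⟨M', rfl⟩
    refine ⟨?_, ?_⟩
    · rw [show ((bm Y)ᵀ * M' * bm Z)ᵀ = ((bm Z)ᵀ * M'ᵀ) * bm Y by
        simp [Matrix.transpose_mul, Matrix.mul_assoc]]
      exact mem_rowsIn_iff.2 ⟨_, rfl⟩
    · exact mem_rowsIn_iff.2 ⟨_, rfl⟩

theorem finrank_tens {n : ℕ} (Y Z : Submodule F (Fin n → F)) :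
    finrank F (tens Y Z) = finrank F Y * finrank F Z := by
  obtain ⟨R, hR⟩ := exists_bm_inv Y
  obtain ⟨S, hS⟩ := exists_bm_inv Z
  let f : Matrix (Fin (finrank F Y)) (Fin (finrank F Z)) F →ₗ[F] Matrix (Fin n) (Fin n) F :=
    (mulRightLinearMap _ F (bm Z)) ∘ₗ (mulLeftLinearMap _ F (bm Y)ᵀ)
  have hf : Function.Injective f := by
    intro A B h
    have h' : (bm Y)ᵀ * A * bm Z = (bm Y)ᵀ * B * bm Z := h
    have h2 : Rᵀ * (bm Y)ᵀ = 1 := by
      rw [← Matrix.transpose_mul, hR, Matrix.transpose_one]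
    have h3 : ∀ C : Matrix (Fin (finrank F Y)) (Fin (finrank F Z)) F, Rᵀ * ((bm Y)ᵀ * C * bm Z) * S = C := by
      intro C
      calc Rᵀ * ((bm Y)ᵀ * C * bm Z) * S = (Rᵀ * (bm Y)ᵀ) * C * (bm Z * S) := by
            simp only [Matrix.mul_assoc]
        _ = C := by rw [h2, hS, Matrix.one_mul, Matrix.mul_one]
    rw [← h3 A, h', h3 B]
  have h1 : tens Y Z = LinearMap.range f := by
    ext M
    rw [mem_tens_iff]
    rfl
  rw [h1, LinearMap.finrank_range_of_inj hf, Module.finrank_matrix, Module.finrank_self]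
  simp

theorem trace_ann_tens {n : ℕ} {Y Z : Submodule F (Fin n → F)} {B M : Matrix (Fin n) (Fin n) F}
    (hB : B ∈ ann Y Z) (hM : M ∈ tens Y Z) : trace (Bᵀ * M) = 0 := by
  obtain ⟨M', rfl⟩ := mem_tens_iff.1 hM
  have h1 : trace (Bᵀ * ((bm Y)ᵀ * M' * bm Z)) = trace ((bm Y * (B * (bm Z)ᵀ))ᵀ * M') := by
    rw [← Matrix.mul_assoc, ← Matrix.mul_assoc, trace_mul_comm]
    simp only [Matrix.transpose_mul, Matrix.transpose_transpose, Matrix.mul_assoc]
  rw [h1, mem_ann.1 hB]
  simp

/-- columns in `Y` -/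
def colsIn {n : ℕ} (Y : Submodule F (Fin n → F)) : Submodule F (Matrix (Fin n) (Fin n) F) where
  carrier := {M | ∀ i, Mᵀ i ∈ Y}
  add_mem' := fun ha hb i => Y.add_mem (ha i) (hb i)
  zero_mem' := fun _ => Y.zero_mem
  smul_mem' := fun c _ ha i => Y.smul_mem c (ha i)

section chains

variable {n : ℕ} (Y Z : ℕ → Submodule F (Fin n → F))

/-- sums of tensor products along two chains -/
noncomputable def sumTens : ℕ → Submodule F (Matrix (Fin n) (Fin n) F)
  | 0 => ⊥
  | m + 1 => sumTens m ⊔ tens (Y (m + 1)) (Z (m + 1))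

/-- intersection of annihilators along two chains -/
noncomputable def infAnn : ℕ → Submodule F (Matrix (Fin n) (Fin n) F)
  | 0 => ⊤
  | m + 1 => infAnn m ⊓ ann (Y (m + 1)) (Z (m + 1))

theorem finrank_infAnn (m : ℕ) :
    finrank F (infAnn Y Z m) + finrank F (sumTens Y Z m) ≤ n * n := by
  have h1 : ∀ m, ∀ B ∈ infAnn Y Z m, ∀ M ∈ sumTens Y Z m, trace (Bᵀ * M) = 0 := by
    intro m
    induction m with
    | zero =>
      intro B _ M hM
      have : M = 0 := hM
      rw [this]; simp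
    | succ m ih =>
      rintro B ⟨hB1, hB2⟩ M hM
      obtain ⟨M1, hM1, M2, hM2, rfl⟩ := Submodule.mem_sup.1 hM
      rw [Matrix.mul_add, trace_add, ih B hB1 M1 hM1, trace_ann_tens hB2 hM2, add_zero]
  have h2 := finrank_orth (sumTens Y Z m)
  have h3 : finrank F (infAnn Y Z m) ≤ finrank F (orth (sumTens Y Z m)) := by
    let f : infAnn Y Z m →ₗ[F] orth (sumTens Y Z m) :=
      ((Matrix.transposeLinearEquiv (Fin n) (Fin n) F F).toLinearMap ∘ₗ
        (infAnn Y Z m).subtype).codRestrict _ (fun B M hM => h1 m B.1 B.2 M hM)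
    refine LinearMap.finrank_le_finrank_of_injective (f := f) ?_
    intro A B h
    have h4 := congrArg Subtype.val h
    exact Subtype.ext (Matrix.transpose_injective h4)
  simp only [Fintype.card_fin] at h2
  omega

theorem le_finrank_sumTens (m : ℕ) (hY : ∀ i < m, Y i ≤ Y (i + 1))
    (hZ : ∀ i < m, 1 ≤ i → Z (i + 1) ≤ Z i) :
    ∑ i ∈ Finset.range m, (finrank F (Y (i + 1)) - finrank F (Y i)) * finrank F (Z (i + 1)) ≤
      finrank F (sumTens Y Z m) := by
  have hcol : ∀ k, k ≤ m → sumTens Y Z k ≤ colsIn (Y k) := by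
    intro k
    induction k with
    | zero => intro _; exact bot_le
    | succ k ih =>
      intro hk
      refine sup_le ((ih (by omega)).trans fun M hM i => hY k (by omega) (hM i)) ?_
      intro M hM
      exact hM.1
  induction m with
  | zero => simp
  | succ m ih =>
    have ih' := ih (fun i hi => hY i (by omega)) (fun i hi => hZ i (by omega))
      (fun k hk => hcol k (by omega))
    rw [Finset.sum_range_succ]
    have h1 := Submodule.finrank_sup_add_finrank_inf_eq (sumTens Y Z m) (tens (Y (m + 1)) (Z (m + 1)))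
    have h2 : finrank F (sumTens Y Z m ⊓ tens (Y (m + 1)) (Z (m + 1)) : Submodule F _) ≤
        finrank F (Y m) * finrank F (Z (m + 1)) := by
      rw [← finrank_tens]
      refine Submodule.finrank_mono ?_
      rintro M ⟨hM1, hM2⟩
      exact ⟨hcol m (by omega) hM1, hM2.2⟩
    rw [finrank_tens] at h1
    have h3 : sumTens Y Z (m + 1) = sumTens Y Z m ⊔ tens (Y (m + 1)) (Z (m + 1)) := rfl
    rw [h3]
    have h4 : finrank F (Y m) * finrank F (Z (m + 1)) ≤
        finrank F (Y (m + 1)) * finrank F (Z (m + 1)) :=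
      Nat.mul_le_mul_right _ (Submodule.finrank_mono (hY m (by omega)))
    rw [Nat.sub_mul]
    omega

end chains

/-- the combinatorial inequality -/
theorem comb (n N : ℕ) (y z : ℕ → ℕ) (hy0 : y 0 = 0) (hyn : ∀ i, y i ≤ n) (hzn : ∀ i, z i ≤ n)
    (m : ℕ) (hm : m ≤ N) (hy : ∀ i < m, y i ≤ y (i + 1)) (hz : ∀ i < m, 1 ≤ i → z (i + 1) ≤ z i) :
    m * (n * n) + (N - m) * ∑ i ∈ Finset.range m, (y (i + 1) - y i) * z (i + 1) ≤
      ∑ i ∈ Finset.range m, (N * ((y (i + 1) - y i) * z (i + 1)) + n * (n - y (i + 1)) +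
        n * (n - z (i + 1))) ∧
    (1 ≤ m → y m * z m ≤ ∑ i ∈ Finset.range m, (y (i + 1) - y i) * z (i + 1)) := by
  induction m with
  | zero => simp
  | succ m ih =>
    obtain ⟨ih1, ih2⟩ := ih (by omega) (fun i hi => hy i (by omega)) (fun i hi => hz i (by omega))
    have hym := hy m (by omega)
    have h1 : y m * z (m + 1) ≤ ∑ i ∈ Finset.range m, (y (i + 1) - y i) * z (i + 1) := by
      rcases Nat.eq_zero_or_pos m with rfl | hm0
      · simp [hy0]
      · exact (Nat.mul_le_mul_left _ (hz m (by omega) hm0)).trans (ih2 hm0)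
    rw [Finset.sum_range_succ, Finset.sum_range_succ]
    set E := ∑ i ∈ Finset.range m, (y (i + 1) - y i) * z (i + 1) with hE
    set S := ∑ i ∈ Finset.range m, (N * ((y (i + 1) - y i) * z (i + 1)) + n * (n - y (i + 1)) +
        n * (n - z (i + 1))) with hS
    have h2 : (y (m + 1) - y m) * z (m + 1) + y m * z (m + 1) = y (m + 1) * z (m + 1) := by
      rw [← Nat.add_mul]
      congr 1
      omega
    refine ⟨?_, fun _ => by omega⟩
    obtain ⟨a, ha⟩ : ∃ a, n = y (m + 1) + a := ⟨n - y (m + 1), by have := hyn (m + 1); omega⟩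
    obtain ⟨b, hb⟩ : ∃ b, n = z (m + 1) + b := ⟨n - z (m + 1), by have := hzn (m + 1); omega⟩
    have ha' : n - y (m + 1) = a := by omega
    have hb' : n - z (m + 1) = b := by omega
    rw [ha', hb']
    obtain ⟨k, hk⟩ : ∃ k, N = k + (m + 1) := ⟨N - (m + 1), by omega⟩
    have hk1 : N - m = k + 1 := by omega
    have hk2 : N - (m + 1) = k := by omega
    rw [hk1] at ih1
    rw [hk2]
    set e := (y (m + 1) - y m) * z (m + 1) with he
    -- `n * n ≤ e + E + n * a + n * b`
    have h3 : n * n ≤ y (m + 1) * z (m + 1) + n * a + n * b := by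
      have : y (m + 1) * z (m + 1) + n * a + n * b = n * n + a * b := by
        have e1 : (n : ℤ) = y (m + 1) + a := by exact_mod_cast ha
        have e2 : (n : ℤ) = z (m + 1) + b := by exact_mod_cast hb
        have : ((y (m + 1) * z (m + 1) + n * a + n * b : ℕ) : ℤ) = ((n * n + a * b : ℕ) : ℤ) := by
          push_cast
          have e3 : (y (m + 1) : ℤ) = n - a := by linarith
          have e4 : (z (m + 1) : ℤ) = n - b := by linarith
          rw [e3, e4]
          ring
        exact_mod_cast this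
      omega
    have h4 : N * e = k * e + (m + 1) * e := by rw [hk]; ring
    have h5 : e ≤ (m + 1) * e := Nat.le_mul_of_pos_left _ (by omega)
    nlinarith

theorem chain_zero {n : ℕ} (hn : 0 < n) (U : Submodule F (Matrix (Fin n) (Fin n) F)) (N : ℕ) :
    finrank F (chain U N 0) = 0 := by
  have h1 := chain_spec U N 0 ⊥
  have h2 := dimIn_le U (chain U N 0)
  rw [finrank_bot, mul_zero, add_zero] at h1
  by_contra h
  have h3 : 0 < finrank F (chain U N 0) := Nat.pos_of_ne_zero h
  have h4 : N * dimIn U (chain U N 0) ≤ N * (n * finrank F (chain U N 0)) :=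
    Nat.mul_le_mul_left _ h2
  have h5 : (N + 1 - 0) * n * finrank F (chain U N 0) =
    N * (n * finrank F (chain U N 0)) + n * finrank F (chain U N 0) := by
    rw [Nat.sub_zero]; ring
  have h6 : 0 < n * finrank F (chain U N 0) := Nat.mul_pos hn h3
  omega

/-- **Selection theorem.** -/
theorem selection {n : ℕ} (hn : 0 < n) (U V W : Submodule F (Matrix (Fin n) (Fin n) F))
    (N h : ℕ) (hN : 2 ≤ N) (hh : 1 ≤ h)
    (hdim : (2 * N + 3) * (n * n) + N * ((N - 1) * (h - 1)) <
      N * (finrank F U + finrank F V + finrank F W)) :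
    ∃ (i : ℕ) (Y Z : Submodule F (Fin n → F)), 1 ≤ i ∧ i < N ∧
      (∀ Y' : Submodule F (Fin n → F), N * dimIn U Y' + (N + 1 - i) * n * finrank F Y ≤
        N * dimIn U Y + (N + 1 - i) * n * finrank F Y') ∧
      (∀ Z' : Submodule F (Fin n → F), N * dimIn W Z' + (i + 1) * n * finrank F Z ≤
        N * dimIn W Z + (i + 1) * n * finrank F Z') ∧
      h + finrank F (V ⊓ ann Y Z : Submodule F _) ≤ finrank F V := by
  let Y : ℕ → Submodule F (Fin n → F) := fun i => chain U N i
  let Z : ℕ → Submodule F (Fin n → F) := fun i => chain W N (N - i)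
  by_contra hcon
  -- no `i` works
  have h1 : ∀ i, 1 ≤ i → i < N → finrank F V + 1 ≤ h + finrank F (V ⊓ ann (Y i) (Z i) :
      Submodule F _) := by
    intro i hi hiN
    by_contra h2
    apply hcon
    refine ⟨i, Y i, Z i, hi, hiN, chain_spec U N i, fun Z' => ?_, by omega⟩
    have := chain_spec W N (N - i) Z'
    have h3 : N + 1 - (N - i) = i + 1 := by omega
    rw [h3] at this
    exact this
  have h2 : ∀ m, m < N → finrank F V ≤ m * (h - 1) +
      finrank F (V ⊓ infAnn Y Z m : Submodule F _) := by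
    intro m
    induction m with
    | zero =>
      intro _
      have : V ⊓ infAnn Y Z 0 = V := inf_top_eq V
      rw [this]; simp
    | succ m ih =>
      intro hm
      have ih' := ih (by omega)
      have h3 := h1 (m + 1) (by omega) hm
      have h4 := Submodule.finrank_sup_add_finrank_inf_eq (V ⊓ infAnn Y Z m)
        (V ⊓ ann (Y (m + 1)) (Z (m + 1)))
      have h5 : finrank F ((V ⊓ infAnn Y Z m) ⊔ (V ⊓ ann (Y (m + 1)) (Z (m + 1))) :
          Submodule F _) ≤ finrank F V :=
        Submodule.finrank_mono (sup_le inf_le_left inf_le_left)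
      have h6 : (V ⊓ infAnn Y Z m) ⊓ (V ⊓ ann (Y (m + 1)) (Z (m + 1))) =
          V ⊓ infAnn Y Z (m + 1) := by
        change _ = V ⊓ (infAnn Y Z m ⊓ ann (Y (m + 1)) (Z (m + 1)))
        rw [inf_inf_inf_comm, inf_idem]
      rw [h6] at h4
      have h7 : (m + 1) * (h - 1) = m * (h - 1) + (h - 1) := by ring
      omega
  have h3 := h2 (N - 1) (by omega)
  have h4 : finrank F (V ⊓ infAnn Y Z (N - 1) : Submodule F _) ≤ finrank F (infAnn Y Z (N - 1)) :=
    Submodule.finrank_mono inf_le_right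
  have h5 := finrank_infAnn Y Z (N - 1)
  have hYmono : ∀ i < N - 1, Y i ≤ Y (i + 1) := fun i hi =>
    chain_mono hn U N (Nat.lt_succ_self i) (by omega)
  have hZmono : ∀ i < N - 1, 1 ≤ i → Z (i + 1) ≤ Z i := fun i hi hi1 =>
    chain_mono hn W N (by omega) (by omega)
  have h6 := le_finrank_sumTens Y Z (N - 1) hYmono hZmono
  have hle : ∀ L : Submodule F (Fin n → F), finrank F L ≤ n := fun L => by
    have := Submodule.finrank_le L
    rwa [Module.finrank_fin_fun] at this
  have h7 := (comb n N (fun i => finrank F (Y i)) (fun i => finrank F (Z i))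
    (chain_zero hn U N) (fun i => hle _) (fun i => hle _) (N - 1) (by omega)
    (fun i hi => Submodule.finrank_mono (hYmono i hi))
    (fun i hi hi1 => Submodule.finrank_mono (hZmono i hi hi1))).1
  set E := ∑ i ∈ Finset.range (N - 1), (finrank F (Y (i + 1)) - finrank F (Y i)) *
    finrank F (Z (i + 1)) with hE
  -- dimension of `U` and `W`
  have h8 := dim_le_chain U N hN
  have h9 := dim_le_chain W N hN
  have h10 : ∑ i ∈ Finset.Ico 1 N, finrank F (chain U N i) =
      ∑ i ∈ Finset.range (N - 1), finrank F (Y (i + 1)) := by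
    rw [Finset.sum_Ico_eq_sum_range]
    refine Finset.sum_congr rfl fun i _ => ?_
    rw [add_comm]
  have h11 : ∑ i ∈ Finset.Ico 1 N, finrank F (chain W N i) =
      ∑ i ∈ Finset.range (N - 1), finrank F (Z (i + 1)) := by
    rw [Finset.sum_Ico_eq_sum_range, ← Finset.sum_range_reflect]
    refine Finset.sum_congr rfl fun i hi => ?_
    rw [Finset.mem_range] at hi
    have h13 : 1 + (N - 1 - 1 - i) = N - (i + 1) := by omega
    rw [h13]
  rw [h10] at h8
  rw [h11] at h9
  have h12 : ∑ i ∈ Finset.range (N - 1), (N * ((finrank F (Y (i + 1)) - finrank F (Y i)) *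
      finrank F (Z (i + 1))) + n * (n - finrank F (Y (i + 1))) +
        n * (n - finrank F (Z (i + 1)))) +
      (n * ∑ i ∈ Finset.range (N - 1), finrank F (Y (i + 1)) +
        n * ∑ i ∈ Finset.range (N - 1), finrank F (Z (i + 1))) =
      N * E + 2 * ((N - 1) * (n * n)) := by
    rw [hE, Finset.mul_sum, Finset.mul_sum, Finset.mul_sum, ← Finset.sum_add_distrib,
      ← Finset.sum_add_distrib]
    have h13 : 2 * ((N - 1) * (n * n)) = ∑ i ∈ Finset.range (N - 1), 2 * (n * n) := by
      rw [Finset.sum_const, Finset.card_range, smul_eq_mul]; ring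
    rw [h13, ← Finset.sum_add_distrib]
    refine Finset.sum_congr rfl fun i _ => ?_
    obtain ⟨a, ha⟩ : ∃ a, n = finrank F (Y (i + 1)) + a := ⟨n - finrank F (Y (i + 1)), by
      have := hle (Y (i + 1)); omega⟩
    obtain ⟨b, hb⟩ : ∃ b, n = finrank F (Z (i + 1)) + b := ⟨n - finrank F (Z (i + 1)), by
      have := hle (Z (i + 1)); omega⟩
    have ha' : n - finrank F (Y (i + 1)) = a := by omega
    have hb' : n - finrank F (Z (i + 1)) = b := by omega
    rw [ha', hb']
    have e1 : n * n = n * finrank F (Y (i + 1)) + n * a := by rw [← Nat.mul_add, ← ha]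
    have e2 : n * n = n * finrank F (Z (i + 1)) + n * b := by rw [← Nat.mul_add, ← hb]
    omega
  set SY := ∑ i ∈ Finset.range (N - 1), finrank F (Y (i + 1)) with hSY
  set SZ := ∑ i ∈ Finset.range (N - 1), finrank F (Z (i + 1)) with hSZ
  -- assemble
  have h14 : finrank F V + E ≤ (N - 1) * (h - 1) + n * n := by omega
  have h15 : N * (finrank F V + E) ≤ N * ((N - 1) * (h - 1) + n * n) := Nat.mul_le_mul_left _ h14
  have h16 : N * (finrank F U + finrank F V + finrank F W) =
    N * finrank F U + N * finrank F V + N * finrank F W := by ring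
  have h17 : (2 * N + 3) * (n * n) = N * (n * n) + (N - 1) * (n * n) + 4 * (n * n) := by
    obtain ⟨k, hk⟩ : ∃ k, N = k + 1 := ⟨N - 1, by omega⟩
    subst hk
    simp only [Nat.add_sub_cancel]
    ring
  have h18 : 2 * n * n = 2 * (n * n) := by ring
  rw [h16, h17] at hdim
  rw [h18] at h8 h9
  rw [Nat.mul_add, Nat.mul_add] at h15
  nlinarith

end H563R4
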