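import Mathlib
import Pool.Agent.H563R4.Select2

/-!
The core reduction over a finite field.
-/

set_option autoImplicit false

open Matrix Module

namespace H563R4

variable {F : Type*} [Field F]

/-- transposed subspace -/
def tr {m n : Type*} (W : Submodule F (Matrix m n F)) : Submodule F (Matrix n m F) :=
  W.comap (Matrix.transposeLinearEquiv n m F F).toLinearMap

theorem mem_tr {m n : Type*} {W : Submodule F (Matrix m n F)} {C : Matrix n m F} :
    C ∈ tr W ↔ Cᵀ ∈ W := Iff.rfl

theorem finrank_tr {m n : Type*} (W : Submodule F (Matrix m n F)) :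
    finrank F (tr W) = finrank F W := by
  have h : (tr W).map (Matrix.transposeLinearEquiv n m F F).toLinearMap = W := by
    ext C
    constructor
    · rintro ⟨C', hC', rfl⟩
      exact hC'
    · intro h
      exact ⟨Cᵀ, h, rfl⟩
  conv_rhs => rw [← h]
  exact (LinearEquiv.finrank_map_eq (Matrix.transposeLinearEquiv n m F F) (tr W)).symm

theorem tr_map_mulLeft {m n k : Type*} [Fintype m] (W : Submodule F (Matrix n m F))
    (X : Matrix m k F) :
    (tr W).map (mulLeftLinearMap n F Xᵀ) = tr (W.map (mulRightLinearMap n F X)) := by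
  ext C
  constructor
  · rintro ⟨C', hC', rfl⟩
    refine ⟨C'ᵀ, hC', ?_⟩
    change C'ᵀ * X = (Xᵀ * C')ᵀ
    rw [Matrix.transpose_mul, Matrix.transpose_transpose]
  · rintro ⟨C', hC', h⟩
    refine ⟨C'ᵀ, hC', ?_⟩
    have h' : C' * X = Cᵀ := h
    change Xᵀ * C'ᵀ = C
    rw [← Matrix.transpose_mul, h', Matrix.transpose_transpose]

section

variable [Fintype F] {n : ℕ}

/-- first goodness condition -/
def Good1 {D g m y : Type*} [Fintype D] [Fintype m] (U : Submodule F (Matrix m y F))
    (G : D → Matrix g m F) : Prop :=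
  ∀ A : Matrix g y F, ∃ B : D → Matrix m y F, (∀ a, B a ∈ U) ∧ ∑ a, G a * B a = A

/-- second goodness condition -/
def Good2 {D c m z : Type*} [Fintype c] (W : Submodule F (Matrix z m F))
    (G : D → Matrix c m F) : Prop :=
  ∀ C : D → Matrix z m F, ∃ (C₀ : D → Matrix z m F) (X : Matrix z c F), (∀ a, C₀ a ∈ W) ∧
        ∀ a, C a = C₀ a + X * G a

theorem count_one' {g m y D : Type*} [Fintype g] [Fintype m] [Fintype y] [Fintype D]
    [DecidableEq g] [DecidableEq m] [DecidableEq y] [DecidableEq D]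
    (U : Submodule F (Matrix m y F)) (t : ℕ) (ht : 2 ≤ t)
    (hU : ∀ r : ℕ, 1 ≤ r → ∀ Q : Matrix y (Fin r) F, Function.Injective Q.mulVec →
      (Fintype.card g + Fintype.card y + t) * r ≤
        Fintype.card D * Module.finrank F (U.map (mulRightLinearMap m F Q))) :
    3 * {G : D → Matrix g m F | ¬ Good1 U G}.ncard ≤
      Fintype.card F ^ (Fintype.card D * (Fintype.card g * Fintype.card m)) := by
  classical
  have h := count_one (g := g) (D := D) U t ht hU
  rw [Set.ncard_eq_toFinset_card']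
  convert h using 3
  ext G
  simp only [Set.mem_toFinset, Set.mem_ofPred_eq, Finset.mem_filter, Finset.mem_univ, true_and]
  rfl

theorem count_two' {z c m D : Type*} [Fintype z] [DecidableEq z] [Fintype c] [DecidableEq c]
    [Fintype m] [DecidableEq m] [Fintype D] [DecidableEq D]
    (W : Submodule F (Matrix z m F)) (t : ℕ) (ht : 2 ≤ t)
    (hW : ∀ r : ℕ, 1 ≤ r → ∀ X : Matrix z (Fin r) F, Function.Injective X.mulVec →
      (Fintype.card z + Fintype.card D * Fintype.card m + t) * r ≤
        Fintype.card D * Module.finrank F (W.map (mulLeftLinearMap m F Xᵀ)) +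
          Fintype.card c * r) :
    3 * {G : D → Matrix c m F | ¬ Good2 W G}.ncard ≤
      Fintype.card F ^ (Fintype.card D * (Fintype.card c * Fintype.card m)) := by
  classical
  have h := count_two (c := c) (D := D) W t ht hW
  rw [Set.ncard_eq_toFinset_card']
  convert h using 3
  ext G
  simp only [Set.mem_toFinset, Set.mem_ofPred_eq, Finset.mem_filter, Finset.mem_univ, true_and]
  rfl

/-- combining two counting bounds -/
theorem exists_of_counts {D g₁ g₂ m : Type*} [Fintype D] [Fintype g₁] [Fintype g₂] [Fintype m]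
    [DecidableEq D] [DecidableEq g₁] [DecidableEq g₂] [DecidableEq m]
    (P1 : (D → Matrix (g₁ ⊕ g₂) m F) → Prop) (P2 : (D → Matrix g₂ m F) → Prop)
    (h1' : 3 * {G | ¬ P1 G}.ncard ≤ Fintype.card F ^
      (Fintype.card D * (Fintype.card (g₁ ⊕ g₂) * Fintype.card m)))
    (h2' : 3 * {G | ¬ P2 G}.ncard ≤ Fintype.card F ^
      (Fintype.card D * (Fintype.card g₂ * Fintype.card m))) :
    ∃ G : D → Matrix (g₁ ⊕ g₂) m F, P1 G ∧ P2 (fun a => (G a).toRows₂) := by
  classical
  have h1 : 3 * (Finset.univ.filter fun G => ¬ P1 G).card ≤ Fintype.card F ^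
      (Fintype.card D * (Fintype.card (g₁ ⊕ g₂) * Fintype.card m)) := by
    rw [Set.ncard_eq_toFinset_card'] at h1'
    convert h1' using 3
    ext G; simp
  have h2 : 3 * (Finset.univ.filter fun G => ¬ P2 G).card ≤ Fintype.card F ^
      (Fintype.card D * (Fintype.card g₂ * Fintype.card m)) := by
    rw [Set.ncard_eq_toFinset_card'] at h2'
    convert h2' using 3
    ext G; simp
  by_contra hcon
  push Not at hcon
  have h3 : (Finset.univ : Finset (D → Matrix (g₁ ⊕ g₂) m F)) ⊆
      (Finset.univ.filter fun G => ¬ P1 G) ∪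
        (Finset.univ.filter fun G => ¬ P2 (fun a => (G a).toRows₂)) := by
    intro G _
    rw [Finset.mem_union]
    by_cases h : P1 G
    · right; simpa using hcon G h
    · left; simpa using h
  have h4 := (Finset.card_le_card h3).trans (Finset.card_union_le _ _)
  have h5 : (Finset.univ : Finset (D → Matrix (g₁ ⊕ g₂) m F)).card =
      Fintype.card F ^ (Fintype.card D * (Fintype.card (g₁ ⊕ g₂) * Fintype.card m)) := by
    rw [Finset.card_univ, ← Nat.card_eq_fintype_card, card_pow (F := F),
      Module.finrank_pi_fintype]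
    simp only [Module.finrank_matrix, Module.finrank_self, Finset.sum_const, Finset.card_univ,
      smul_eq_mul, mul_one]
  have h6 : (Finset.univ.filter fun G : D → Matrix (g₁ ⊕ g₂) m F =>
      ¬ P2 (fun a => (G a).toRows₂)).card ≤
      Fintype.card F ^ (Fintype.card D * (Fintype.card g₁ * Fintype.card m)) *
      (Finset.univ.filter fun G : D → Matrix g₂ m F => ¬ P2 G).card := by
    have h7 : (Finset.univ : Finset (D → Matrix g₁ m F)).card =
        Fintype.card F ^ (Fintype.card D * (Fintype.card g₁ * Fintype.card m)) := by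
      rw [Finset.card_univ, ← Nat.card_eq_fintype_card, card_pow (F := F),
        Module.finrank_pi_fintype]
      simp only [Module.finrank_matrix, Module.finrank_self, Finset.sum_const, Finset.card_univ,
        smul_eq_mul, mul_one]
    rw [← h7, ← Finset.card_product]
    refine Finset.card_le_card_of_injOn (fun G => (fun a => (G a).toRows₁,
      fun a => (G a).toRows₂)) ?_ ?_
    · intro G hG
      simp only [Finset.coe_filter, Finset.mem_univ, true_and, Set.mem_ofPred_eq] at hG
      simp only [Finset.coe_product, Set.mem_prod, Finset.coe_univ, Set.mem_univ, true_and,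
        Finset.coe_filter, Finset.mem_univ, Set.mem_ofPred_eq]
      exact hG
    · intro G _ G' _ h
      simp only [Prod.mk.injEq] at h
      funext a
      have h8 := congrFun h.1 a
      have h9 := congrFun h.2 a
      rw [← Matrix.fromRows_toRows (G a), ← Matrix.fromRows_toRows (G' a)]
      rw [h8, h9]
  have h10 : Fintype.card F ^ (Fintype.card D * (Fintype.card (g₁ ⊕ g₂) * Fintype.card m)) =
      Fintype.card F ^ (Fintype.card D * (Fintype.card g₁ * Fintype.card m)) *
      Fintype.card F ^ (Fintype.card D * (Fintype.card g₂ * Fintype.card m)) := by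
    rw [← pow_add, Fintype.card_sum]
    congr 1
    ring
  have h8 : 0 < Fintype.card F ^ (Fintype.card D * (Fintype.card (g₁ ⊕ g₂) * Fintype.card m)) :=
    Nat.pow_pos Fintype.card_pos
  rw [h5] at h4
  have key : ∀ (a b b' x y Z : ℕ), Z ≤ a + b → 3 * a ≤ Z → b ≤ x * b' → 3 * b' ≤ y →
      Z = x * y → 0 < Z → False := by
    intro a b b' x y Z h1 h2 h3 h4 h5 h6
    have : 3 * b ≤ x * y := by
      calc 3 * b ≤ 3 * (x * b') := Nat.mul_le_mul_left _ h3
        _ = x * (3 * b') := by ring
        _ ≤ x * y := Nat.mul_le_mul_left _ h4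
    omega
  exact key _ _ _ _ _ _ h4 h1 h6 h2 h10 h8

/-- choice of the random matrices -/
theorem exists_G (hn : 0 < n) (U W : Submodule F (Matrix (Fin n) (Fin n) F))
    (N i : ℕ) (hiN : i < N) (Y Z : Submodule F (Fin n → F))
    (hY : ∀ Y' : Submodule F (Fin n → F), N * dimIn U Y' + (N + 1 - i) * n * finrank F Y ≤
        N * dimIn U Y + (N + 1 - i) * n * finrank F Y')
    (hZ : ∀ Z' : Submodule F (Fin n → F), N * dimIn W Z' + (i + 1) * n * finrank F Z ≤
        N * dimIn W Z + (i + 1) * n * finrank F Z') :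
    ∃ (c : ℕ) (Gu : Fin (4 * N) → Matrix (Fin n) (Fin n) F)
      (Gl : Fin (4 * N) → Matrix (Fin c) (Fin n) F),
      (∀ (A : Matrix (Fin n) (Fin (finrank F Y)) F),
        ∃ B : Fin (4 * N) → Matrix (Fin n) (Fin (finrank F Y)) F, (∀ a, B a ∈ coef U Y) ∧
          ∑ a, Gu a * B a = A ∧ ∑ a, Gl a * B a = 0) ∧
      (∀ C : Fin (4 * N) → Matrix (Fin (finrank F Z)) (Fin n) F,
        ∃ (C₀ : Fin (4 * N) → Matrix (Fin (finrank F Z)) (Fin n) F)
          (X : Matrix (Fin (finrank F Z)) (Fin c) F),
          (∀ a, C₀ a ∈ tr (coef W Z)) ∧ ∀ a, C a = C₀ a + X * Gl a) := by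
  classical
  have hle : ∀ L : Submodule F (Fin n → F), finrank F L ≤ n := fun L => by
    have := Submodule.finrank_le L
    rwa [Module.finrank_fin_fun] at this
  obtain ⟨c, hc⟩ : ∃ c, c = 4 * (N - i) * n := ⟨_, rfl⟩
  have h1 := count_one' (g := Fin n ⊕ Fin c) (D := Fin (4 * N)) (coef U Y) 2 le_rfl
    (by
      intro r hr Q hQ
      have h2 := slope U Y N _ hY r Q hQ
      simp only [Fintype.card_sum, Fintype.card_fin]
      have h3 := hle Y
      have h4 : (n + c + finrank F Y + 2) ≤ 4 * ((N + 1 - i) * n) := by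
        have h5 : N + 1 - i = (N - i) + 1 := by omega
        rw [h5, hc]
        nlinarith
      calc (n + c + finrank F Y + 2) * r ≤ (4 * ((N + 1 - i) * n)) * r :=
            Nat.mul_le_mul_right _ h4
        _ = 4 * ((N + 1 - i) * n * r) := by ring
        _ ≤ 4 * (N * finrank F ((coef U Y).map (mulRightLinearMap (Fin n) F Q))) :=
            Nat.mul_le_mul_left _ h2
        _ = _ := by ring)
  have h2 := count_two' (c := Fin c) (D := Fin (4 * N)) (tr (coef W Z)) 2 le_rfl
    (by
      intro r hr Q hQ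
      have h2 := slope W Z N _ hZ r Q hQ
      rw [tr_map_mulLeft, finrank_tr]
      simp only [Fintype.card_fin]
      have h3 := hle Z
      have h4 : (finrank F Z + 4 * N * n + 2) ≤ 4 * ((i + 1) * n) + c := by
        obtain ⟨k, hk⟩ : ∃ k, N = i + k := ⟨N - i, by omega⟩
        have h5 : N - i = k := by omega
        rw [hc, h5, hk]
        nlinarith
      calc (finrank F Z + 4 * N * n + 2) * r ≤ (4 * ((i + 1) * n) + c) * r :=
            Nat.mul_le_mul_right _ h4
        _ = 4 * ((i + 1) * n * r) + c * r := by ring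
        _ ≤ 4 * (N * finrank F ((coef W Z).map (mulRightLinearMap (Fin n) F Q))) +
            c * r := Nat.add_le_add_right (Nat.mul_le_mul_left _ h2) _
        _ = _ := by ring)
  obtain ⟨G, hG1, hG2⟩ := exists_of_counts _ _ h1 h2
  refine ⟨c, fun a => (G a).toRows₁, fun a => (G a).toRows₂, ?_, hG2⟩
  intro A
  obtain ⟨B, hB, hBA⟩ := hG1 (Matrix.fromRows A 0)
  refine ⟨B, hB, ?_, ?_⟩
  · have := congrArg Matrix.toRows₁ hBA
    rw [Matrix.toRows₁_fromRows] at this
    rw [← this]
    ext i j
    simp [Matrix.sum_apply, Matrix.mul_apply, Matrix.toRows₁]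
  · have := congrArg Matrix.toRows₂ hBA
    rw [Matrix.toRows₂_fromRows] at this
    rw [← this]
    ext i j
    simp [Matrix.sum_apply, Matrix.mul_apply, Matrix.toRows₂]

omit [Fintype F] in
theorem lift_lin {A B P : Type*} [AddCommGroup A] [Module F A] [AddCommGroup B] [Module F B]
    [AddCommGroup P] [Module F P] (Φ : A →ₗ[F] B) (g : P →ₗ[F] B) (h : ∀ x, ∃ a, Φ a = g x) :
    ∃ f : P →ₗ[F] A, ∀ x, Φ (f x) = g x := by
  obtain ⟨f, hf⟩ := Module.projective_lifting_property Φ.rangeRestrict
    (g.codRestrict (LinearMap.range Φ) (fun x => by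
      obtain ⟨a, ha⟩ := h x
      exact ⟨a, ha⟩)) Φ.surjective_rangeRestrict
  refine ⟨f, fun x => ?_⟩
  have := congrArg (fun k => (k x : B)) hf
  exact this

/-- **Core reduction**: the product with a smaller middle factor is a sum of `4 N` restrictions. -/
theorem core (hn : 0 < n) (U V W : Submodule F (Matrix (Fin n) (Fin n) F))
    (N h : ℕ) (hN : 2 ≤ N) (hh : 1 ≤ h)
    (hdim : (2 * N + 3) * (n * n) + N * ((N - 1) * (h - 1)) <
      N * (finrank F U + finrank F V + finrank F W)) :
    ∃ (y z : ℕ) (E : Matrix (Fin y) (Fin n) F) (E' : Matrix (Fin n) (Fin z) F)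
      (α : Fin (4 * N) → Matrix (Fin n) (Fin y) F →ₗ[F] Matrix (Fin n) (Fin n) F)
      (γ : Fin (4 * N) → Matrix (Fin z) (Fin n) F →ₗ[F] Matrix (Fin n) (Fin n) F),
      y ≤ n ∧ z ≤ n ∧
      h ≤ finrank F (V.map ((mulLeftLinearMap _ F E) ∘ₗ (mulRightLinearMap (Fin n) F E'))) ∧
      (∀ t A, α t A ∈ U) ∧ (∀ t C, γ t C ∈ W) ∧
      ∀ (A : Matrix (Fin n) (Fin y) F) (B : Matrix (Fin n) (Fin n) F)
        (C : Matrix (Fin z) (Fin n) F),
        ∑ t, trace (α t A * B * γ t C) = trace (A * (E * B * E') * C) := by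
  have hdim' : (2 * N + 3) * (n * n) + N * ((N - 1) * (h - 1)) <
      N * (finrank F U + finrank F V + finrank F (tr W)) := by
    rw [finrank_tr]; exact hdim
  obtain ⟨i, Y, Z, hi, hiN, hY, hZ, hV⟩ := selection hn U V (tr W) N h hN hh hdim'
  obtain ⟨c, Gu, Gl, h1, h2⟩ := exists_G hn U (tr W) N i hiN Y Z hY hZ
  have hle : ∀ L : Submodule F (Fin n → F), finrank F L ≤ n := fun L => by
    have := Submodule.finrank_le L
    rwa [Module.finrank_fin_fun] at this
  -- linear section for `A`
  let Φ : (Fin (4 * N) → coef U Y) →ₗ[F]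
      Matrix (Fin n) (Fin (finrank F Y)) F × Matrix (Fin c) (Fin (finrank F Y)) F :=
    { toFun := fun B => (∑ a, Gu a * (B a : Matrix (Fin n) (Fin (finrank F Y)) F),
        ∑ a, Gl a * (B a : Matrix (Fin n) (Fin (finrank F Y)) F))
      map_add' := by
        intro B B'
        simp [Matrix.mul_add, Finset.sum_add_distrib]
      map_smul' := by
        intro k B
        simp [Finset.smul_sum] }
  obtain ⟨f, hf⟩ := lift_lin Φ (LinearMap.inl F (Matrix (Fin n) (Fin (finrank F Y)) F)
    (Matrix (Fin c) (Fin (finrank F Y)) F)) (by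
      intro A
      obtain ⟨B, hB, hB1, hB2⟩ := h1 A
      exact ⟨fun a => ⟨B a, hB a⟩, Prod.ext hB1 hB2⟩)
  have hf1 : ∀ A, ∑ a, Gu a * (f A a : Matrix (Fin n) (Fin (finrank F Y)) F) = A := fun A =>
    congrArg Prod.fst (hf A)
  have hf2 : ∀ A, ∑ a, Gl a * (f A a : Matrix (Fin n) (Fin (finrank F Y)) F) = 0 := fun A =>
    congrArg Prod.snd (hf A)
  -- linear section for `C`
  let Ψ : (Fin (4 * N) → tr (coef (tr W) Z)) × Matrix (Fin (finrank F Z)) (Fin c) F →ₗ[F]
      (Fin (4 * N) → Matrix (Fin (finrank F Z)) (Fin n) F) :=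
    { toFun := fun CX => fun a => (CX.1 a : Matrix (Fin (finrank F Z)) (Fin n) F) + CX.2 * Gl a
      map_add' := by
        intro B B'
        funext a
        simp only [Prod.fst_add, Prod.snd_add, Pi.add_apply, Submodule.coe_add, Matrix.add_mul]
        exact add_add_add_comm _ _ _ _
      map_smul' := by
        intro k B
        funext a
        simp }
  let ρ : Matrix (Fin (finrank F Z)) (Fin n) F →ₗ[F]
      (Fin (4 * N) → Matrix (Fin (finrank F Z)) (Fin n) F) :=
    LinearMap.pi fun a => mulRightLinearMap _ F (Gu a)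
  obtain ⟨g, hg⟩ := lift_lin Ψ ρ (by
      intro C
      obtain ⟨C₀, X, hC, hCX⟩ := h2 (ρ C)
      exact ⟨(fun a => ⟨C₀ a, hC a⟩, X), (funext fun a => (hCX a).symm)⟩)
  have hg1 : ∀ C a, ((g C).1 a : Matrix (Fin (finrank F Z)) (Fin n) F) =
      C * Gu a - (g C).2 * Gl a := by
    intro C a
    have : ((g C).1 a : Matrix (Fin (finrank F Z)) (Fin n) F) + (g C).2 * Gl a = C * Gu a :=
      congrFun (hg C) a
    rw [← this, add_sub_cancel_right]
  refine ⟨finrank F Y, finrank F Z, bm Y, (bm Z)ᵀ,
    fun t => (mulRightLinearMap _ F (bm Y)) ∘ₗ (coef U Y).subtype ∘ₗ (LinearMap.proj t) ∘ₗ f,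
    fun t => (mulLeftLinearMap _ F (bm Z)ᵀ) ∘ₗ (tr (coef (tr W) Z)).subtype ∘ₗ
      (LinearMap.proj t) ∘ₗ (LinearMap.fst F _ _) ∘ₗ g, hle Y, hle Z, ?_, ?_, ?_, ?_⟩
  · -- dimension
    let θ := ((mulLeftLinearMap (Fin (finrank F Z)) F (bm Y)) ∘ₗ
      (mulRightLinearMap (Fin n) F (bm Z)ᵀ))
    have h3 := (θ.domRestrict V).finrank_range_add_finrank_ker
    rw [LinearMap.range_domRestrict] at h3
    have h4 : finrank F (LinearMap.ker (θ.domRestrict V)) ≤
        finrank F (V ⊓ ann Y Z : Submodule F _) := by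
      let ι : LinearMap.ker (θ.domRestrict V) →ₗ[F] (V ⊓ ann Y Z : Submodule F _) :=
        (V.subtype ∘ₗ (LinearMap.ker (θ.domRestrict V)).subtype).codRestrict _
          (fun x => ⟨x.1.2, x.2⟩)
      refine LinearMap.finrank_le_finrank_of_injective (f := ι) ?_
      intro A B hAB
      have h5 := congrArg Subtype.val hAB
      exact Subtype.ext (Subtype.ext h5)
    have h5 : finrank F (V.map θ) = finrank F (V.map ((mulLeftLinearMap _ F (bm Y)) ∘ₗ
      (mulRightLinearMap (Fin n) F (bm Z)ᵀ))) := rfl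
    omega
  · intro t A
    exact (f A t).2
  · intro t C
    have h3 : ((g C).1 t : Matrix (Fin (finrank F Z)) (Fin n) F)ᵀ ∈ coef (tr W) Z :=
      ((g C).1 t).2
    have h4 : ((g C).1 t : Matrix (Fin (finrank F Z)) (Fin n) F)ᵀ * bm Z ∈ tr W := h3
    rw [mem_tr, Matrix.transpose_mul, Matrix.transpose_transpose] at h4
    exact h4
  · intro A B C
    change ∑ t, trace ((f A t : Matrix (Fin n) (Fin (finrank F Y)) F) * bm Y * B *
      ((bm Z)ᵀ * ((g C).1 t : Matrix (Fin (finrank F Z)) (Fin n) F))) = _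
    set M := bm Y * B * (bm Z)ᵀ with hM
    have h3 : ∀ t, trace ((f A t : Matrix (Fin n) (Fin (finrank F Y)) F) * bm Y * B *
      ((bm Z)ᵀ * ((g C).1 t : Matrix (Fin (finrank F Z)) (Fin n) F))) =
      trace (Gu t * (f A t : Matrix (Fin n) (Fin (finrank F Y)) F) * (M * C)) -
      trace (Gl t * (f A t : Matrix (Fin n) (Fin (finrank F Y)) F) * (M * (g C).2)) := by
      intro t
      rw [hg1, Matrix.mul_sub, Matrix.mul_sub, trace_sub]
      congr 1
      · rw [Matrix.mul_assoc (Gu t), trace_mul_comm (Gu t)]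
        simp only [hM, Matrix.mul_assoc]
      · rw [Matrix.mul_assoc (Gl t), trace_mul_comm (Gl t)]
        simp only [hM, Matrix.mul_assoc]
    rw [Finset.sum_congr rfl fun t _ => h3 t, Finset.sum_sub_distrib, ← trace_sum, ← trace_sum,
      ← Matrix.sum_mul, ← Matrix.sum_mul, hf1, hf2, Matrix.zero_mul, trace_zero, sub_zero,
      ← Matrix.mul_assoc]

end

end H563R4
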