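import Mathlib
import Pool.Agent.H563R4.Core

/-!
The main reduction over a finite field.
-/

set_option autoImplicit false

open Matrix Module

namespace H563R4

variable {F : Type*} [Field F]

theorem mulVec_comp_injective {a b c : Type*} [Fintype b] [Fintype c] {A : Matrix a b F}
    {B : Matrix b c F} (hA : Function.Injective A.mulVec) (hB : Function.Injective B.mulVec) :
    Function.Injective (A * B).mulVec := by
  intro v w h
  rw [← Matrix.mulVec_mulVec, ← Matrix.mulVec_mulVec] at h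
  exact hB (hA h)

/-- the inclusion of the first coordinates -/
def incl (z b : ℕ) (h : b ≤ z) : Matrix (Fin z) (Fin b) F :=
  fun i j => if i = Fin.castLE h j then 1 else 0

theorem incl_injective (z b : ℕ) (h : b ≤ z) :
    Function.Injective (incl z b h : Matrix (Fin z) (Fin b) F).mulVec := by
  have key : ∀ v : Fin b → F, ∀ j, (incl z b h : Matrix (Fin z) (Fin b) F).mulVec v
      (Fin.castLE h j) = v j := by
    intro v j
    simp only [Matrix.mulVec, dotProduct, incl]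
    rw [Finset.sum_eq_single j]
    · simp
    · intro k _ hk
      have : Fin.castLE h j ≠ Fin.castLE h k := fun h' => hk (Fin.castLE_injective h h').symm
      rw [if_neg this, zero_mul]
    · simp
  intro v w hvw
  ext j
  rw [← key v j, ← key w j, hvw]

theorem compress_one {y z : ℕ} (V : Submodule F (Matrix (Fin y) (Fin z) F)) (hV : V ≠ ⊥) :
    ∃ (G : Matrix (Fin 1) (Fin y) F) (H : Matrix (Fin z) (Fin 1) F),
      ∀ T : Matrix (Fin 1) (Fin 1) F, ∃ B ∈ V, G * B * H = T := by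
  obtain ⟨B, hB, hB0⟩ := Submodule.exists_mem_ne_zero_of_ne_bot hV
  obtain ⟨i, j, hij⟩ : ∃ i j, B i j ≠ 0 := by
    by_contra h
    push Not at h
    exact hB0 (Matrix.ext h)
  refine ⟨Matrix.of fun _ k => if k = i then 1 else 0,
    Matrix.of fun k _ => if k = j then 1 else 0, fun T => ?_⟩
  refine ⟨(T 0 0 / B i j) • B, V.smul_mem _ hB, ?_⟩
  ext a b
  have ha : a = 0 := Subsingleton.elim _ _
  have hb : b = 0 := Subsingleton.elim _ _
  subst ha hb
  simp [Matrix.mul_apply, hij]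

variable [Fintype F]

theorem compress {n y z b : ℕ} (hn : 0 < n) (hy : y ≤ n) (hz : z ≤ n)
    (V : Submodule F (Matrix (Fin y) (Fin z) F)) (hV : (3 * b + 2) * n ≤ finrank F V) :
    ∃ (G : Matrix (Fin b) (Fin y) F) (H : Matrix (Fin z) (Fin b) F),
      ∀ T : Matrix (Fin b) (Fin b) F, ∃ B ∈ V, G * B * H = T := by
  obtain ⟨Z, hZ⟩ := exists_max V 1 (2 * b + 2)
  have h1 := hZ ⊤
  rw [dimIn_top, finrank_top, Module.finrank_fin_fun, one_mul, one_mul] at h1
  have h2 := dimIn_le V Z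
  have hb : b ≤ finrank F Z := by
    have h3 : (2 * b + 2) * z ≤ (2 * b + 2) * n := Nat.mul_le_mul_left _ hz
    have h4 : y * finrank F Z ≤ n * finrank F Z := Nat.mul_le_mul_right _ hy
    have h5 : b * n ≤ finrank F Z * n := by nlinarith
    exact Nat.le_of_mul_le_mul_right h5 hn
  let Q₀ : Matrix (Fin (finrank F Z)) (Fin b) F := incl _ _ hb
  let U' : Submodule F (Matrix (Fin y) (Fin b) F) :=
    (coef V Z).map (mulRightLinearMap (Fin y) F Q₀)
  have h3 := count_one' (g := Fin b) (D := Fin 1) U' 2 le_rfl (by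
    intro r hr Q hQ
    have h4 := slope V Z 1 (2 * b + 2) hZ r (Q₀ * Q)
      (mulVec_comp_injective (incl_injective _ _ hb) hQ)
    have h5 : U'.map (mulRightLinearMap (Fin y) F Q) =
        (coef V Z).map (mulRightLinearMap (Fin y) F (Q₀ * Q)) := by
      ext M
      constructor
      · rintro ⟨_, ⟨A, hA, rfl⟩, rfl⟩
        exact ⟨A, hA, (Matrix.mul_assoc A Q₀ Q).symm⟩
      · rintro ⟨A, hA, rfl⟩
        exact ⟨_, ⟨A, hA, rfl⟩, Matrix.mul_assoc A Q₀ Q⟩
    rw [h5]
    simp only [Fintype.card_fin]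
    calc (b + b + 2) * r = (2 * b + 2) * r := by ring
      _ ≤ _ := h4)
  obtain ⟨G, hG⟩ : ∃ G : Fin 1 → Matrix (Fin b) (Fin y) F, Good1 U' G := by
    by_contra hcon
    push Not at hcon
    have h4 : {G : Fin 1 → Matrix (Fin b) (Fin y) F | ¬ Good1 U' G} = Set.univ :=
      Set.eq_univ_iff_forall.2 hcon
    rw [h4, Set.ncard_univ, card_pow (F := F), Module.finrank_pi_fintype] at h3
    simp only [Module.finrank_matrix, Module.finrank_self, Finset.sum_const, Finset.card_univ,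
      Fintype.card_fin, smul_eq_mul, mul_one] at h3
    have h5 : 0 < Fintype.card F ^ (1 * (b * y)) := Nat.pow_pos Fintype.card_pos
    have key : ∀ a : ℕ, 3 * a ≤ a → 0 < a → False := by intro a _ _; omega
    exact key _ h3 h5
  obtain ⟨R, hR⟩ := exists_bm_inv Z
  refine ⟨G 0, R * Q₀, fun T => ?_⟩
  obtain ⟨B, hB, hBT⟩ := hG T
  obtain ⟨B₁, hB₁, hB₁'⟩ := hB 0
  refine ⟨B₁ * bm Z, hB₁, ?_⟩
  rw [Fin.sum_univ_one] at hBT
  have h6 : B₁ * Q₀ = B 0 := hB₁'
  rw [← hBT, ← h6]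
  calc G 0 * (B₁ * bm Z) * (R * Q₀) = G 0 * (B₁ * ((bm Z * R) * Q₀)) := by
        simp only [Matrix.mul_assoc]
    _ = _ := by rw [hR, Matrix.one_mul]

/-- block inclusion -/
def blockIncl (n b β : ℕ) : Matrix (Fin n) (Fin b) F :=
  fun j k => if (j : ℕ) = b * β + k then 1 else 0

omit [Fintype F] in
theorem sum_blockIncl (n b m : ℕ) (hb : 1 ≤ b) (h : n ≤ m * b) :
    ∑ β : Fin m, ((blockIncl n b β : Matrix (Fin n) (Fin b) F) *
      (blockIncl n b β : Matrix (Fin n) (Fin b) F)ᵀ : Matrix (Fin n) (Fin n) F) = 1 := by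
  ext j j'
  rw [Matrix.sum_apply]
  simp only [Matrix.mul_apply, Matrix.transpose_apply, blockIncl]
  have hj : (j : ℕ) / b < m := by
    rw [Nat.div_lt_iff_lt_mul (by omega)]
    exact lt_of_lt_of_le j.2 h
  have hk : (j : ℕ) % b < b := Nat.mod_lt _ (by omega)
  rw [Finset.sum_eq_single ⟨(j : ℕ) / b, hj⟩, Finset.sum_eq_single ⟨(j : ℕ) % b, hk⟩]
  · have h1 : (j : ℕ) = b * ((j : ℕ) / b) + (j : ℕ) % b := (Nat.div_add_mod _ _).symm
    rw [if_pos h1, one_mul, Matrix.one_apply]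
    by_cases hjj : j = j'
    · subst hjj
      rw [if_pos h1, if_pos rfl]
    · rw [if_neg hjj, if_neg]
      intro h2
      apply hjj
      apply Fin.ext
      simp only at h2
      omega
  · intro k _ hk'
    rw [if_neg, zero_mul]
    intro h1
    apply hk'
    apply Fin.ext
    simp only at h1 ⊢
    rw [h1, Nat.mul_add_mod, Nat.mod_eq_of_lt k.2]
  · simp
  · intro β _ hβ
    refine Finset.sum_eq_zero fun k _ => ?_
    rw [if_neg, zero_mul]
    intro h1
    apply hβ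
    apply Fin.ext
    simp only
    rw [h1, Nat.mul_add_div (by omega), Nat.div_eq_of_lt k.2, add_zero]
  · simp

/-- **Main reduction over a finite field** -/
theorem finite_main {n : ℕ} (hn : 0 < n) (U V W : Submodule F (Matrix (Fin n) (Fin n) F))
    (N h b m : ℕ) (hN : 2 ≤ N) (hh : 1 ≤ h) (hb : 1 ≤ b) (hbh : b = 1 ∨ (3 * b + 2) * n ≤ h)
    (hm : n ≤ m * b)
    (hdim : (2 * N + 3) * (n * n) + N * ((N - 1) * (h - 1)) <
      N * (finrank F U + finrank F V + finrank F W)) :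
    ∃ (α β γ : Fin (4 * N) × Fin m × Fin m →
        Matrix (Fin n) (Fin n) F →ₗ[F] Matrix (Fin n) (Fin n) F),
      (∀ t A, α t A ∈ U) ∧ (∀ t A, β t A ∈ V) ∧ (∀ t A, γ t A ∈ W) ∧
      ∀ A B C, ∑ t, trace (α t A * β t B * γ t C) = trace (A * B * C) := by
  obtain ⟨y, z, E, E', α, γ, hy, hz, hV, hα, hγ, hid⟩ := core hn U V W N h hN hh hdim
  set θ := ((mulLeftLinearMap (Fin z) F E) ∘ₗ (mulRightLinearMap (Fin n) F E')) with hθ
  obtain ⟨G, H, hGH⟩ : ∃ (G : Matrix (Fin b) (Fin y) F) (H : Matrix (Fin z) (Fin b) F),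
      ∀ T : Matrix (Fin b) (Fin b) F, ∃ B ∈ V.map θ, G * B * H = T := by
    rcases hbh with rfl | h1
    · refine compress_one _ ?_
      intro h0
      rw [h0, finrank_bot] at hV
      omega
    · exact compress hn hy hz _ (h1.trans hV)
  -- linear section
  let Θ : V →ₗ[F] Matrix (Fin b) (Fin b) F :=
    (mulLeftLinearMap _ F G) ∘ₗ (mulRightLinearMap _ F H) ∘ₗ θ ∘ₗ V.subtype
  obtain ⟨s, hs⟩ := lift_lin Θ LinearMap.id (by
    intro T
    obtain ⟨_, ⟨B, hB, rfl⟩, hT⟩ := hGH T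
    refine ⟨⟨B, hB⟩, ?_⟩
    rw [LinearMap.id_apply, ← hT, Matrix.mul_assoc]
    rfl)
  have hs' : ∀ T, G * (E * (s T : Matrix (Fin n) (Fin n) F) * E') * H = T := by
    intro T
    have h1 := hs T
    rw [LinearMap.id_apply] at h1
    conv_rhs => rw [← h1]
    change _ = G * (E * ((s T : Matrix (Fin n) (Fin n) F) * E') * H)
    simp only [Matrix.mul_assoc]
  let P : Fin m → Matrix (Fin n) (Fin b) F := fun β => blockIncl n b β
  have hP : ∑ β, P β * (P β)ᵀ = 1 := sum_blockIncl n b m hb hm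
  refine ⟨fun t => α t.1 ∘ₗ (mulRightLinearMap _ F (P t.2.1 * G)),
    fun t => V.subtype ∘ₗ s ∘ₗ (mulLeftLinearMap _ F (P t.2.1)ᵀ) ∘ₗ
      (mulRightLinearMap _ F (P t.2.2)),
    fun t => γ t.1 ∘ₗ (mulLeftLinearMap _ F (H * (P t.2.2)ᵀ)),
    fun t A => hα _ _, fun t A => (s _).2, fun t A => hγ _ _, fun A B C => ?_⟩
  rw [Fintype.sum_prod_type, Finset.sum_comm]
  have h1 : ∀ βγ : Fin m × Fin m, ∑ t : Fin (4 * N),
      trace (α t (A * (P βγ.1 * G)) * (s ((P βγ.1)ᵀ * (B * P βγ.2)) : Matrix (Fin n) (Fin n) F) *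
        γ t (H * (P βγ.2)ᵀ * C)) = trace (A * (P βγ.1 * (P βγ.1)ᵀ) * B *
          ((P βγ.2 * (P βγ.2)ᵀ) * C)) := by
    intro βγ
    rw [hid]
    have h2 := hs' ((P βγ.1)ᵀ * (B * P βγ.2))
    set S := (s ((P βγ.1)ᵀ * (B * P βγ.2)) : Matrix (Fin n) (Fin n) F) with hS
    calc trace (A * (P βγ.1 * G) * (E * S * E') * (H * (P βγ.2)ᵀ * C)) =
        trace (A * (P βγ.1 * ((G * (E * S * E') * H) * ((P βγ.2)ᵀ * C)))) := by
          simp only [Matrix.mul_assoc]
      _ = _ := by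
          rw [h2]
          simp only [Matrix.mul_assoc]
  refine (Finset.sum_congr rfl fun βγ _ => h1 βγ).trans ?_
  rw [Fintype.sum_prod_type]
  simp only
  have h2 : ∀ β : Fin m, ∑ γ' : Fin m, trace (A * (P β * (P β)ᵀ) * B * ((P γ' * (P γ')ᵀ) * C)) =
      trace (A * (P β * (P β)ᵀ) * (B * C)) := by
    intro β
    rw [← trace_sum, ← Matrix.mul_sum, ← Matrix.sum_mul, hP, Matrix.one_mul, Matrix.mul_assoc]
  rw [Finset.sum_congr rfl fun β _ => h2 β, ← trace_sum, ← Matrix.sum_mul, ← Matrix.mul_sum, hP,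
    Matrix.mul_one, Matrix.mul_assoc]

end H563R4
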