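import Mathlib

/-!
Transfer of `∀ ∃` systems of polynomial equations from finite fields to algebraically closed
fields.
-/

set_option autoImplicit false

open FirstOrder Language Field Ring

namespace H563R4

variable {α β ι κ : Type} [Finite α] [Finite β] [Finite ι] [Finite κ]

/-- the property: every solution of `P = 0` extends to a solution of `Q = 0` -/
def Ext (P : ι → FreeCommRing α) (Q : κ → FreeCommRing (α ⊕ β)) (K : Type*) [Field K] : Prop :=
  ∀ v : α → K, (∀ i, FreeCommRing.lift v (P i) = 0) →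
    ∃ w : β → K, ∀ k, FreeCommRing.lift (Sum.elim v w) (Q k) = 0

/-- the corresponding sentence -/
noncomputable def sent (P : ι → FreeCommRing α) (Q : κ → FreeCommRing (α ⊕ β)) :
    Language.ring.Sentence :=
  Formula.iAlls α (Formula.relabel (Sum.inr : α → Empty ⊕ α)
    (Formula.imp (Formula.iInf fun i => (termOfFreeCommRing (P i)).equal
        (termOfFreeCommRing (0 : FreeCommRing α)))
      (Formula.iExs β (Formula.iInf fun k => (termOfFreeCommRing (Q k)).equal
        (termOfFreeCommRing (0 : FreeCommRing (α ⊕ β)))))))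

theorem realize_sent (P : ι → FreeCommRing α) (Q : κ → FreeCommRing (α ⊕ β)) (K : Type*)
    [Field K] [CompatibleRing K] : K ⊨ sent P Q ↔ Ext P Q K := by
  unfold sent Ext
  rw [Sentence.Realize, Formula.realize_iAlls]
  refine forall_congr' fun v => ?_
  rw [Formula.realize_relabel, Formula.realize_imp, Formula.realize_iInf, Formula.realize_iExs]
  simp only [Formula.realize_iInf, Formula.realize_equal, realize_termOfFreeCommRing,
    Sum.elim_comp_inr, map_zero]

/-- transfer from finite fields -/
theorem Ext.of_finite (P : ι → FreeCommRing α) (Q : κ → FreeCommRing (α ⊕ β))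
    (h : ∀ (L : Type) [Field L] [Finite L], Ext P Q L) (K : Type*) [Field K] [IsAlgClosed K] :
    Ext P Q K := by
  -- algebraic closures of prime fields
  have h1 : ∀ p : ℕ, p.Prime → Theory.ACF p ⊨ᵇ sent P Q := by
    intro p hp
    have : Fact p.Prime := ⟨hp⟩
    let := compatibleRingOfRing (AlgebraicClosure (ZMod p))
    rw [← (ACF_isComplete (Or.inl hp)).realize_sentence_iff _
      (AlgebraicClosure (ZMod p)), realize_sent]
    intro v hv
    let L := IntermediateField.adjoin (ZMod p) (Set.range v)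
    have hfd : FiniteDimensional (ZMod p) L :=
      IntermediateField.finiteDimensional_adjoin fun x _ =>
        (Algebra.IsAlgebraic.isAlgebraic x).isIntegral
    have hfin : Finite L := Module.finite_of_finite (ZMod p)
    let v' : α → L := fun a => ⟨v a, IntermediateField.subset_adjoin _ _ ⟨a, rfl⟩⟩
    have hmap : ∀ {γ : Type} (u : γ → L) (p' : FreeCommRing γ),
        FreeCommRing.lift (fun c => (u c : AlgebraicClosure (ZMod p))) p' =
          (FreeCommRing.lift u p' : L) := by
      intro γ u p'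
      have : FreeCommRing.lift (fun c => (u c : AlgebraicClosure (ZMod p))) =
          (algebraMap L (AlgebraicClosure (ZMod p))).comp (FreeCommRing.lift u) := by
        refine FreeCommRing.hom_ext ?_
        intro c
        simp
      rw [this]
      rfl
    obtain ⟨w, hw⟩ := h L v' (fun i => by
      apply Subtype.ext
      have := hmap v' (P i)
      rw [← this]
      exact hv i)
    refine ⟨fun b => w b, fun k => ?_⟩
    have h2 : (Sum.elim v fun b => (w b : AlgebraicClosure (ZMod p))) =
        fun c => ((Sum.elim v' w c : L) : AlgebraicClosure (ZMod p)) := by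
      funext c
      rcases c with c | c <;> rfl
    rw [h2, hmap, hw]
    rfl
  -- all characteristics
  let := compatibleRingOfRing K
  have h2 : Theory.ACF (ringChar K) ⊨ᵇ sent P Q := by
    rcases CharP.char_is_prime_or_zero K (ringChar K) with hp | h0
    · exact h1 _ hp
    · rw [h0, ACF_zero_realize_iff_infinite_ACF_prime_realize]
      convert! Set.infinite_univ (α := Nat.Primes)
      rw [Set.eq_univ_iff_forall]
      intro ⟨p, hp⟩
      exact h1 p hp
  rw [← (ACF_isComplete (CharP.char_is_prime_or_zero K (ringChar K))).realize_sentence_iff _ K,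
    realize_sent] at h2
  exact h2

/-! ### The system -/

section system

variable (n du dv dw : ℕ) (τ : Type) [Fintype τ]

/-- index type of the vectors -/
abbrev J : Type := Fin du ⊕ Fin dv ⊕ Fin dw

/-- universally quantified variables -/
abbrev VA : Type := J du dv dw × Bool × Fin n × Fin n

/-- existentially quantified variables -/
abbrev VB : Type := τ × J du dv dw × Fin n × Fin n

/-- duality equations -/
noncomputable def eqP : (Fin du × Fin du) ⊕ (Fin dv × Fin dv) ⊕ (Fin dw × Fin dw) →
    FreeCommRing (VA n du dv dw)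
  | Sum.inl (i, j) => ∑ p, ∑ q, FreeCommRing.of (Sum.inl i, true, p, q) *
      FreeCommRing.of (Sum.inl j, false, p, q) - if i = j then 1 else 0
  | Sum.inr (Sum.inl (i, j)) => ∑ p, ∑ q, FreeCommRing.of (Sum.inr (Sum.inl i), true, p, q) *
      FreeCommRing.of (Sum.inr (Sum.inl j), false, p, q) - if i = j then 1 else 0
  | Sum.inr (Sum.inr (i, j)) => ∑ p, ∑ q, FreeCommRing.of (Sum.inr (Sum.inr i), true, p, q) *
      FreeCommRing.of (Sum.inr (Sum.inr j), false, p, q) - if i = j then 1 else 0

/-- the equations for the coefficients -/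
noncomputable def eqQ (k : Fin n × Fin n × Fin n × Fin n × Fin n × Fin n) :
    FreeCommRing (VA n du dv dw ⊕ VB n du dv dw τ) :=
  ∑ t : τ, ∑ a : Fin du, ∑ b : Fin dv, ∑ c : Fin dw,
    FreeCommRing.of (Sum.inr (t, Sum.inl a, k.1, k.2.1)) *
    FreeCommRing.of (Sum.inr (t, Sum.inr (Sum.inl b), k.2.2.1, k.2.2.2.1)) *
    FreeCommRing.of (Sum.inr (t, Sum.inr (Sum.inr c), k.2.2.2.2.1, k.2.2.2.2.2)) *
    (∑ x, ∑ y, ∑ z, FreeCommRing.of (Sum.inl (Sum.inl a, false, x, y)) *
      FreeCommRing.of (Sum.inl (Sum.inr (Sum.inl b), false, y, z)) *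
      FreeCommRing.of (Sum.inl (Sum.inr (Sum.inr c), false, z, x))) -
  if k.2.1 = k.2.2.1 ∧ k.2.2.2.1 = k.2.2.2.2.1 ∧ k.2.2.2.2.2 = k.1 then 1 else 0

open Matrix in
/-- the system in terms of matrices -/
def Sys (K : Type*) [Field K] : Prop :=
  ∀ (u u' : Fin du → Matrix (Fin n) (Fin n) K) (v v' : Fin dv → Matrix (Fin n) (Fin n) K)
    (w w' : Fin dw → Matrix (Fin n) (Fin n) K),
    (∀ i j, ∑ p, ∑ q, u' i p q * u j p q = if i = j then 1 else 0) →
    (∀ i j, ∑ p, ∑ q, v' i p q * v j p q = if i = j then 1 else 0) →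
    (∀ i j, ∑ p, ∑ q, w' i p q * w j p q = if i = j then 1 else 0) →
    ∃ (a : τ → Fin du → Matrix (Fin n) (Fin n) K) (b : τ → Fin dv → Matrix (Fin n) (Fin n) K)
      (c : τ → Fin dw → Matrix (Fin n) (Fin n) K), ∀ p q p' q' p'' q'' : Fin n,
      ∑ t, ∑ i, ∑ j, ∑ k, a t i p q * b t j p' q' * c t k p'' q'' * trace (u i * v j * w k) =
        if q = p' ∧ q' = p'' ∧ q'' = p then 1 else 0

theorem trace_mul_mul {K : Type*} [Field K] (A B C : Matrix (Fin n) (Fin n) K) :
    Matrix.trace (A * B * C) = ∑ x, ∑ y, ∑ z, A x y * B y z * C z x := by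
  simp only [Matrix.trace, Matrix.diag_apply, Matrix.mul_apply, Finset.sum_mul]
  refine Finset.sum_congr rfl fun x _ => ?_
  rw [Finset.sum_comm]

theorem ext_of_sys (K : Type*) [Field K] (h : Sys n du dv dw τ K) :
    Ext (eqP n du dv dw) (eqQ n du dv dw τ) K := by
  intro x hx
  obtain ⟨a, b, c, habc⟩ := h (fun i => Matrix.of fun p q => x (Sum.inl i, false, p, q))
    (fun i => Matrix.of fun p q => x (Sum.inl i, true, p, q))
    (fun i => Matrix.of fun p q => x (Sum.inr (Sum.inl i), false, p, q))
    (fun i => Matrix.of fun p q => x (Sum.inr (Sum.inl i), true, p, q))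
    (fun i => Matrix.of fun p q => x (Sum.inr (Sum.inr i), false, p, q))
    (fun i => Matrix.of fun p q => x (Sum.inr (Sum.inr i), true, p, q))
    (fun i j => by
      have := hx (Sum.inl (i, j))
      simp only [eqP, map_sub, map_sum, map_mul, FreeCommRing.lift_of] at this
      rw [sub_eq_zero] at this
      simp only [Matrix.of_apply]
      rw [this]
      split_ifs <;> simp)
    (fun i j => by
      have := hx (Sum.inr (Sum.inl (i, j)))
      simp only [eqP, map_sub, map_sum, map_mul, FreeCommRing.lift_of] at this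
      rw [sub_eq_zero] at this
      simp only [Matrix.of_apply]
      rw [this]
      split_ifs <;> simp)
    (fun i j => by
      have := hx (Sum.inr (Sum.inr (i, j)))
      simp only [eqP, map_sub, map_sum, map_mul, FreeCommRing.lift_of] at this
      rw [sub_eq_zero] at this
      simp only [Matrix.of_apply]
      rw [this]
      split_ifs <;> simp)
  obtain ⟨a', ha'⟩ : ∃ a' : τ → Fin du → Fin n → Fin n → K, ∀ t i p q, a' t i p q = a t i p q :=
    ⟨fun t i p q => a t i p q, fun _ _ _ _ => rfl⟩
  obtain ⟨b', hb'⟩ : ∃ b' : τ → Fin dv → Fin n → Fin n → K, ∀ t i p q, b' t i p q = b t i p q :=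
    ⟨fun t i p q => b t i p q, fun _ _ _ _ => rfl⟩
  obtain ⟨c', hc'⟩ : ∃ c' : τ → Fin dw → Fin n → Fin n → K, ∀ t i p q, c' t i p q = c t i p q :=
    ⟨fun t i p q => c t i p q, fun _ _ _ _ => rfl⟩
  refine ⟨fun y => match y.2.1 with
    | Sum.inl i => a' y.1 i y.2.2.1 y.2.2.2
    | Sum.inr (Sum.inl i) => b' y.1 i y.2.2.1 y.2.2.2
    | Sum.inr (Sum.inr i) => c' y.1 i y.2.2.1 y.2.2.2, fun k => ?_⟩
  have := habc k.1 k.2.1 k.2.2.1 k.2.2.2.1 k.2.2.2.2.1 k.2.2.2.2.2
  simp only [trace_mul_mul, Matrix.of_apply, ← ha', ← hb', ← hc'] at this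
  simp only [eqQ, map_sub, map_sum, map_mul, FreeCommRing.lift_of, Sum.elim_inl, Sum.elim_inr]
  rw [this, sub_eq_zero]
  split_ifs <;> simp

theorem sys_of_ext (K : Type*) [Field K]
    (h : Ext (eqP n du dv dw) (eqQ n du dv dw τ) K) : Sys n du dv dw τ K := by
  intro u u' v v' w w' hu hv hw
  obtain ⟨y, hy⟩ := h (fun z => match z.1, z.2.1 with
    | Sum.inl i, false => u i z.2.2.1 z.2.2.2
    | Sum.inl i, true => u' i z.2.2.1 z.2.2.2
    | Sum.inr (Sum.inl i), false => v i z.2.2.1 z.2.2.2
    | Sum.inr (Sum.inl i), true => v' i z.2.2.1 z.2.2.2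
    | Sum.inr (Sum.inr i), false => w i z.2.2.1 z.2.2.2
    | Sum.inr (Sum.inr i), true => w' i z.2.2.1 z.2.2.2) (by
      rintro (⟨i, j⟩ | ⟨i, j⟩ | ⟨i, j⟩)
      · simp only [eqP, map_sub, map_sum, map_mul, FreeCommRing.lift_of]
        rw [hu, sub_eq_zero]
        split_ifs <;> simp
      · simp only [eqP, map_sub, map_sum, map_mul, FreeCommRing.lift_of]
        rw [hv, sub_eq_zero]
        split_ifs <;> simp
      · simp only [eqP, map_sub, map_sum, map_mul, FreeCommRing.lift_of]
        rw [hw, sub_eq_zero]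
        split_ifs <;> simp)
  refine ⟨fun t i => Matrix.of fun p q => y (t, Sum.inl i, p, q),
    fun t i => Matrix.of fun p q => y (t, Sum.inr (Sum.inl i), p, q),
    fun t i => Matrix.of fun p q => y (t, Sum.inr (Sum.inr i), p, q),
    fun p q p' q' p'' q'' => ?_⟩
  have := hy (p, q, p', q', p'', q'')
  simp only [eqQ, map_sub, map_sum, map_mul, FreeCommRing.lift_of, Sum.elim_inl,
    Sum.elim_inr] at this
  rw [sub_eq_zero] at this
  simp only [trace_mul_mul, Matrix.of_apply]
  rw [this]
  split_ifs <;> simp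

theorem sys_of_finite (h : ∀ (L : Type) [Field L] [Finite L], Sys n du dv dw τ L) (K : Type*)
    [Field K] [IsAlgClosed K] : Sys n du dv dw τ K :=
  sys_of_ext n du dv dw τ K (Ext.of_finite _ _ (fun L _ _ => ext_of_sys n du dv dw τ L (h L)) K)

end system

end H563R4
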