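import Mathlib
import Pool.Agent.H563R4.Finite
import Pool.Agent.H563R4.Transfer

/-!
The reduction over algebraically closed fields.
-/

set_option autoImplicit false

open Matrix Module

namespace H563R4

section general

variable {F : Type*} [Field F] {n : ℕ}

/-- two linear functionals which agree on matrix units are equal -/
theorem functional_ext {f g : Matrix (Fin n) (Fin n) F →ₗ[F] F}
    (h : ∀ p q, f (Matrix.single p q 1) = g (Matrix.single p q 1)) : f = g := by
  ext A
  conv_lhs => rw [matrix_eq_sum_single A]
  conv_rhs => rw [matrix_eq_sum_single A]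
  simp only [map_sum]
  refine Finset.sum_congr rfl fun i _ => Finset.sum_congr rfl fun j _ => ?_
  have : (Matrix.single i j (A i j) : Matrix (Fin n) (Fin n) F) =
      A i j • Matrix.single i j 1 := by
    rw [Matrix.smul_single]; simp
  rw [this, map_smul, map_smul, h]

/-- the coordinates with respect to a family with a dual family -/
theorem eq_sum_of_mem_span {d : ℕ} (u u' : Fin d → Matrix (Fin n) (Fin n) F)
    (hu : ∀ i j, ∑ p, ∑ q, u' i p q * u j p q = if i = j then 1 else 0)
    {x : Matrix (Fin n) (Fin n) F} (hx : x ∈ Submodule.span F (Set.range u)) :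
    x = ∑ i, (∑ p, ∑ q, u' i p q * x p q) • u i := by
  induction hx using Submodule.span_induction with
  | mem x hx =>
    obtain ⟨j, rfl⟩ := hx
    simp only [hu, ite_smul, one_smul, zero_smul]
    simp
  | zero => simp
  | add x y _ _ hx hy =>
    conv_lhs => rw [hx, hy]
    rw [← Finset.sum_add_distrib]
    refine Finset.sum_congr rfl fun i _ => ?_
    rw [← add_smul]
    congr 1
    simp only [Matrix.add_apply, mul_add, Finset.sum_add_distrib]
  | smul c x _ hx =>
    conv_lhs => rw [hx]
    rw [Finset.smul_sum]
    refine Finset.sum_congr rfl fun i _ => ?_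
    rw [smul_smul]
    congr 1
    simp only [Matrix.smul_apply, smul_eq_mul, Finset.mul_sum]
    refine Finset.sum_congr rfl fun p _ => Finset.sum_congr rfl fun q _ => by ring

theorem linearIndependent_of_dual {d : ℕ} (u u' : Fin d → Matrix (Fin n) (Fin n) F)
    (hu : ∀ i j, ∑ p, ∑ q, u' i p q * u j p q = if i = j then 1 else 0) :
    LinearIndependent F u := by
  rw [Fintype.linearIndependent_iff]
  intro c hc i
  have h1 : ∑ p, ∑ q, u' i p q * (∑ j, c j • u j) p q = c i := by
    have h2 : ∀ p q, (∑ j, c j • u j) p q = ∑ j, c j * u j p q := by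
      intro p q
      rw [Matrix.sum_apply]
      rfl
    simp only [h2, Finset.mul_sum]
    rw [Finset.sum_congr rfl fun p _ => Finset.sum_comm, Finset.sum_comm]
    have h3 : ∀ j, ∑ p, ∑ q, u' i p q * (c j * u j p q) = c j * if i = j then 1 else 0 := by
      intro j
      rw [← hu, Finset.mul_sum]
      refine Finset.sum_congr rfl fun p _ => ?_
      rw [Finset.mul_sum]
      refine Finset.sum_congr rfl fun q _ => by ring
    rw [Finset.sum_congr rfl fun j _ => h3 j]
    simp
  rw [← h1, hc]
  simp

/-- a basis of a subspace together with a dual family -/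
theorem exists_dual (U : Submodule F (Matrix (Fin n) (Fin n) F)) :
    ∃ u u' : Fin (finrank F U) → Matrix (Fin n) (Fin n) F, (∀ i, u i ∈ U) ∧
      ∀ i j, ∑ p, ∑ q, u' i p q * u j p q = if i = j then 1 else 0 := by
  let b := finBasis F U
  have h1 : ∀ i, ∃ u' : Matrix (Fin n) (Fin n) F, ∀ x : U, b.coord i x =
      ∑ p, ∑ q, u' p q * (x : Matrix (Fin n) (Fin n) F) p q := by
    intro i
    obtain ⟨f, hf⟩ := (b.coord i).exists_extend
    obtain ⟨A, hA⟩ := exists_trace f
    refine ⟨A, fun x => ?_⟩
    have h2 : b.coord i x = f x := by rw [← hf]; rfl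
    rw [h2, hA, trace, Finset.sum_comm]
    simp only [diag_apply, mul_apply, transpose_apply]
  choose u' hu' using h1
  refine ⟨fun i => b i, u', fun i => (b i).2, fun i j => ?_⟩
  rw [← hu', Basis.coord_apply, Basis.repr_self, Finsupp.single_apply]
  by_cases h : i = j
  · simp [h]
  · simp [h, Ne.symm h]

end general

/-- The product `⟨n,n,n⟩` is a sum of restrictions, indexed by `τ`, of the product restricted to
`U × V × W`. -/
def Red {F : Type*} [Field F] {n : ℕ} (τ : Type) [Fintype τ]
    (U V W : Submodule F (Matrix (Fin n) (Fin n) F)) : Prop :=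
  ∃ (α β γ : τ → Matrix (Fin n) (Fin n) F →ₗ[F] Matrix (Fin n) (Fin n) F),
      (∀ t A, α t A ∈ U) ∧ (∀ t A, β t A ∈ V) ∧ (∀ t A, γ t A ∈ W) ∧
      ∀ A B C, ∑ t, trace (α t A * β t B * γ t C) = trace (A * B * C)

theorem trace_single {F : Type*} [Field F] {n : ℕ} (p q p' q' p'' q'' : Fin n) :
    trace (Matrix.single p q (1 : F) * Matrix.single p' q' 1 * Matrix.single p'' q'' 1) =
      if q = p' ∧ q' = p'' ∧ q'' = p then 1 else 0 := by
  by_cases h1 : q = p'
  · subst h1
    rw [Matrix.single_mul_single_same, one_mul]
    by_cases h2 : q' = p''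
    · subst h2
      rw [Matrix.single_mul_single_same, one_mul]
      by_cases h3 : q'' = p
      · subst h3
        simp
      · rw [Matrix.trace_single_eq_of_ne _ _ _ (Ne.symm h3)]
        simp [h3]
    · rw [Matrix.single_mul_single_of_ne _ _ _ _ h2]
      simp [h2]
  · rw [Matrix.single_mul_single_of_ne _ _ _ _ h1]
    simp [h1]

theorem trace_sum3 {F : Type*} [Field F] {n : ℕ} {I J K : Type*} [Fintype I] [Fintype J]
    [Fintype K] (a : I → F) (b : J → F) (c : K → F) (u : I → Matrix (Fin n) (Fin n) F)
    (v : J → Matrix (Fin n) (Fin n) F) (w : K → Matrix (Fin n) (Fin n) F) :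
    trace ((∑ i, a i • u i) * (∑ j, b j • v j) * (∑ k, c k • w k)) =
      ∑ i, ∑ j, ∑ k, a i * b j * c k * trace (u i * v j * w k) := by
  rw [Matrix.sum_mul, Matrix.sum_mul, trace_sum]
  refine Finset.sum_congr rfl fun i _ => ?_
  rw [Matrix.mul_sum Finset.univ (fun j => b j • v j) (a i • u i), Matrix.sum_mul, trace_sum]
  refine Finset.sum_congr rfl fun j _ => ?_
  rw [Matrix.mul_sum, trace_sum]
  refine Finset.sum_congr rfl fun k _ => ?_
  simp only [Matrix.smul_mul, Matrix.mul_smul, trace_smul, smul_eq_mul]
  ring

/-- over a field, `Sys` follows from `Red` -/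
theorem sys_of_red {F : Type*} [Field F] {n du dv dw : ℕ} {τ : Type} [Fintype τ]
    (h : ∀ U V W : Submodule F (Matrix (Fin n) (Fin n) F), finrank F U = du → finrank F V = dv →
      finrank F W = dw → Red τ U V W) : Sys n du dv dw τ F := by
  intro u u' v v' w w' hu hv hw
  obtain ⟨α, β, γ, hα, hβ, hγ, hid⟩ := h (Submodule.span F (Set.range u))
    (Submodule.span F (Set.range v)) (Submodule.span F (Set.range w))
    (by rw [finrank_span_eq_card (linearIndependent_of_dual u u' hu), Fintype.card_fin])
    (by rw [finrank_span_eq_card (linearIndependent_of_dual v v' hv), Fintype.card_fin])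
    (by rw [finrank_span_eq_card (linearIndependent_of_dual w w' hw), Fintype.card_fin])
  refine ⟨fun t i => Matrix.of fun p q => ∑ x, ∑ y, u' i x y * α t (Matrix.single p q 1) x y,
    fun t i => Matrix.of fun p q => ∑ x, ∑ y, v' i x y * β t (Matrix.single p q 1) x y,
    fun t i => Matrix.of fun p q => ∑ x, ∑ y, w' i x y * γ t (Matrix.single p q 1) x y,
    fun p q p' q' p'' q'' => ?_⟩
  rw [← trace_single (F := F), ← hid]
  refine Finset.sum_congr rfl fun t _ => ?_
  simp only [Matrix.of_apply]
  conv_rhs => rw [eq_sum_of_mem_span u u' hu (hα t (Matrix.single p q 1)),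
    eq_sum_of_mem_span v v' hv (hβ t (Matrix.single p' q' 1)),
    eq_sum_of_mem_span w w' hw (hγ t (Matrix.single p'' q'' 1))]
  rw [trace_sum3]

/-- over a field, `Red` follows from `Sys` -/
theorem red_of_sys {F : Type*} [Field F] {n : ℕ} {τ : Type} [Fintype τ]
    (U V W : Submodule F (Matrix (Fin n) (Fin n) F))
    (h : Sys n (finrank F U) (finrank F V) (finrank F W) τ F) : Red τ U V W := by
  obtain ⟨u, u', hu, hu'⟩ := exists_dual U
  obtain ⟨v, v', hv, hv'⟩ := exists_dual V
  obtain ⟨w, w', hw, hw'⟩ := exists_dual W
  obtain ⟨a, b, c, habc⟩ := h u u' v v' w w' hu' hv' hw'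
  -- the functional given by a matrix
  let φ : Matrix (Fin n) (Fin n) F → Matrix (Fin n) (Fin n) F →ₗ[F] F := fun M =>
    { toFun := fun A => ∑ p, ∑ q, M p q * A p q
      map_add' := by
        intro A B
        simp only [Matrix.add_apply, mul_add, Finset.sum_add_distrib]
      map_smul' := by
        intro k A
        simp only [Matrix.smul_apply, smul_eq_mul, RingHom.id_apply, Finset.mul_sum]
        refine Finset.sum_congr rfl fun p _ => Finset.sum_congr rfl fun q _ => by ring }
  have hφ : ∀ M p q, φ M (Matrix.single p q 1) = M p q := by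
    intro M p q
    change ∑ x, ∑ y, M x y * Matrix.single p q 1 x y = M p q
    rw [Finset.sum_eq_single p, Finset.sum_eq_single q]
    · simp
    · intro y _ hy
      rw [Matrix.single_apply_of_ne _ _ _ _ _ (by rintro ⟨-, h⟩; exact hy h.symm), mul_zero]
    · simp
    · intro x _ hx
      refine Finset.sum_eq_zero fun y _ => ?_
      rw [Matrix.single_apply_of_ne _ _ _ _ _ (by rintro ⟨h, -⟩; exact hx h.symm), mul_zero]
    · simp
  let α : τ → Matrix (Fin n) (Fin n) F →ₗ[F] Matrix (Fin n) (Fin n) F := fun t =>
    ∑ i, (φ (a t i)).smulRight (u i)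
  let β : τ → Matrix (Fin n) (Fin n) F →ₗ[F] Matrix (Fin n) (Fin n) F := fun t =>
    ∑ i, (φ (b t i)).smulRight (v i)
  let γ : τ → Matrix (Fin n) (Fin n) F →ₗ[F] Matrix (Fin n) (Fin n) F := fun t =>
    ∑ i, (φ (c t i)).smulRight (w i)
  have hα : ∀ t A, α t A = ∑ i, φ (a t i) A • u i := by
    intro t A
    simp only [α, LinearMap.sum_apply, LinearMap.smulRight_apply]
  have hβ : ∀ t A, β t A = ∑ i, φ (b t i) A • v i := by
    intro t A
    simp only [β, LinearMap.sum_apply, LinearMap.smulRight_apply]
  have hγ : ∀ t A, γ t A = ∑ i, φ (c t i) A • w i := by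
    intro t A
    simp only [γ, LinearMap.sum_apply, LinearMap.smulRight_apply]
  refine ⟨α, β, γ, ?_, ?_, ?_, ?_⟩
  · intro t A
    rw [hα]
    exact U.sum_mem fun i _ => U.smul_mem _ (hu i)
  · intro t A
    rw [hβ]
    exact V.sum_mem fun i _ => V.smul_mem _ (hv i)
  · intro t A
    rw [hγ]
    exact W.sum_mem fun i _ => W.smul_mem _ (hw i)
  -- the identity on matrix units
  have h1 : ∀ p q p' q' p'' q'' : Fin n, ∑ t, trace (α t (Matrix.single p q 1) *
      β t (Matrix.single p' q' 1) * γ t (Matrix.single p'' q'' 1)) =
      trace (Matrix.single p q (1 : F) * Matrix.single p' q' 1 * Matrix.single p'' q'' 1) := by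
    intro p q p' q' p'' q''
    rw [trace_single, ← habc]
    refine Finset.sum_congr rfl fun t _ => ?_
    rw [hα, hβ, hγ, trace_sum3]
    simp only [hφ]
  -- linear functionals
  have h2 : ∀ p q p' q' : Fin n, ∀ C, ∑ t, trace (α t (Matrix.single p q 1) *
      β t (Matrix.single p' q' 1) * γ t C) =
      trace (Matrix.single p q (1 : F) * Matrix.single p' q' 1 * C) := by
    intro p q p' q' C
    let f : Matrix (Fin n) (Fin n) F →ₗ[F] F :=
      { toFun := fun C => ∑ t, trace (α t (Matrix.single p q 1) *
          β t (Matrix.single p' q' 1) * γ t C)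
        map_add' := by
          intro A B
          simp only [map_add, Matrix.mul_add, trace_add, Finset.sum_add_distrib]
        map_smul' := by
          intro k A
          simp only [map_smul, Matrix.mul_smul, trace_smul, smul_eq_mul, RingHom.id_apply,
            Finset.mul_sum] }
    let g : Matrix (Fin n) (Fin n) F →ₗ[F] F :=
      { toFun := fun C => trace (Matrix.single p q (1 : F) * Matrix.single p' q' 1 * C)
        map_add' := by
          intro A B
          simp only [Matrix.mul_add, trace_add]
        map_smul' := by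
          intro k A
          simp only [Matrix.mul_smul, trace_smul, smul_eq_mul, RingHom.id_apply] }
    have : f = g := functional_ext fun p'' q'' => h1 p q p' q' p'' q''
    exact congrArg (fun f => f C) this
  have h3 : ∀ p q : Fin n, ∀ B C, ∑ t, trace (α t (Matrix.single p q 1) * β t B * γ t C) =
      trace (Matrix.single p q (1 : F) * B * C) := by
    intro p q B C
    let f : Matrix (Fin n) (Fin n) F →ₗ[F] F :=
      { toFun := fun B => ∑ t, trace (α t (Matrix.single p q 1) * β t B * γ t C)
        map_add' := by
          intro A B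
          simp only [map_add, Matrix.mul_add, Matrix.add_mul, trace_add, Finset.sum_add_distrib]
        map_smul' := by
          intro k A
          simp only [map_smul, Matrix.mul_smul, Matrix.smul_mul, trace_smul, smul_eq_mul,
            RingHom.id_apply, Finset.mul_sum] }
    let g : Matrix (Fin n) (Fin n) F →ₗ[F] F :=
      { toFun := fun B => trace (Matrix.single p q (1 : F) * B * C)
        map_add' := by
          intro A B
          simp only [Matrix.mul_add, Matrix.add_mul, trace_add]
        map_smul' := by
          intro k A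
          simp only [Matrix.mul_smul, Matrix.smul_mul, trace_smul, smul_eq_mul,
            RingHom.id_apply] }
    have : f = g := functional_ext fun p'' q'' => h2 p q p'' q'' C
    exact congrArg (fun f => f B) this
  intro A B C
  let f : Matrix (Fin n) (Fin n) F →ₗ[F] F :=
    { toFun := fun A => ∑ t, trace (α t A * β t B * γ t C)
      map_add' := by
        intro A B
        simp only [map_add, Matrix.add_mul, trace_add, Finset.sum_add_distrib]
      map_smul' := by
        intro k A
        simp only [map_smul, Matrix.smul_mul, trace_smul, smul_eq_mul,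
          RingHom.id_apply, Finset.mul_sum] }
  let g : Matrix (Fin n) (Fin n) F →ₗ[F] F :=
    { toFun := fun A => trace (A * B * C)
      map_add' := by
        intro A B
        simp only [Matrix.add_mul, trace_add]
      map_smul' := by
        intro k A
        simp only [Matrix.smul_mul, trace_smul, smul_eq_mul,
          RingHom.id_apply] }
  have : f = g := functional_ext fun p'' q'' => h3 p'' q'' B C
  exact congrArg (fun f => f A) this

/-- **Main reduction over an algebraically closed field** -/
theorem closed_main {K : Type*} [Field K] [IsAlgClosed K] {n : ℕ} (hn : 0 < n)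
    (U V W : Submodule K (Matrix (Fin n) (Fin n) K))
    (N h b m : ℕ) (hN : 2 ≤ N) (hh : 1 ≤ h) (hb : 1 ≤ b) (hbh : b = 1 ∨ (3 * b + 2) * n ≤ h)
    (hm : n ≤ m * b)
    (hdim : (2 * N + 3) * (n * n) + N * ((N - 1) * (h - 1)) <
      N * (finrank K U + finrank K V + finrank K W)) :
    Red (Fin (4 * N) × Fin m × Fin m) U V W := by
  refine red_of_sys U V W (sys_of_finite _ _ _ _ _ ?_ K)
  intro L _ _
  have : Fintype L := Fintype.ofFinite L
  refine sys_of_red fun U' V' W' hU hV hW => ?_
  exact finite_main hn U' V' W' N h b m hN hh hb hbh hm (by rw [hU, hV, hW]; exact hdim)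

end H563R4
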