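import Mathlib
import Pool.Agent.H563R2.AddDefs

/-!
Definitions: the rank of the matrix multiplication tensor restricted to three linear subspaces,
decompositions into products of linear forms and slices, and the exponent of matrix
multiplication.
-/

set_option autoImplicit false

universe u

namespace H563R4

/-- The amount by which `dim U + dim V + dim W` exceeds `2 n²` (zero if it does not). -/
noncomputable def excess {K : Type u} [Field K] {n : ℕ}
    (U V W : Submodule K (Matrix (Fin n) (Fin n) K)) : ℕ :=
  Module.finrank K U + Module.finrank K V + Module.finrank K W - 2 * n ^ 2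

/-- The rank of the trilinear form `(A, B, C) ↦ tr (A B C)` on `U × V × W`: the least number `r` of
products of three linear forms whose sum is this form.  For `U = V = W = ⊤` it is the tensor rank
of `⟨n,n,n⟩`; in general it is the rank of the image of `⟨n,n,n⟩` under the restrictions to `U`,
`V`, `W`. -/
noncomputable def restrictedRank (K : Type u) [Field K] (n : ℕ)
    (U V W : Submodule K (Matrix (Fin n) (Fin n) K)) : ℕ :=
  sInf {r : ℕ | ∃ a b c : Fin r → Matrix (Fin n) (Fin n) K, ∀ A ∈ U, ∀ B ∈ V, ∀ C ∈ W,
    (A * B * C).trace = ∑ s, (a s * A).trace * (b s * B).trace * (c s * C).trace}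

/-- The trilinear form `(A, B, C) ↦ tr (A B C)` is a sum of `r` products of three linear forms and
of `s` slices; a slice is the product of a linear form in one of `A`, `B`, `C` and a bilinear form
in the other two. -/
def RankPlusSlices (K : Type u) [Field K] (n r s : ℕ) : Prop :=
  ∃ (a b c : Fin r → Matrix (Fin n) (Fin n) K) (p q l : ℕ)
    (x : Fin p → Matrix (Fin n) (Fin n) K) (y : Fin q → Matrix (Fin n) (Fin n) K)
    (z : Fin l → Matrix (Fin n) (Fin n) K)
    (f : Fin p → Matrix (Fin n) (Fin n) K →ₗ[K] Matrix (Fin n) (Fin n) K →ₗ[K] K)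
    (g : Fin q → Matrix (Fin n) (Fin n) K →ₗ[K] Matrix (Fin n) (Fin n) K →ₗ[K] K)
    (h : Fin l → Matrix (Fin n) (Fin n) K →ₗ[K] Matrix (Fin n) (Fin n) K →ₗ[K] K),
    p + q + l = s ∧ ∀ A B C : Matrix (Fin n) (Fin n) K,
      (A * B * C).trace = ∑ t, (a t * A).trace * (b t * B).trace * (c t * C).trace +
        ∑ i, (x i * A).trace * f i B C + ∑ j, (y j * B).trace * g j A C +
        ∑ k, (z k * C).trace * h k A B

/-- The exponent of matrix multiplication over `K`. -/
noncomputable def omega (K : Type u) [Field K] : ℝ :=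
  sInf {τ : ℝ | ∃ C : ℝ, ∀ n : ℕ, (H563R2.MM.R K n : ℝ) ≤ C * (n : ℝ) ^ τ}

/-- The exponents `τ` such that, for all `n`, the product restricted to suitable subspaces
`U`, `V`, `W` of total dimension at least `(2 + ε) n²` has rank `O(n ^ τ)`. -/
def restrictedExponents (K : Type u) [Field K] (ε : ℝ) : Set ℝ :=
  {τ : ℝ | ∃ C : ℝ, ∀ n : ℕ, ∃ U V W : Submodule K (Matrix (Fin n) (Fin n) K),
    (2 + ε) * (n : ℝ) ^ 2 ≤
      ((Module.finrank K U + Module.finrank K V + Module.finrank K W : ℕ) : ℝ) ∧
    (restrictedRank K n U V W : ℝ) ≤ C * (n : ℝ) ^ τ}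

end H563R4
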