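import Mathlib
import Pool.Agent.H563R4.Closed
import Pool.Agent.H563R4.Defs
import Pool.Agent.H563R2.AddExp

/-!
Ranks.
-/

set_option autoImplicit false

open Matrix Module

namespace H563R4

open H563R2.MM

section

variable {K : Type*} [Field K] {n : ℕ}

/-- a decomposition of the full form gives one of the matrix multiplication tensor -/
theorem rankLe_of_form {τ : Type} [Fintype τ] (a b c : τ → Matrix (Fin n) (Fin n) K)
    (h : ∀ A B C : Matrix (Fin n) (Fin n) K, (A * B * C).trace =
      ∑ s, (a s * A).trace * (b s * B).trace * (c s * C).trace) : RankLe K (Fin n) τ := by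
  refine ⟨fun s i j => a s j i, fun s i j => b s j i, fun s i j => c s j i,
    fun i j j' k k' i' => ?_⟩
  have h1 := h (Matrix.single i j 1) (Matrix.single j' k 1) (Matrix.single k' i' 1)
  rw [trace_single] at h1
  have h2 : ∀ (M : Matrix (Fin n) (Fin n) K) (p q : Fin n),
      (M * Matrix.single p q 1).trace = M q p := by
    intro M p q
    rw [trace_mul_comm, Matrix.trace_single_mul]
    simp
  simp only [h2] at h1
  rw [← h1]

theorem trilinear_ext (Φ Ψ : Matrix (Fin n) (Fin n) K → Matrix (Fin n) (Fin n) K →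
      Matrix (Fin n) (Fin n) K → K)
    (h1 : ∀ B C, IsLinearMap K fun A => Φ A B C) (h2 : ∀ A C, IsLinearMap K fun B => Φ A B C)
    (h3 : ∀ A B, IsLinearMap K fun C => Φ A B C)
    (h1' : ∀ B C, IsLinearMap K fun A => Ψ A B C) (h2' : ∀ A C, IsLinearMap K fun B => Ψ A B C)
    (h3' : ∀ A B, IsLinearMap K fun C => Ψ A B C)
    (h : ∀ p q p' q' p'' q'' : Fin n,
      Φ (Matrix.single p q 1) (Matrix.single p' q' 1) (Matrix.single p'' q'' 1) =
      Ψ (Matrix.single p q 1) (Matrix.single p' q' 1) (Matrix.single p'' q'' 1)) :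
    ∀ A B C, Φ A B C = Ψ A B C := by
  have e1 : ∀ p q p' q' C, Φ (Matrix.single p q 1) (Matrix.single p' q' 1) C =
      Ψ (Matrix.single p q 1) (Matrix.single p' q' 1) C := by
    intro p q p' q' C
    have : IsLinearMap.mk' _ (h3 (Matrix.single p q 1) (Matrix.single p' q' 1)) =
        IsLinearMap.mk' _ (h3' (Matrix.single p q 1) (Matrix.single p' q' 1)) :=
      functional_ext fun p'' q'' => h p q p' q' p'' q''
    exact congrArg (fun f => f C) this
  have e2 : ∀ p q B C, Φ (Matrix.single p q 1) B C = Ψ (Matrix.single p q 1) B C := by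
    intro p q B C
    have : IsLinearMap.mk' _ (h2 (Matrix.single p q 1) C) =
        IsLinearMap.mk' _ (h2' (Matrix.single p q 1) C) :=
      functional_ext fun p'' q'' => e1 p q p'' q'' C
    exact congrArg (fun f => f B) this
  intro A B C
  have : IsLinearMap.mk' _ (h1 B C) = IsLinearMap.mk' _ (h1' B C) :=
    functional_ext fun p'' q'' => e2 p'' q'' B C
  exact congrArg (fun f => f A) this

/-- decomposition of the form from a decomposition of the tensor -/
theorem form_of_rankLe {r : ℕ} (h : RankLe K (Fin n) (Fin r)) :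
    ∃ a b c : Fin r → Matrix (Fin n) (Fin n) K, ∀ A B C : Matrix (Fin n) (Fin n) K,
      (A * B * C).trace = ∑ s, (a s * A).trace * (b s * B).trace * (c s * C).trace := by
  obtain ⟨u, v, w, h⟩ := h
  refine ⟨fun s => Matrix.of fun i j => u s j i, fun s => Matrix.of fun i j => v s j i,
    fun s => Matrix.of fun i j => w s j i, ?_⟩
  refine trilinear_ext (fun A B C => (A * B * C).trace) _ ?_ ?_ ?_ ?_ ?_ ?_ ?_
  · exact fun B C => ⟨fun x y => by simp only [Matrix.add_mul, trace_add],
      fun k x => by simp only [Matrix.smul_mul, trace_smul]⟩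
  · exact fun B C => ⟨fun x y => by simp only [Matrix.add_mul, Matrix.mul_add, trace_add],
      fun k x => by simp only [Matrix.smul_mul, Matrix.mul_smul, trace_smul]⟩
  · exact fun B C => ⟨fun x y => by simp only [Matrix.mul_add, trace_add],
      fun k x => by simp only [Matrix.mul_smul, trace_smul]⟩
  · exact fun B C => ⟨fun x y => by
        simp only [Matrix.mul_add, trace_add, add_mul, Finset.sum_add_distrib],
      fun k x => by
        simp only [Matrix.mul_smul, trace_smul, smul_eq_mul, Finset.mul_sum]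
        refine Finset.sum_congr rfl fun s _ => by ring⟩
  · exact fun B C => ⟨fun x y => by
        simp only [Matrix.mul_add, trace_add, add_mul, mul_add, Finset.sum_add_distrib],
      fun k x => by
        simp only [Matrix.mul_smul, trace_smul, smul_eq_mul, Finset.mul_sum]
        refine Finset.sum_congr rfl fun s _ => by ring⟩
  · exact fun B C => ⟨fun x y => by
        simp only [Matrix.mul_add, trace_add, mul_add, Finset.sum_add_distrib],
      fun k x => by
        simp only [Matrix.mul_smul, trace_smul, smul_eq_mul, Finset.mul_sum]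
        refine Finset.sum_congr rfl fun s _ => by ring⟩
  · intro p q p' q' p'' q''
    have h2 : ∀ (f : Fin n → Fin n → K) (p q : Fin n),
        ((Matrix.of fun i j => f j i) * Matrix.single p q 1).trace = f p q := by
      intro f p q
      rw [trace_mul_comm, Matrix.trace_single_mul]
      simp
    simp only [h2, trace_single]
    rw [h]

theorem restrictedRank_nonempty (U V W : Submodule K (Matrix (Fin n) (Fin n) K)) :
    ∃ a b c : Fin (restrictedRank K n U V W) → Matrix (Fin n) (Fin n) K,
      ∀ A ∈ U, ∀ B ∈ V, ∀ C ∈ W,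
      (A * B * C).trace = ∑ s, (a s * A).trace * (b s * B).trace * (c s * C).trace := by
  obtain ⟨a, b, c, h⟩ := form_of_rankLe (R_spec (K := K) n)
  exact Nat.sInf_mem (s := {r : ℕ | ∃ a b c : Fin r → Matrix (Fin n) (Fin n) K,
    ∀ A ∈ U, ∀ B ∈ V, ∀ C ∈ W,
    (A * B * C).trace = ∑ s, (a s * A).trace * (b s * B).trace * (c s * C).trace})
    ⟨_, a, b, c, fun A _ B _ C _ => h A B C⟩

theorem restrictedRank_le_R (U V W : Submodule K (Matrix (Fin n) (Fin n) K)) :
    restrictedRank K n U V W ≤ R K n := by
  obtain ⟨a, b, c, h⟩ := form_of_rankLe (R_spec (K := K) n)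
  exact Nat.sInf_le ⟨a, b, c, fun A _ B _ C _ => h A B C⟩

/-- the rank of the full product is bounded by the restricted rank -/
theorem R_le_of_red {τ : Type} [Fintype τ] {U V W : Submodule K (Matrix (Fin n) (Fin n) K)}
    (h : Red τ U V W) : R K n ≤ Fintype.card τ * restrictedRank K n U V W := by
  obtain ⟨α, β, γ, hα, hβ, hγ, hid⟩ := h
  have hne := restrictedRank_nonempty U V W
  generalize restrictedRank K n U V W = r at hne ⊢
  obtain ⟨a, b, c, habc⟩ := hne
  -- functionals as matrices
  have hfun : ∀ (M : Matrix (Fin n) (Fin n) K)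
      (f : Matrix (Fin n) (Fin n) K →ₗ[K] Matrix (Fin n) (Fin n) K),
      ∃ M' : Matrix (Fin n) (Fin n) K, ∀ A, (M * f A).trace = (M' * A).trace := by
    intro M f
    obtain ⟨A, hA⟩ := exists_trace ((traceLinearMap (Fin n) K K) ∘ₗ (mulLeftLinearMap _ K M) ∘ₗ f)
    exact ⟨Aᵀ, hA⟩
  choose a' ha' using fun (ts : τ × Fin r) => hfun (a ts.2) (α ts.1)
  choose b' hb' using fun (ts : τ × Fin r) => hfun (b ts.2) (β ts.1)
  choose c' hc' using fun (ts : τ × Fin r) => hfun (c ts.2) (γ ts.1)
  have h1 : RankLe K (Fin n) (τ × Fin r) := by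
    refine rankLe_of_form a' b' c' fun A B C => ?_
    rw [← hid, Fintype.sum_prod_type]
    refine Finset.sum_congr rfl fun t _ => ?_
    rw [habc _ (hα t A) _ (hβ t B) _ (hγ t C)]
    refine Finset.sum_congr rfl fun s _ => ?_
    rw [← ha', ← hb', ← hc']
  have e : Fin (Fintype.card τ * r) ≃ τ × Fin r :=
    (Fintype.equivFinOfCardEq (by simp)).symm
  exact R_le (h1.congr (Equiv.refl _) e)

/-! ### Extension of scalars -/

section ext

variable {E : Type*} [Field E] [Algebra K E]

/-- extension of scalars of a subspace -/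
def extend (E : Type*) [Field E] [Algebra K E] (U : Submodule K (Matrix (Fin n) (Fin n) K)) :
    Submodule E (Matrix (Fin n) (Fin n) E) :=
  Submodule.span E ((fun A : Matrix (Fin n) (Fin n) K => A.map (algebraMap K E)) '' U)

theorem le_finrank_extend (U : Submodule K (Matrix (Fin n) (Fin n) K)) :
    finrank K U ≤ finrank E (extend E U) := by
  obtain ⟨u, u', hu, hu'⟩ := exists_dual U
  have h1 : LinearIndependent E fun i => (u i).map (algebraMap K E) := by
    refine linearIndependent_of_dual _ (fun i => (u' i).map (algebraMap K E)) fun i j => ?_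
    simp only [Matrix.map_apply, ← map_mul, ← map_sum, hu']
    split_ifs <;> simp
  have h2 : ∀ i, (u i).map (algebraMap K E) ∈ extend E U := fun i =>
    Submodule.subset_span ⟨u i, hu i, rfl⟩
  have h3 : LinearIndependent E (fun i => (⟨_, h2 i⟩ : extend E U)) := by
    refine LinearIndependent.of_comp (extend E U).subtype ?_
    exact h1
  have := h3.fintype_card_le_finrank
  simpa using this

theorem restrictedRank_extend (U V W : Submodule K (Matrix (Fin n) (Fin n) K)) :
    restrictedRank E n (extend E U) (extend E V) (extend E W) ≤ restrictedRank K n U V W := by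
  have hne := restrictedRank_nonempty U V W
  generalize restrictedRank K n U V W = r at hne ⊢
  obtain ⟨a, b, c, habc⟩ := hne
  refine Nat.sInf_le ?_
  let ι : Matrix (Fin n) (Fin n) K → Matrix (Fin n) (Fin n) E := fun A => A.map (algebraMap K E)
  have htr : ∀ A : Matrix (Fin n) (Fin n) K, (ι A).trace = algebraMap K E A.trace := by
    intro A
    simp [ι, Matrix.trace]
  have hmul : ∀ A B : Matrix (Fin n) (Fin n) K, ι A * ι B = ι (A * B) := by
    intro A B
    exact (Matrix.map_mul).symm
  refine ⟨fun s => ι (a s), fun s => ι (b s), fun s => ι (c s), ?_⟩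
  have h1 : ∀ A ∈ U, ∀ B ∈ V, ∀ C ∈ W, (ι A * ι B * ι C).trace =
      ∑ s, (ι (a s) * ι A).trace * (ι (b s) * ι B).trace * (ι (c s) * ι C).trace := by
    intro A hA B hB C hC
    simp only [hmul, htr, ← map_mul, ← map_sum, habc A hA B hB C hC]
  have h2 : ∀ A ∈ U, ∀ B ∈ V, ∀ C ∈ extend E W, (ι A * ι B * C).trace =
      ∑ s, (ι (a s) * ι A).trace * (ι (b s) * ι B).trace * (ι (c s) * C).trace := by
    intro A hA B hB C hC
    induction hC using Submodule.span_induction with
    | mem C hC =>
      obtain ⟨C', hC', rfl⟩ := hC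
      exact h1 A hA B hB C' hC'
    | zero => simp
    | add x y _ _ hx hy =>
      simp only [Matrix.mul_add, trace_add, mul_add, Finset.sum_add_distrib, hx, hy]
    | smul k x _ hx =>
      simp only [Matrix.mul_smul, trace_smul, smul_eq_mul, hx, Finset.mul_sum]
      refine Finset.sum_congr rfl fun s _ => by ring
  have h3 : ∀ A ∈ U, ∀ B ∈ extend E V, ∀ C ∈ extend E W, (ι A * B * C).trace =
      ∑ s, (ι (a s) * ι A).trace * (ι (b s) * B).trace * (ι (c s) * C).trace := by
    intro A hA B hB C hC
    induction hB using Submodule.span_induction with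
    | mem B hB =>
      obtain ⟨B', hB', rfl⟩ := hB
      exact h2 A hA B' hB' C hC
    | zero => simp
    | add x y _ _ hx hy =>
      simp only [Matrix.mul_add, Matrix.add_mul, trace_add, mul_add, add_mul,
        Finset.sum_add_distrib, hx, hy]
    | smul k x _ hx =>
      simp only [Matrix.mul_smul, Matrix.smul_mul, trace_smul, smul_eq_mul, hx, Finset.mul_sum]
      refine Finset.sum_congr rfl fun s _ => by ring
  intro A hA B hB C hC
  induction hA using Submodule.span_induction with
  | mem A hA =>
    obtain ⟨A', hA', rfl⟩ := hA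
    exact h3 A' hA' B hB C hC
  | zero => simp
  | add x y _ _ hx hy =>
    simp only [Matrix.mul_add, Matrix.add_mul, trace_add, mul_add, add_mul,
      Finset.sum_add_distrib, hx, hy]
  | smul k x _ hx =>
    simp only [Matrix.mul_smul, Matrix.smul_mul, trace_smul, smul_eq_mul, hx, Finset.mul_sum]
    refine Finset.sum_congr rfl fun s _ => by ring

end ext

end

/-! ### The exponent -/

section exponent

universe u

variable {K : Type u} [Field K]

theorem R_pos {n : ℕ} (hn : 1 ≤ n) : 1 ≤ R K n := by
  have := sq_le_R (K := K) n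
  have h1 : 1 ≤ n ^ 2 := Nat.one_le_pow _ _ hn
  omega

theorem omega_bddBelow : BddBelow {τ : ℝ | ∃ C : ℝ, ∀ n : ℕ, (R K n : ℝ) ≤ C * (n : ℝ) ^ τ} := by
  refine ⟨2, ?_⟩
  rintro τ ⟨C, hC⟩
  exact two_le_of_bound (fun n _ => sq_le_R n) hC

/-- `n ^ ω ≤ R(n)` over any extension field -/
theorem pow_omega_le (E : Type u) [Field E] [Algebra K E] {n : ℕ} (hn : 1 ≤ n) :
    (n : ℝ) ^ omega K ≤ R E n := by
  rcases Nat.lt_or_ge n 2 with h2 | h2
  · have : n = 1 := by omega
    subst this
    rw [Nat.cast_one, Real.one_rpow]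
    exact_mod_cast R_pos (K := E) le_rfl
  · have hn0 : (0 : ℝ) < n := by positivity
    have hn1 : (1 : ℝ) < n := by exact_mod_cast h2
    by_contra hcon
    push Not at hcon
    -- choose `ω' < ω` with `R(n) < n ^ ω'`
    have hR : (0 : ℝ) < R E n := by exact_mod_cast R_pos (K := E) hn
    obtain ⟨ω', hω'1, hω'2⟩ : ∃ ω' : ℝ, ω' < omega K ∧ (R E n : ℝ) < (n : ℝ) ^ ω' := by
      have h3 : Real.logb n (R E n) < omega K := by
        rw [Real.logb_lt_iff_lt_rpow hn1 hR]
        exact hcon
      obtain ⟨ω', h4, h5⟩ := exists_between h3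
      exact ⟨ω', h5, (Real.logb_lt_iff_lt_rpow hn1 hR).1 h4⟩
    obtain ⟨n', r', hn', hr', hlt⟩ := descend_rank (K := K) h2 (R_spec (K := E) n) hω'2
    have hpos : 0 ≤ ω' := by
      by_contra hneg
      push Not at hneg
      have h6 : (n : ℝ) ^ ω' ≤ 1 := Real.rpow_le_one_of_one_le_of_nonpos hn1.le hneg.le
      have h7 : (1 : ℝ) ≤ R E n := by exact_mod_cast R_pos (K := E) hn
      linarith
    have h8 := R_growth hn' hpos hr' hlt.le
    have h9 : omega K ≤ ω' := csInf_le omega_bddBelow h8
    linarith

end exponent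

end H563R4
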