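import Mathlib
import Pool.Agent.H563R4.Rank

/-!
The robustness theorem.
-/

set_option autoImplicit false

open Matrix Module

namespace H563R4

open H563R2.MM

universe u

/-- choice of the parameters -/
theorem params {ε : ℝ} (hε : 0 < ε) (hε1 : ε ≤ 1) {n : ℕ} (hn : 0 < n) {d : ℕ}
    (hd : (2 + ε) * (n : ℝ) ^ 2 ≤ d) :
    ∃ N h b m : ℕ, 2 ≤ N ∧ 1 ≤ h ∧ 1 ≤ b ∧ (b = 1 ∨ (3 * b + 2) * n ≤ h) ∧ n ≤ m * b ∧
      (2 * N + 3) * (n * n) + N * ((N - 1) * (h - 1)) < N * d ∧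
      ε ^ 5 * ((4 * N * (m * m) : ℕ) : ℝ) ≤ 10 ^ 7 := by
  have hn' : (0 : ℝ) < n := by exact_mod_cast hn
  have hn2 : (0 : ℝ) < (n : ℝ) ^ 2 := by positivity
  -- `N`
  obtain ⟨N, hN⟩ : ∃ N : ℕ, N = ⌈6 / ε⌉₊ := ⟨_, rfl⟩
  have hN1 : 6 / ε ≤ N := by rw [hN]; exact Nat.le_ceil _
  have hN2 : (N : ℝ) < 6 / ε + 1 := by rw [hN]; exact Nat.ceil_lt_add_one (by positivity)
  have hN3 : 6 ≤ N * ε := by
    rw [div_le_iff₀ hε] at hN1
    linarith
  have hN4 : (N : ℝ) * ε ≤ 7 := by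
    have h1 : (N : ℝ) * ε < (6 / ε + 1) * ε := mul_lt_mul_of_pos_right hN2 hε
    have h2 : (6 / ε + 1) * ε = 6 + ε := by field_simp
    linarith
  have hN5 : (6 : ℝ) ≤ N := by
    nlinarith [Nat.cast_nonneg (α := ℝ) N]
  have hN6 : 6 ≤ N := by exact_mod_cast hN5
  have hNpos : (0 : ℝ) < N := by linarith
  -- `h`
  obtain ⟨h, hh⟩ : ∃ h : ℕ, h = ⌈ε * (n : ℝ) ^ 2 / (2 * N)⌉₊ := ⟨_, rfl⟩
  have hpos : 0 < ε * (n : ℝ) ^ 2 / (2 * N) := by positivity
  have hh1 : ε * (n : ℝ) ^ 2 / (2 * N) ≤ h := by rw [hh]; exact Nat.le_ceil _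
  have hh2 : (h : ℝ) < ε * (n : ℝ) ^ 2 / (2 * N) + 1 := by
    rw [hh]; exact Nat.ceil_lt_add_one hpos.le
  have hh3 : 1 ≤ h := by
    rw [hh]; exact Nat.one_le_iff_ne_zero.2 (Nat.ceil_pos.2 hpos).ne'
  have hh4 : ε * (n : ℝ) ^ 2 ≤ 2 * N * h := by
    rw [div_le_iff₀ (by positivity)] at hh1
    linarith
  have hh5 : h ≤ n * n := by
    have h1 : ε * (n : ℝ) ^ 2 / (2 * N) ≤ ((n * n : ℕ) : ℝ) := by
      rw [div_le_iff₀ (by positivity)]
      push_cast
      nlinarith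
    rw [hh]
    exact Nat.ceil_le.2 h1
  -- `b`
  obtain ⟨b, hb⟩ : ∃ b : ℕ, b = max 1 ((h / n - 2) / 3) := ⟨_, rfl⟩
  have hb1 : 1 ≤ b := by rw [hb]; exact le_max_left _ _
  have hdiv1 : n * (h / n) ≤ h := Nat.mul_div_le h n
  have hdiv2 : h < n * (h / n) + n := by
    have := Nat.div_add_mod h n
    have := Nat.mod_lt h hn
    omega
  have hdiv3 : h / n ≤ n := by
    rw [Nat.div_le_iff_le_mul_add_pred hn]
    omega
  have hb2 : b = 1 ∨ 3 * b + 2 ≤ h / n := by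
    rw [hb]
    omega
  have hb3 : b = 1 ∨ (3 * b + 2) * n ≤ h := by
    rcases hb2 with h1 | h1
    · exact Or.inl h1
    · right
      calc (3 * b + 2) * n ≤ (h / n) * n := Nat.mul_le_mul_right _ h1
        _ = n * (h / n) := mul_comm _ _
        _ ≤ h := hdiv1
  have hb4 : b ≤ n := by
    rcases hb2 with h1 | h1
    · omega
    · omega
  have hb5 : h / n + 1 ≤ 10 * b := by
    rw [hb]
    omega
  have hb6 : h ≤ 10 * (n * b) := by
    have h1 : n * (h / n + 1) ≤ n * (10 * b) := Nat.mul_le_mul_left _ hb5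
    have h2 : n * (h / n + 1) = n * (h / n) + n := by ring
    have h3 : n * (10 * b) = 10 * (n * b) := by ring
    omega
  -- `m`
  obtain ⟨m, hm⟩ : ∃ m : ℕ, m = (n + b - 1) / b := ⟨_, rfl⟩
  have hm1 : n ≤ m * b := by
    have h1 := Nat.div_add_mod (n + b - 1) b
    have h2 := Nat.mod_lt (n + b - 1) (by omega : 0 < b)
    rw [← hm] at h1
    have h3 : b * m = m * b := mul_comm _ _
    omega
  have hm2 : m * b ≤ 2 * n := by
    have h1 := Nat.div_add_mod (n + b - 1) b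
    rw [← hm] at h1
    have h3 : b * m = m * b := mul_comm _ _
    omega
  refine ⟨N, h, b, m, by omega, hh3, hb1, hb3, hm1, ?_, ?_⟩
  · -- the dimension condition
    have h1 : ((2 * N + 3) * (n * n) + N * ((N - 1) * (h - 1)) : ℝ) < N * d := by
      have h2 : (h : ℝ) - 1 < ε * (n : ℝ) ^ 2 / (2 * N) := by linarith
      have h3 : (N : ℝ) * ((h : ℝ) - 1) < ε * (n : ℝ) ^ 2 / 2 := by
        rw [lt_div_iff₀ (by positivity)] at h2
        linarith
      have h4 : ((N : ℝ) - 1) * (N * ((h : ℝ) - 1)) < (N - 1) * (ε * (n : ℝ) ^ 2 / 2) :=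
        mul_lt_mul_of_pos_left h3 (by linarith)
      have h5 : (3 : ℝ) * n ^ 2 ≤ N * ε * n ^ 2 / 2 := by nlinarith
      have h6 : (N : ℝ) * ((2 + ε) * (n : ℝ) ^ 2) ≤ N * d := mul_le_mul_of_nonneg_left hd hNpos.le
      have h7 : 0 < ε * (n : ℝ) ^ 2 := by positivity
      nlinarith
    have h8 : (((2 * N + 3) * (n * n) + N * ((N - 1) * (h - 1)) : ℕ) : ℝ) < ((N * d : ℕ) : ℝ) := by
      push_cast [Nat.cast_sub (show 1 ≤ N by omega), Nat.cast_sub hh3]
      exact h1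
    exact_mod_cast h8
  · -- the number of summands
    have hb' : (0 : ℝ) < b := by exact_mod_cast hb1
    have hm' : (m : ℝ) * b ≤ 2 * n := by exact_mod_cast hm2
    have hb7 : (h : ℝ) ≤ 10 * (n * b) := by exact_mod_cast hb6
    -- `ε m ≤ 40 N`
    have h1 : ε * m ≤ 40 * N := by
      have h2 : (ε * m) * ((n : ℝ) * (n * b)) ≤ (40 * N) * ((n : ℝ) * (n * b)) := by
        calc (ε * m) * ((n : ℝ) * (n * b)) = (ε * (n : ℝ) ^ 2) * (m * b) := by ring
          _ ≤ (2 * N * h) * (2 * n) := by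
              apply mul_le_mul hh4 hm' (by positivity) (by positivity)
          _ ≤ (2 * N * (10 * (n * b))) * (2 * n) := by
              apply mul_le_mul_of_nonneg_right _ (by positivity)
              exact mul_le_mul_of_nonneg_left hb7 (by positivity)
          _ = (40 * N) * ((n : ℝ) * (n * b)) := by ring
      exact le_of_mul_le_mul_right h2 (by positivity)
    have h3 : 0 ≤ ε * m := by positivity
    push_cast
    calc ε ^ 5 * (4 * N * (m * m)) = 4 * (N * ε) * (ε * m) ^ 2 * ε ^ 2 := by ring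
      _ ≤ 4 * (N * ε) * (40 * N) ^ 2 * ε ^ 2 := by
          have : (ε * m) ^ 2 ≤ (40 * (N : ℝ)) ^ 2 := pow_le_pow_left₀ h3 h1 2
          apply mul_le_mul_of_nonneg_right _ (by positivity)
          exact mul_le_mul_of_nonneg_left this (by positivity)
      _ = 6400 * (N * ε) ^ 3 := by ring
      _ ≤ 6400 * 7 ^ 3 := by
          have : ((N : ℝ) * ε) ^ 3 ≤ 7 ^ 3 := pow_le_pow_left₀ (by positivity) hN4 3
          linarith
      _ ≤ 10 ^ 7 := by norm_num

theorem R_zero (K : Type u) [Field K] : R K 0 = 0 := by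
  have := R_le_cube (K := K) 0
  simpa using this

/-- **Robustness over algebraically closed fields** -/
theorem robust_closed (K : Type u) [Field K] [IsAlgClosed K] (ε : ℝ) (hε : 0 < ε) (hε1 : ε ≤ 1)
    (n : ℕ) (U V W : Submodule K (Matrix (Fin n) (Fin n) K))
    (hdim : (2 + ε) * (n : ℝ) ^ 2 ≤ ((finrank K U + finrank K V + finrank K W : ℕ) : ℝ)) :
    ε ^ 5 * (R K n : ℝ) ≤ 10 ^ 7 * (restrictedRank K n U V W : ℝ) := by
  rcases Nat.eq_zero_or_pos n with rfl | hn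
  · rw [R_zero]
    simp
  obtain ⟨N, h, b, m, hN, hh, hb, hbh, hm, hd, hκ⟩ := params hε hε1 hn hdim
  have hred := closed_main hn U V W N h b m hN hh hb hbh hm hd
  have h1 := R_le_of_red hred
  have h2 : Fintype.card (Fin (4 * N) × Fin m × Fin m) = 4 * N * (m * m) := by simp
  rw [h2] at h1
  have h3 : (R K n : ℝ) ≤ ((4 * N * (m * m) : ℕ) : ℝ) * (restrictedRank K n U V W : ℝ) := by
    exact_mod_cast h1
  calc ε ^ 5 * (R K n : ℝ) ≤ ε ^ 5 * (((4 * N * (m * m) : ℕ) : ℝ) *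
        (restrictedRank K n U V W : ℝ)) := mul_le_mul_of_nonneg_left h3 (by positivity)
    _ = (ε ^ 5 * ((4 * N * (m * m) : ℕ) : ℝ)) * (restrictedRank K n U V W : ℝ) := by ring
    _ ≤ 10 ^ 7 * (restrictedRank K n U V W : ℝ) := mul_le_mul_of_nonneg_right hκ (by positivity)

/-- **Robustness over finite fields** -/
theorem robust_finite (K : Type u) [Field K] [Finite K] (ε : ℝ) (hε : 0 < ε) (hε1 : ε ≤ 1)
    (n : ℕ) (U V W : Submodule K (Matrix (Fin n) (Fin n) K))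
    (hdim : (2 + ε) * (n : ℝ) ^ 2 ≤ ((finrank K U + finrank K V + finrank K W : ℕ) : ℝ)) :
    ε ^ 5 * (R K n : ℝ) ≤ 10 ^ 7 * (restrictedRank K n U V W : ℝ) := by
  have : Fintype K := Fintype.ofFinite K
  rcases Nat.eq_zero_or_pos n with rfl | hn
  · rw [R_zero]
    simp
  obtain ⟨N, h, b, m, hN, hh, hb, hbh, hm, hd, hκ⟩ := params hε hε1 hn hdim
  have hred : Red (Fin (4 * N) × Fin m × Fin m) U V W :=
    finite_main hn U V W N h b m hN hh hb hbh hm hd
  have h1 := R_le_of_red hred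
  have h2 : Fintype.card (Fin (4 * N) × Fin m × Fin m) = 4 * N * (m * m) := by simp
  rw [h2] at h1
  have h3 : (R K n : ℝ) ≤ ((4 * N * (m * m) : ℕ) : ℝ) * (restrictedRank K n U V W : ℝ) := by
    exact_mod_cast h1
  calc ε ^ 5 * (R K n : ℝ) ≤ ε ^ 5 * (((4 * N * (m * m) : ℕ) : ℝ) *
        (restrictedRank K n U V W : ℝ)) := mul_le_mul_of_nonneg_left h3 (by positivity)
    _ = (ε ^ 5 * ((4 * N * (m * m) : ℕ) : ℝ)) * (restrictedRank K n U V W : ℝ) := by ring
    _ ≤ 10 ^ 7 * (restrictedRank K n U V W : ℝ) := mul_le_mul_of_nonneg_right hκ (by positivity)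

/-- **Robustness over all fields**, in terms of the exponent -/
theorem robust_omega (K : Type u) [Field K] (ε : ℝ) (hε : 0 < ε) (hε1 : ε ≤ 1)
    (n : ℕ) (hn : 1 ≤ n) (U V W : Submodule K (Matrix (Fin n) (Fin n) K))
    (hdim : (2 + ε) * (n : ℝ) ^ 2 ≤ ((finrank K U + finrank K V + finrank K W : ℕ) : ℝ)) :
    ε ^ 5 * (n : ℝ) ^ omega K ≤ 10 ^ 7 * (restrictedRank K n U V W : ℝ) := by
  let E := AlgebraicClosure K
  have h1 : (2 + ε) * (n : ℝ) ^ 2 ≤ ((finrank E (extend E U) + finrank E (extend E V) +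
      finrank E (extend E W) : ℕ) : ℝ) := by
    refine hdim.trans ?_
    exact_mod_cast add_le_add (add_le_add (le_finrank_extend U) (le_finrank_extend V))
      (le_finrank_extend W)
  have h2 := robust_closed E ε hε hε1 n _ _ _ h1
  have h3 := restrictedRank_extend (E := E) U V W
  have h4 := pow_omega_le (K := K) E hn
  calc ε ^ 5 * (n : ℝ) ^ omega K ≤ ε ^ 5 * (R E n : ℝ) :=
        mul_le_mul_of_nonneg_left h4 (by positivity)
    _ ≤ 10 ^ 7 * (restrictedRank E n (extend E U) (extend E V) (extend E W) : ℝ) := h2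
    _ ≤ 10 ^ 7 * (restrictedRank K n U V W : ℝ) := by
        apply mul_le_mul_of_nonneg_left _ (by positivity)
        exact_mod_cast h3

end H563R4
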