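import Mathlib
import Pool.Agent.H563R4.Robust

/-!
Sharpness, and the exponent of restricted matrix multiplication.
-/

set_option autoImplicit false

open Matrix Module Filter

namespace H563R4

open H563R2.MM

universe u

variable {K : Type u} [Field K]

/-- the inclusion of the last coordinates -/
def inclLast (n k : ℕ) (h : k ≤ n) : Matrix (Fin n) (Fin (n - k)) K :=
  fun i j => if (i : ℕ) = k + j then 1 else 0

theorem inclLast_injective (n k : ℕ) (h : k ≤ n) :
    Function.Injective (inclLast n k h : Matrix (Fin n) (Fin (n - k)) K).mulVec := by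
  have key : ∀ v : Fin (n - k) → K, ∀ j : Fin (n - k),
      (inclLast n k h : Matrix (Fin n) (Fin (n - k)) K).mulVec v ⟨k + j, by omega⟩ = v j := by
    intro v j
    simp only [Matrix.mulVec, dotProduct, inclLast]
    rw [Finset.sum_eq_single j]
    · simp
    · intro l _ hl
      have : ¬ (k + (j : ℕ) = k + l) := fun h' => hl (Fin.ext (by omega))
      rw [if_neg this, zero_mul]
    · simp
  intro v w hvw
  ext j
  rw [← key v j, ← key w j, hvw]

theorem incl_orth (n k : ℕ) (h : k ≤ n) :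
    (incl n k h : Matrix (Fin n) (Fin k) K)ᵀ * (inclLast n k h : Matrix (Fin n) (Fin (n - k)) K) =
      0 := by
  ext i j
  rw [Matrix.mul_apply]
  refine Finset.sum_eq_zero fun l _ => ?_
  simp only [Matrix.transpose_apply, incl, inclLast]
  by_cases h1 : l = Fin.castLE h i
  · have h2 : ¬ ((l : ℕ) = k + j) := by
      rw [h1, Fin.val_castLE]
      omega
    rw [if_neg h2, mul_zero]
  · rw [if_neg h1, zero_mul]

/-- **Sharpness**: subspaces of total dimension `2 n²` with vanishing product. -/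
theorem sharp (n k : ℕ) (h : k ≤ n) : ∃ U V : Submodule K (Matrix (Fin n) (Fin n) K),
    finrank K U = n * k ∧ finrank K V = n * (n - k) ∧ restrictedRank K n U V ⊤ = 0 := by
  let f : Matrix (Fin n) (Fin k) K →ₗ[K] Matrix (Fin n) (Fin n) K :=
    mulRightLinearMap _ K (incl n k h : Matrix (Fin n) (Fin k) K)ᵀ
  let g : Matrix (Fin (n - k)) (Fin n) K →ₗ[K] Matrix (Fin n) (Fin n) K :=
    mulLeftLinearMap _ K (inclLast n k h : Matrix (Fin n) (Fin (n - k)) K)
  have hf : Function.Injective f := by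
    obtain ⟨Y, hY⟩ := exists_leftInv (incl_injective (F := K) n k h)
    intro A B hAB
    have h1 : A * (incl n k h : Matrix (Fin n) (Fin k) K)ᵀ =
      B * (incl n k h : Matrix (Fin n) (Fin k) K)ᵀ := hAB
    have h2 : (incl n k h : Matrix (Fin n) (Fin k) K)ᵀ * Yᵀ = 1 := by
      rw [← Matrix.transpose_mul, hY, Matrix.transpose_one]
    rw [← Matrix.mul_one A, ← h2, ← Matrix.mul_assoc, h1, Matrix.mul_assoc, h2, Matrix.mul_one]
  have hg : Function.Injective g := by
    obtain ⟨Y, hY⟩ := exists_leftInv (inclLast_injective (K := K) n k h)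
    intro A B hAB
    have h1 : (inclLast n k h : Matrix (Fin n) (Fin (n - k)) K) * A =
      (inclLast n k h : Matrix (Fin n) (Fin (n - k)) K) * B := hAB
    rw [← Matrix.one_mul A, ← hY, Matrix.mul_assoc, h1, ← Matrix.mul_assoc, hY, Matrix.one_mul]
  refine ⟨LinearMap.range f, LinearMap.range g, ?_, ?_, ?_⟩
  · rw [LinearMap.finrank_range_of_inj hf, Module.finrank_matrix, Module.finrank_self]
    simp
  · rw [LinearMap.finrank_range_of_inj hg, Module.finrank_matrix, Module.finrank_self]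
    simp [mul_comm]
  · have : 0 ∈ {r : ℕ | ∃ a b c : Fin r → Matrix (Fin n) (Fin n) K,
        ∀ A ∈ LinearMap.range f, ∀ B ∈ LinearMap.range g, ∀ C ∈ (⊤ : Submodule K _),
        (A * B * C).trace = ∑ s, (a s * A).trace * (b s * B).trace * (c s * C).trace} := by
      refine ⟨fun _ => 0, fun _ => 0, fun _ => 0, ?_⟩
      rintro _ ⟨A, rfl⟩ _ ⟨B, rfl⟩ C _
      have h1 : f A * g B = 0 := by
        change A * (incl n k h : Matrix (Fin n) (Fin k) K)ᵀ *
          ((inclLast n k h : Matrix (Fin n) (Fin (n - k)) K) * B) = 0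
        rw [Matrix.mul_assoc, ← Matrix.mul_assoc (incl n k h : Matrix (Fin n) (Fin k) K)ᵀ,
          incl_orth, Matrix.zero_mul, Matrix.mul_zero]
      rw [h1]
      simp
    exact Nat.le_zero.1 (Nat.sInf_le this)

theorem subset_restrictedExponents (ε : ℝ) (hε1 : ε ≤ 1) {τ : ℝ}
    (h : ∃ C : ℝ, ∀ n : ℕ, (R K n : ℝ) ≤ C * (n : ℝ) ^ τ) : τ ∈ restrictedExponents K ε := by
  obtain ⟨C, hC⟩ := h
  refine ⟨C, fun n => ⟨⊤, ⊤, ⊤, ?_, ?_⟩⟩
  · rw [finrank_top, Module.finrank_matrix, Module.finrank_self]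
    simp only [Fintype.card_fin, mul_one]
    push_cast
    nlinarith [sq_nonneg (n : ℝ)]
  · refine le_trans ?_ (hC n)
    exact_mod_cast restrictedRank_le_R _ _ _

theorem omega_le_of_mem {ε : ℝ} (hε : 0 < ε) (hε1 : ε ≤ 1) {τ : ℝ}
    (h : τ ∈ restrictedExponents K ε) : omega K ≤ τ := by
  obtain ⟨C, hC⟩ := h
  by_contra hlt
  push Not at hlt
  have h1 : ∀ n : ℕ, 1 ≤ n → ε ^ 5 * (n : ℝ) ^ omega K ≤ 10 ^ 7 * (C * (n : ℝ) ^ τ) := by
    intro n hn
    obtain ⟨U, V, W, hd, hr⟩ := hC n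
    exact (robust_omega K ε hε hε1 n hn U V W hd).trans
      (mul_le_mul_of_nonneg_left hr (by positivity))
  have htend : Tendsto (fun N : ℕ => ((N : ℝ)) ^ (omega K - τ)) atTop atTop :=
    (tendsto_rpow_atTop (by linarith)).comp tendsto_natCast_atTop_atTop
  obtain ⟨n, hn1, hn2⟩ := ((htend.eventually_gt_atTop (10 ^ 7 * C / ε ^ 5)).and
    (eventually_ge_atTop 1)).exists
  have hn0 : (0 : ℝ) < n := by exact_mod_cast hn2
  have h2 := h1 n hn2
  have h3 : (n : ℝ) ^ omega K = (n : ℝ) ^ (omega K - τ) * (n : ℝ) ^ τ := by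
    rw [← Real.rpow_add hn0]
    congr 1
    ring
  have h4 : 0 < (n : ℝ) ^ τ := Real.rpow_pos_of_pos hn0 _
  rw [h3, ← mul_assoc, ← mul_assoc] at h2
  have h5 := le_of_mul_le_mul_right h2 h4
  rw [div_lt_iff₀ (by positivity)] at hn1
  linarith

theorem exponent_eq {ε : ℝ} (hε : 0 < ε) (hε1 : ε ≤ 1) :
    sInf (restrictedExponents K ε) = omega K := by
  have hne : (restrictedExponents K ε).Nonempty := by
    refine ⟨3, subset_restrictedExponents ε hε1 ⟨1, fun n => ?_⟩⟩
    have := R_le_cube (K := K) n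
    have h1 : ((n : ℝ)) ^ (3 : ℝ) = ((n ^ 3 : ℕ) : ℝ) := by
      push_cast
      exact_mod_cast Real.rpow_natCast (n : ℝ) 3
    rw [one_mul, h1]
    exact_mod_cast this
  refine le_antisymm ?_ ?_
  · refine le_csInf ?_ fun τ hτ => csInf_le ⟨omega K, fun τ hτ => omega_le_of_mem hε hε1 hτ⟩
      (subset_restrictedExponents ε hε1 hτ)
    refine ⟨3, 1, fun n => ?_⟩
    have := R_le_cube (K := K) n
    have h1 : ((n : ℝ)) ^ (3 : ℝ) = ((n ^ 3 : ℕ) : ℝ) := by
      push_cast
      exact_mod_cast Real.rpow_natCast (n : ℝ) 3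
    rw [one_mul, h1]
    exact_mod_cast this
  · exact le_csInf hne fun τ hτ => omega_le_of_mem hε hε1 hτ

end H563R4
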