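import Mathlib
import Pool.Agent.H563R4.Final

/-!
The main inequality without parameters, and the form with slices.
-/

set_option autoImplicit false

open Matrix Module

namespace H563R4

open H563R2.MM

universe u

variable {K : Type u} [Field K] {n : ℕ}

theorem eps_dim {D : ℕ} (hn : 0 < n) (hD : 2 * n ^ 2 < D) (hD3 : D ≤ 3 * n ^ 2) :
    ∃ ε : ℝ, 0 < ε ∧ ε ≤ 1 ∧ (2 + ε) * (n : ℝ) ^ 2 ≤ D ∧
      ε ^ 5 = (((D - 2 * n ^ 2) ^ 5 : ℕ) : ℝ) / (n : ℝ) ^ 10 := by
  have hn' : (0 : ℝ) < n := by exact_mod_cast hn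
  have h1 : (((D - 2 * n ^ 2 : ℕ)) : ℝ) = (D : ℝ) - 2 * (n : ℝ) ^ 2 := by
    rw [Nat.cast_sub hD.le]
    push_cast
    ring
  have h2 : ((2 * n ^ 2 : ℕ) : ℝ) < (D : ℝ) := by exact_mod_cast hD
  have h3 : (D : ℝ) ≤ ((3 * n ^ 2 : ℕ) : ℝ) := by exact_mod_cast hD3
  push_cast at h2 h3
  refine ⟨((D - 2 * n ^ 2 : ℕ) : ℝ) / (n : ℝ) ^ 2, ?_, ?_, ?_, ?_⟩
  · rw [h1]
    apply div_pos (by linarith) (by positivity)
  · rw [h1, div_le_one (by positivity)]
    linarith
  · rw [h1, add_mul, div_mul_cancel₀ _ (by positivity)]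
    linarith
  · rw [div_pow, ← pow_mul]
    push_cast
    rfl

theorem dim_le (U V W : Submodule K (Matrix (Fin n) (Fin n) K)) :
    finrank K U + finrank K V + finrank K W ≤ 3 * n ^ 2 := by
  have h : ∀ U : Submodule K (Matrix (Fin n) (Fin n) K), finrank K U ≤ n ^ 2 := by
    intro U
    refine U.finrank_le.trans ?_
    rw [Module.finrank_matrix, Module.finrank_self]
    simp [sq]
  have := h U
  have := h V
  have := h W
  omega

theorem pos_of_dim {D : ℕ} (hD : 2 * n ^ 2 < D) (hD3 : D ≤ 3 * n ^ 2) : 0 < n := by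
  rcases Nat.eq_zero_or_pos n with rfl | hn
  · have h : (3 : ℕ) * 0 ^ 2 = 0 := rfl
    rw [h] at hD3
    omega
  · exact hn

theorem nat_form {R' r : ℕ} (U V W : Submodule K (Matrix (Fin n) (Fin n) K))
    (h : ∀ ε : ℝ, 0 < ε → ε ≤ 1 →
      (2 + ε) * (n : ℝ) ^ 2 ≤ ((finrank K U + finrank K V + finrank K W : ℕ) : ℝ) →
      ε ^ 5 * (R' : ℝ) ≤ 10 ^ 7 * (r : ℝ)) :
    (finrank K U + finrank K V + finrank K W - 2 * n ^ 2) ^ 5 * R' ≤ 10 ^ 7 * n ^ 10 * r := by
  rcases Nat.lt_or_ge (2 * n ^ 2) (finrank K U + finrank K V + finrank K W) with hD | hD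
  · have hD3 := dim_le U V W
    have hn : 0 < n := pos_of_dim hD hD3
    have hn' : (0 : ℝ) < n := by exact_mod_cast hn
    obtain ⟨ε, h1, h2, h3, h4⟩ := eps_dim hn hD hD3
    have h5 := h ε h1 h2 h3
    rw [h4, div_mul_eq_mul_div, div_le_iff₀ (by positivity)] at h5
    have h6 : (((finrank K U + finrank K V + finrank K W - 2 * n ^ 2) ^ 5 * R' : ℕ) : ℝ) ≤
        ((10 ^ 7 * n ^ 10 * r : ℕ) : ℝ) := by
      push_cast at h5 ⊢
      linarith
    exact_mod_cast h6
  · rw [Nat.sub_eq_zero_of_le hD]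
    simp

theorem real_form {R' : ℝ} {r : ℕ} (U V W : Submodule K (Matrix (Fin n) (Fin n) K))
    (h : 1 ≤ n → ∀ ε : ℝ, 0 < ε → ε ≤ 1 →
      (2 + ε) * (n : ℝ) ^ 2 ≤ ((finrank K U + finrank K V + finrank K W : ℕ) : ℝ) →
      ε ^ 5 * R' ≤ 10 ^ 7 * (r : ℝ)) :
    (((finrank K U + finrank K V + finrank K W - 2 * n ^ 2) ^ 5 : ℕ) : ℝ) * R' ≤
      10 ^ 7 * (n : ℝ) ^ 10 * r := by
  rcases Nat.lt_or_ge (2 * n ^ 2) (finrank K U + finrank K V + finrank K W) with hD | hD
  · have hD3 := dim_le U V W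
    have hn : 0 < n := pos_of_dim hD hD3
    have hn' : (0 : ℝ) < n := by exact_mod_cast hn
    obtain ⟨ε, h1, h2, h3, h4⟩ := eps_dim hn hD hD3
    have h5 := h hn ε h1 h2 h3
    rw [h4, div_mul_eq_mul_div, div_le_iff₀ (by positivity)] at h5
    linarith
  · rw [Nat.sub_eq_zero_of_le hD]
    simp only [ne_eq, OfNat.ofNat_ne_zero, not_false_eq_true, zero_pow, Nat.cast_zero, zero_mul]
    positivity

/-- the annihilator of `p` functionals -/
def annih {p : ℕ} (x : Fin p → Matrix (Fin n) (Fin n) K) :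
    Submodule K (Matrix (Fin n) (Fin n) K) :=
  LinearMap.ker (LinearMap.pi fun i => (traceLinearMap (Fin n) K K) ∘ₗ (mulLeftLinearMap _ K (x i)))

theorem mem_annih {p : ℕ} {x : Fin p → Matrix (Fin n) (Fin n) K} {A : Matrix (Fin n) (Fin n) K}
    (h : A ∈ annih x) (i : Fin p) : (x i * A).trace = 0 := by
  have := LinearMap.mem_ker.1 h
  exact congrFun this i

theorem le_finrank_annih {p : ℕ} (x : Fin p → Matrix (Fin n) (Fin n) K) :
    n ^ 2 ≤ finrank K (annih x) + p := by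
  have h1 := LinearMap.finrank_range_add_finrank_ker
    (LinearMap.pi fun i => (traceLinearMap (Fin n) K K) ∘ₗ (mulLeftLinearMap _ K (x i)) :
      Matrix (Fin n) (Fin n) K →ₗ[K] (Fin p → K))
  have h2 := (LinearMap.range
    (LinearMap.pi fun i => (traceLinearMap (Fin n) K K) ∘ₗ (mulLeftLinearMap _ K (x i)) :
      Matrix (Fin n) (Fin n) K →ₗ[K] (Fin p → K))).finrank_le
  have h3 : finrank K (Matrix (Fin n) (Fin n) K) = n ^ 2 := by
    rw [Module.finrank_matrix, Module.finrank_self]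
    simp [sq]
  rw [h3] at h1
  rw [Module.finrank_fin_fun] at h2
  unfold annih
  omega

/-- if `⟨n,n,n⟩` has rank `r` up to `s` slices, then it has restricted rank `≤ r` for some subspaces
of total codimension `≤ s` -/
theorem RankPlusSlices.exists_subspaces {r s : ℕ} (H : RankPlusSlices K n r s) :
    ∃ U V W : Submodule K (Matrix (Fin n) (Fin n) K),
      n ^ 2 - s ≤ finrank K U + finrank K V + finrank K W - 2 * n ^ 2 ∧
      restrictedRank K n U V W ≤ r := by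
  obtain ⟨a, b, c, p, q, l, x, y, z, f, g, h, hs, H⟩ := H
  refine ⟨annih x, annih y, annih z, ?_, Nat.sInf_le ⟨a, b, c, fun A hA B hB C hC => ?_⟩⟩
  · have h1 := le_finrank_annih x
    have h2 := le_finrank_annih y
    have h3 := le_finrank_annih z
    omega
  · rw [H]
    simp [mem_annih hA, mem_annih hB, mem_annih hC]

end H563R4
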